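import Pool.Agent.H64.LV.Drh
import Pool.Agent.H21.DIR.Qd

/-!
# Closed direction of two places of the same precision

`vd_dir`: if the digits of the two places are not full, there is a covector `ell`, a function of the
line, such that `ell` of the gradients is a polynomial of the time with coefficients which are
functions of the line; `ell` is few bits given the base data and given the context.
-/

set_option autoImplicit false

namespace Pool.LV64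

open Finset Real
open Pool.Agent.H49.Ent Pool.Agent.H32.Dense Pool.STK
open Pool.AVG71 (MI_eq MI_eq')
open Pool.KVA (MI)
open Pool.BD64 (QHd pol)
open Pool.DIR21 (DirH qh_dir)
open Pool.K2S (Pe)
open Pool.BFL (Pb)

namespace VD

variable {Ω β : Type} {k K : ℕ} {d : VD Ω β 2 k}

/-- **`DirH` for the picture.** -/
theorem Hyp.dirh [Fintype Ω] {ρ₁ ρ₂ ν₁ ν₂ σ₁ σ₂ υ σ' : Type} {p : Ω → ℝ} {Rj : Ω → ρ₁}
    {Rx : Ω → ρ₂} {nj : Ω → ν₁} {nx : Ω → ν₂} {bj : Ω → σ₁} {bx : Ω → σ₂} {V : Ω → υ}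
    {M : Ω → Fin 2 → ℤ} {Bs : Ω → σ'} {F e B : ℝ}
    (H : d.Hyp K p Rj Rx nj nx bj bx V M F e B) {ω₀ : Ω} (hω₀ : 0 < p ω₀)
    (ht : d.X * Real.log 2 - e ≤ CH p (fun ω => ⌊(2 : ℝ) ^ d.X * d.th ω⌋) (d.L K))
    {CB C U π₀ h dd : ℝ} (hCB : 0 ≤ CB) (hB : B ≤ CB * 2 ^ d.m)
    (hBs : Det p (fun ω => (Wn d.X V M ω, (d.T ω, d.g K ω))) Bs)
    (hfew : MI p M (fun ω => (V ω, (d.T ω, d.g K ω))) Bs ≤ e)
    (hrow : ∀ G : Ω → Prop, π₀ ≤ Pe p G → 0 < Pe p G → CH (cond p G True) M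
      (fun ω => (Wn d.X V M ω, (d.T ω, d.g K ω))) ≤ U)
    (hU : U ≤ (2 - h) * d.X * Real.log 2 + dd)
    (hC : CB + Cv k K + 2 * ((K + 1) * (k + 1)) + 5 ≤ C)
    (hdd : Dv 2 k d.m e + 2 * Eu k K d.m B ≤ dd) :
    DirH (d.pic K p ω₀) (fun ω : Ω => (d.T ω, d.g K ω)) (Wn d.X V M) (Zn d.m d.X p ω₀ M) Bs
      d.X C dd h π₀ := by
  have h0 := H.law.nonneg
  have he := H.e0
  have hok := H.ok hω₀ ht
  have hKk : (0 : ℝ) ≤ 2 * (((K : ℝ) + 1) * (k + 1)) := by positivity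
  have hCv : 1 ≤ Cv k K := by
    unfold Cv
    have h1 : (0 : ℝ) ≤ (K : ℝ) * K := by positivity
    have h2 : (0 : ℝ) ≤ K := Nat.cast_nonneg K
    have h3 : (0 : ℝ) ≤ k := Nat.cast_nonneg k
    linarith
  have hC1 : Cv k K ≤ C := by linarith
  have hC2 : 1 ≤ C := by linarith
  have hX : (0 : ℝ) < 2 ^ d.X := by positivity
  have hEu : 0 ≤ Eu k K d.m B := by
    unfold Eu
    refine Real.log_nonneg ?_
    have := H.B0
    have h2 : (0 : ℝ) ≤ 2 * (K + 1 + k * 2 ^ d.m) := by positivity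
    linarith
  have hDd : Dv 2 k d.m e ≤ dd := by linarith
  have hkm : 0 ≤ k * d.m * Real.log 2 := by
    have := Real.log_pos (show (1 : ℝ) < 2 by norm_num)
    positivity
  have hl11 : 0 < Real.log 11 := Real.log_pos (by norm_num)
  have hDe : e ≤ Dv 2 k d.m e := by
    unfold Dv
    push_cast
    linarith
  refine ⟨?_, fun ω i => ?_, ?_, ?_, ?_, ?_, ?_, ?_⟩
  · exact ⟨hok.law, hok.tau_r, hok.y_r, fun ω u i => (hok.E_b ω u i).trans hC1,
      fun ω a i => (hok.be_b ω a i).trans hC1,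
      fun ω i => (hok.hgt_b ω i).trans (mul_le_mul_of_nonneg_right hC1 hX.le),
      fun ω ω' i => (hok.g_eq ω ω' i).trans hC1, hok.h0.trans hDd,
      hok.h2.trans hDd, le_trans (by linarith) hok.y_f, le_trans (by linarith) hok.t_f⟩
  · exact (Zn_b d.m d.X p ω₀ M ω i).trans (le_mul_of_one_le_left hX.le hC2)
  · intro (ω : Ω) (ω' : Ω) (a : 0 < p ω) (b : 0 < p ω') e1 e2 e3 i
    exact (H.Zn_rel hB a b e1 e2 e3 i).trans (by linarith)
  · refine le_trans (le_of_eq ?_) (((H.Zn_wd ω₀).trans (by push_cast; exact le_rfl)).trans hdd)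
    rw [MI_eq h0]
    rfl
  · intro (ω : Ω) (ω' : Ω) (a : 0 < p ω) (b : 0 < p ω') e
    obtain ⟨_, e4⟩ := Prod.ext_iff.mp e
    have e5 : ((d.pic K p ω₀).th ω, (d.pic K p ω₀).b ω) =
      ((d.pic K p ω₀).th ω', (d.pic K p ω₀).b ω') := e4
    rw [pic_thb a, pic_thb b] at e5
    exact e5
  · intro (ω : Ω) (ω' : Ω) (a : 0 < p ω) (b : 0 < p ω') e
    obtain ⟨e3, e4⟩ := Prod.ext_iff.mp e
    have e5 : ((d.pic K p ω₀).th ω, (d.pic K p ω₀).b ω) =
      ((d.pic K p ω₀).th ω', (d.pic K p ω₀).b ω') := e4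
    rw [pic_thb a, pic_thb b] at e5
    exact hBs ω ω' a b (Prod.ext e3 e5)
  · have h1 := H.Zn_few ω₀ Bs hfew
    refine le_trans (le_of_eq ?_) (h1.trans ?_)
    · rw [MI_eq h0]
      rfl
    · push_cast
      linarith
  · intro G hG hG0
    have hql : IsLaw (cond p G True) := ⟨cond_nonneg h0 G True, sum_cond p G (ne_of_gt hG0)⟩
    have hqp : ∀ ω, 0 < cond p G True ω → 0 < p ω := fun ω hω =>
      ((cond_pos_iff h0 G True ω).mp hω).1
    exact (Zn_nf hql.nonneg hqp M _).trans ((hrow G hG hG0).trans hU)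

end VD

/-- **Closed direction of two places.** -/
theorem vd_dir (k K : ℕ) (hK : 1 ≤ K) {h x₀ σ ε CB : ℝ} (hh1 : h ≤ 1) (hx : 0 < x₀)
    (hxh : 3 * x₀ < h) (hσ : 0 < σ) (hε : 0 < ε) (hCB : 0 ≤ CB) :
    ∃ ι π₀ : ℝ, 0 < ι ∧ 0 < π₀ ∧ ∃ X₀ : ℕ,
      ∀ {Ω β : Type} [Fintype Ω] (p : Ω → ℝ) (d : VD Ω β 2 k) {ρ₁ ρ₂ ν₁ ν₂ σ₁ σ₂ υ σ' : Type}
        (Rj : Ω → ρ₁) (Rx : Ω → ρ₂) (nj : Ω → ν₁) (nx : Ω → ν₂) (bj : Ω → σ₁) (bx : Ω → σ₂)
        (V : Ω → υ) (M : Ω → Fin 2 → ℤ) (Bs : Ω → σ') (F e B U : ℝ), X₀ ≤ d.X →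
        d.Hyp K p Rj Rx nj nx bj bx V M F e B →
        d.X * Real.log 2 - e ≤ CH p (fun ω => ⌊(2 : ℝ) ^ d.X * d.th ω⌋) (d.L K) →
        Det p (fun ω => (Wn d.X V M ω, (d.T ω, d.g K ω))) Bs →
        MI p M (fun ω => (V ω, (d.T ω, d.g K ω))) Bs ≤ e →
        (∀ G : Ω → Prop, π₀ ≤ Pe p G → CH (cond p G True) M
          (fun ω => (Wn d.X V M ω, (d.T ω, d.g K ω))) ≤ U) →
        e ≤ ι * d.X → (d.m : ℝ) ≤ ι * d.X → B ≤ CB * 2 ^ d.m →
        U ≤ (2 - h) * d.X * Real.log 2 + ι * d.X →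
        ∃ (ell : LamV β 2 k K → Fin 2 → ℝ) (mu : LamV β 2 k K → Fin k → Polynomial ℝ),
          (∀ l i, |ell l i| ≤ 1) ∧ (∀ l, ∃ i, |ell l i| = 1) ∧
          (∀ l j, (mu l j).natDegree ≤ K) ∧
          (∀ l j (u : ℝ), |(mu l j).eval u| ≤ (K + 1) * (|u| + 1) ^ K * (2 : ℝ) ^ (σ * d.X)) ∧
          Pb p (fun ω => ∃ j, (2 : ℝ) ^ (-(x₀ * d.X)) <
            |∑ i, ell (d.L K ω) i * d.bb ω i j - (mu (d.L K ω) j).eval (d.th ω)|) ≤ ε ∧
          CH p (fun ω => ell (d.L K ω)) Bs ≤ ε * d.X ∧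
          CH p (fun ω => ell (d.L K ω)) (d.g K) ≤ ε * d.X ∧
          ∀ Y : ℕ, (Y : ℝ) ≤ x₀ * d.X →
            CH p (fun ω (v : Fin (K + 1) × Fin k) =>
              ⌊(2 : ℝ) ^ Y * (mu (d.L K ω) v.2).coeff v.1⌋) (d.g K) ≤ ε * d.X := by
  classical
  have hl2 : 0 < Real.log 2 := Real.log_pos (by norm_num)
  have hl2' : Real.log 2 ≤ 1 := by
    have := Real.log_two_lt_d9
    linarith
  have hl11 : 0 < Real.log 11 := Real.log_pos (by norm_num)
  have hk0 : (0 : ℝ) ≤ k := Nat.cast_nonneg k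
  have hK0 : (0 : ℝ) ≤ K := Nat.cast_nonneg K
  obtain ⟨δ, hδ⟩ : ∃ δ : ℝ, δ = (h / 3 - x₀) / 8 := ⟨_, rfl⟩
  have hδ0 : 0 < δ := by rw [hδ]; linarith
  obtain ⟨x₁, hx₁⟩ : ∃ x₁ : ℝ, x₁ = x₀ + 4 * δ := ⟨_, rfl⟩
  have hx1h : 3 * x₁ < h := by rw [hx₁, hδ]; linarith
  have hx1p : 0 < x₁ := by rw [hx₁]; linarith
  obtain ⟨s, hs⟩ : ∃ s : ℝ, s = min (σ / 2) δ := ⟨_, rfl⟩
  have hs0 : 0 < s := by rw [hs]; exact lt_min (by linarith) hδ0
  have hs1 : s ≤ σ / 2 := by rw [hs]; exact min_le_left _ _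
  have hs2 : s ≤ δ := by rw [hs]; exact min_le_right _ _
  obtain ⟨io, ϖ, hio, hϖ, hqd⟩ := qh_dir k K hK hh1 hx1p hx1h hs0 hε
  obtain ⟨C, hC⟩ : ∃ C : ℝ, C = CB + VD.Cv k K + 2 * (((K : ℝ) + 1) * (k + 1)) + 5 := ⟨_, rfl⟩
  have hKk : (0 : ℝ) ≤ 2 * (((K : ℝ) + 1) * (k + 1)) := by positivity
  have hCv : 1 ≤ VD.Cv k K := by
    unfold VD.Cv
    have h1 : (0 : ℝ) ≤ (K : ℝ) * K := by positivity
    linarith
  obtain ⟨X1, hX1⟩ := hqd C (by rw [hC]; linarith)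
  obtain ⟨Lc, hLc⟩ : ∃ Lc : ℝ, Lc = 2 * Real.log (2 * (2 * ((K : ℝ) + 1 + k) +
    (CB + 2 * (((K : ℝ) + 1) * (k + 1))) + 1) + 1) + 2 * Real.log 11 := ⟨_, rfl⟩
  obtain ⟨ι, hι⟩ : ∃ ι : ℝ, ι = min (io / (2 * (k + 8))) s := ⟨_, rfl⟩
  have hι0 : 0 < ι := by rw [hι]; exact lt_min (by positivity) hs0
  have hι1 : ι * (2 * (k + 8)) ≤ io := by
    have : ι ≤ io / (2 * (k + 8)) := by rw [hι]; exact min_le_left _ _
    rwa [le_div_iff₀ (by positivity)] at this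
  have hι2 : ι ≤ s := by rw [hι]; exact min_le_right _ _
  obtain ⟨X2, hX2⟩ := exists_nat_ge (2 * Lc / io)
  obtain ⟨X3, hX3⟩ := exists_nat_ge ((Real.log (2 * ((K + 1) * K) + 2) / Real.log 2) / δ)
  refine ⟨ι, ϖ, hι0, hϖ, max X1 (max X2 X3), ?_⟩
  intro Ω β _ p d ρ₁ ρ₂ ν₁ ν₂ σ₁ σ₂ υ σ' Rj Rx nj nx bj bx V M Bs F e B U hXd H ht hBs hfew hrow
    he hm hB hU
  have hp := H.law
  have h0 := hp.nonneg
  obtain ⟨ω₀, hω₀⟩ : ∃ ω₀, 0 < p ω₀ := by
    by_contra hcon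
    push Not at hcon
    have : ∑ ω, p ω ≤ 0 := Finset.sum_nonpos fun ω _ => hcon ω
    rw [hp.sum_one] at this
    linarith
  have hXa : X1 ≤ d.X := (le_max_left _ _).trans hXd
  have hXb : X2 ≤ d.X := (le_max_left _ _).trans ((le_max_right _ _).trans hXd)
  have hXc : X3 ≤ d.X := (le_max_right _ _).trans ((le_max_right _ _).trans hXd)
  have hXR : (0 : ℝ) ≤ d.X := Nat.cast_nonneg _
  have n2 : 2 * Lc ≤ io * d.X := by
    have h1 : 2 * Lc / io ≤ d.X := hX2.trans (by exact_mod_cast hXb)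
    rw [div_le_iff₀ hio] at h1
    linarith
  have n3 : Real.log (2 * ((K + 1) * K) + 2) / Real.log 2 ≤ δ * d.X := by
    have h1 : (Real.log (2 * ((K + 1) * K) + 2) / Real.log 2) / δ ≤ d.X :=
      hX3.trans (by exact_mod_cast hXc)
    rw [div_le_iff₀ hδ0] at h1
    linarith
  have hιX : 0 ≤ ι * d.X := by positivity
  have hιio : ι * d.X * (2 * (k + 8)) ≤ io * d.X := by
    have := mul_le_mul_of_nonneg_right hι1 hXR
    linarith
  have hkm : k * (d.m : ℝ) * Real.log 2 ≤ k * (ι * d.X) := by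
    have h2 : k * (d.m : ℝ) ≤ k * (ι * d.X) := mul_le_mul_of_nonneg_left hm hk0
    have h3 : 0 ≤ k * (d.m : ℝ) := by positivity
    exact (mul_le_of_le_one_right h3 hl2').trans h2
  have hmm : (d.m : ℝ) * Real.log 2 ≤ ι * d.X :=
    (mul_le_of_le_one_right (Nat.cast_nonneg _) hl2').trans hm
  have hkι : 0 ≤ k * (ι * d.X) := by positivity
  have hdd : VD.Dv 2 k d.m e + 2 * VD.Eu k K d.m B ≤ io * d.X := by
    have h1 := VD.Eu_le (k := k) (K := K) hCB H.B0 hB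
    unfold VD.Dv
    push_cast
    rw [hLc] at n2
    linarith
  have hdir := H.dirh hω₀ ht (C := C) (U := U) (π₀ := ϖ) (h := h) (dd := io * d.X) hCB hB hBs
    hfew (fun G hG _ => hrow G hG) (by linarith) (le_of_eq hC.symm) hdd
  obtain ⟨ell, ep, he1, he2, he3, he4, he5, he6, he7⟩ :=
    hX1 (d.pic K p ω₀) _ _ _ _ _ _ _ d.X hXa hdir
  have hline : ∀ {ω : Ω}, 0 < p ω → (d.pic K p ω₀).line ω = d.lnL K (d.L K ω) :=
    fun h => VD.lnL_eq h
  have hmub : ∀ (l : LamV β 2 k K) (j : Fin k) (a : Fin (K + 1)),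
      |2 ^ d.m * ep (d.lnL K l) a j| ≤ (2 : ℝ) ^ (σ * d.X) := by
    intro l j a
    rw [abs_mul, abs_of_pos (by positivity : (0 : ℝ) < 2 ^ d.m)]
    have g3 : (2 : ℝ) ^ d.m ≤ 2 ^ (s * d.X) := by
      rw [← Real.rpow_natCast]
      exact Real.rpow_le_rpow_of_exponent_le one_le_two
        (hm.trans (mul_le_mul_of_nonneg_right hι2 hXR))
    calc (2 : ℝ) ^ d.m * |ep (d.lnL K l) a j| ≤ 2 ^ (s * d.X) * 2 ^ (s * d.X) :=
          mul_le_mul g3 (he3 _ a j) (abs_nonneg _) (by positivity)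
      _ = 2 ^ (s * d.X + s * d.X) := by rw [← Real.rpow_add two_pos]
      _ ≤ 2 ^ (σ * d.X) := Real.rpow_le_rpow_of_exponent_le one_le_two (by
          have := mul_le_mul_of_nonneg_right hs1 hXR
          linarith)
  refine ⟨fun l => ell (d.lnL K l), fun l j => plc fun a => 2 ^ d.m * ep (d.lnL K l) a j,
    fun l i => he1 _ i, fun l => he2 _, fun l j => plc_deg _, fun l j u => plc_bd (hmub l j) u,
    ?_, ?_, ?_, ?_⟩
  · refine le_trans (Pb_le_Pb h0 ?_) he4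
    intro ω hω hbad hgood
    obtain ⟨j, hj⟩ := hbad
    refine absurd hj (not_lt.2 ?_)
    have hX : (0 : ℝ) < 2 ^ d.X := by positivity
    have hm0 : (0 : ℝ) < 2 ^ d.m := by positivity
    have h1 := hgood j
    rw [hline hω] at h1
    have hth := H.th ω hω
    obtain ⟨a, ha⟩ : ∃ a : Fin (K + 1) → ℝ, a = fun a => ep (d.lnL K (d.L K ω)) a j := ⟨_, rfl⟩
    obtain ⟨v, hv⟩ : ∃ v : Fin 2 → ℝ, v = ell (d.lnL K (d.L K ω)) := ⟨_, rfl⟩
    have h2 : |(∑ i, v i * d.bb ω i j) / 2 ^ d.m - ∑ i : Fin (K + 1), a i *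
        ((⌊(2 : ℝ) ^ d.X * d.th ω⌋ : ℝ) / 2 ^ d.X) ^ (i : ℕ)| ≤
        (2 : ℝ) ^ ((s - x₁) * d.X) := by
      have e1 : ∑ i, ell (d.lnL K (d.L K ω)) i *
          (d.pic K p ω₀).E ((d.pic K p ω₀).th ω) j i = (∑ i, v i * d.bb ω i j) / 2 ^ d.m := by
        rw [Finset.sum_div]
        refine Finset.sum_congr rfl fun i _ => ?_
        show ell (d.lnL K (d.L K ω)) i * (d.bb (rr p ω₀ ω) i j / 2 ^ d.m) = _
        rw [rr_eq hω, hv]
        ring
      have e2 : ((d.pic K p ω₀).tau ((d.pic K p ω₀).th ω) : ℝ) / 2 ^ d.X =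
          (⌊(2 : ℝ) ^ d.X * d.th ω⌋ : ℝ) / 2 ^ d.X := by
        show (⌊(2 : ℝ) ^ d.X * d.th (rr p ω₀ ω)⌋ : ℝ) / 2 ^ d.X = _
        rw [rr_eq hω]
      rw [e1, e2] at h1
      rw [ha]
      exact h1
    have h3 := plc_near (X := d.X) (a := a) (A := (2 : ℝ) ^ (s * d.X)) (fun i => by
      rw [ha]
      exact he3 _ i j) hth.1 hth.2
    have h4 : (plc fun a => 2 ^ d.m * ep (d.lnL K (d.L K ω)) a j).eval (d.th ω) =
        2 ^ d.m * (plc a).eval (d.th ω) := by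
      rw [plc_eval, plc_eval, Finset.mul_sum, ha]
      exact Finset.sum_congr rfl fun i _ => by ring
    show |∑ i, ell (d.lnL K (d.L K ω)) i * d.bb ω i j -
      (plc fun a => 2 ^ d.m * ep (d.lnL K (d.L K ω)) a j).eval (d.th ω)| ≤ _
    rw [h4, ← hv]
    have h5 : |∑ i, v i * d.bb ω i j - 2 ^ d.m * (plc a).eval (d.th ω)| ≤
        2 ^ d.m * ((2 : ℝ) ^ ((s - x₁) * d.X) +
          (K + 1) * K * ((2 : ℝ) ^ (s * d.X) / 2 ^ d.X)) := by
      have e1 : ∑ i, v i * d.bb ω i j - 2 ^ d.m * (plc a).eval (d.th ω) =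
          2 ^ d.m * ((∑ i, v i * d.bb ω i j) / 2 ^ d.m - (plc a).eval (d.th ω)) := by
        field_simp
      rw [e1, abs_mul, abs_of_pos hm0]
      refine mul_le_mul_of_nonneg_left ?_ hm0.le
      have g1 := abs_le.1 h2
      have g2 := abs_le.1 h3
      rw [abs_le]
      constructor <;> linarith [g1.1, g1.2, g2.1, g2.2]
    refine h5.trans ?_
    -- the numbers
    have g3 : (2 : ℝ) ^ d.m ≤ 2 ^ (δ * d.X) := by
      rw [← Real.rpow_natCast]
      exact Real.rpow_le_rpow_of_exponent_le one_le_two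
        (hm.trans (mul_le_mul_of_nonneg_right (hι2.trans hs2) hXR))
    have g4 : (2 : ℝ) ^ (s * d.X) / 2 ^ d.X ≤ 2 ^ ((s - x₁) * d.X) := by
      rw [← Real.rpow_natCast, ← Real.rpow_sub two_pos]
      refine Real.rpow_le_rpow_of_exponent_le one_le_two ?_
      have e2 : x₁ ≤ 1 := by linarith
      have e3 := mul_le_mul_of_nonneg_right e2 hXR
      linarith
    have g5 : (2 : ℝ) * ((K + 1) * K) + 2 ≤ 2 ^ (δ * d.X) := by
      rw [div_le_iff₀ hl2] at n3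
      have e1 : (0 : ℝ) < 2 * ((K + 1) * K) + 2 := by positivity
      rw [← Real.exp_log e1, Real.rpow_def_of_pos two_pos]
      exact Real.exp_le_exp.2 (by linarith)
    have g6 : (0 : ℝ) < (2 : ℝ) ^ ((s - x₁) * d.X) := Real.rpow_pos_of_pos two_pos _
    have hKK : (0 : ℝ) ≤ (K + 1) * K := by positivity
    have g7 := mul_le_mul_of_nonneg_left g4 hKK
    have g8 := mul_le_mul_of_nonneg_right g5 g6.le
    have g9 : 0 ≤ ((K : ℝ) + 1) * K * 2 ^ ((s - x₁) * d.X) := by positivity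
    calc (2 : ℝ) ^ d.m * ((2 : ℝ) ^ ((s - x₁) * d.X) + (K + 1) * K *
          ((2 : ℝ) ^ (s * d.X) / 2 ^ d.X))
        ≤ 2 ^ (δ * d.X) * (2 ^ (δ * d.X) * (2 : ℝ) ^ ((s - x₁) * d.X)) := by
          refine mul_le_mul g3 ?_ (by positivity) (by positivity)
          linarith
      _ = 2 ^ (δ * d.X + (δ * d.X + (s - x₁) * d.X)) := by
          rw [← Real.rpow_add two_pos, ← Real.rpow_add two_pos]
      _ ≤ 2 ^ (-(x₀ * d.X)) := by
          refine Real.rpow_le_rpow_of_exponent_le one_le_two ?_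
          have e1 : 2 * δ + s - x₁ ≤ -x₀ := by
            rw [hx₁]
            linarith
          have e2 := mul_le_mul_of_nonneg_right e1 hXR
          linarith
  · have e1 : CH p (fun ω => ell (d.lnL K (d.L K ω))) Bs =
        CH p (fun ω => ell ((d.pic K p ω₀).line ω)) Bs :=
      CH_congr h0 (fun ω ω' a b e => by
        have e1 : ell (d.lnL K (d.L K ω)) = ell (d.lnL K (d.L K ω')) := (Prod.ext_iff.mp e).1
        show ell ((d.pic K p ω₀).line ω) = ell ((d.pic K p ω₀).line ω')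
        rw [hline a, hline b, e1]) (fun ω ω' a b e => by
        have e1 : ell ((d.pic K p ω₀).line ω) = ell ((d.pic K p ω₀).line ω') :=
          (Prod.ext_iff.mp e).1
        show ell (d.lnL K (d.L K ω)) = ell (d.lnL K (d.L K ω'))
        rw [← hline a, ← hline b, e1]) (fun _ _ _ _ h => h) (fun _ _ _ _ h => h)
    exact (le_of_eq e1).trans he5
  · have e1 : CH p (fun ω => ell (d.lnL K (d.L K ω))) (d.g K) =
        CH p (fun ω => ell ((d.pic K p ω₀).line ω)) (d.pic K p ω₀).b :=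
      CH_congr h0 (fun ω ω' a b e => by
        have e1 : ell (d.lnL K (d.L K ω)) = ell (d.lnL K (d.L K ω')) := (Prod.ext_iff.mp e).1
        show ell ((d.pic K p ω₀).line ω) = ell ((d.pic K p ω₀).line ω')
        rw [hline a, hline b, e1]) (fun ω ω' a b e => by
        have e1 : ell ((d.pic K p ω₀).line ω) = ell ((d.pic K p ω₀).line ω') :=
          (Prod.ext_iff.mp e).1
        show ell (d.lnL K (d.L K ω)) = ell (d.lnL K (d.L K ω'))
        rw [← hline a, ← hline b, e1])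
        (fun ω ω' a b e => by
          show d.g K (rr p ω₀ ω) = d.g K (rr p ω₀ ω')
          rw [rr_eq a, rr_eq b]
          exact e)
        (fun ω ω' a b e => by
          have e1 : d.g K (rr p ω₀ ω) = d.g K (rr p ω₀ ω') := e
          rwa [rr_eq a, rr_eq b] at e1)
    exact (le_of_eq e1).trans he6
  · intro Y hY
    have hYm : ((Y + d.m : ℕ) : ℝ) ≤ (x₁ - s) * d.X := by
      push_cast
      have e1 : x₀ + ι ≤ x₁ - s := by
        rw [hx₁]
        linarith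
      have e2 := mul_le_mul_of_nonneg_right e1 hXR
      linarith
    refine le_trans (le_of_eq ?_) (he7 (Y + d.m) hYm)
    have hfl : ∀ {ω : Ω}, 0 < p ω →
        (fun v : Fin (K + 1) × Fin k => ⌊(2 : ℝ) ^ Y *
          (plc fun a => 2 ^ d.m * ep (d.lnL K (d.L K ω)) a v.2).coeff v.1⌋) =
        fun v => ⌊(2 : ℝ) ^ (Y + d.m) * ep ((d.pic K p ω₀).line ω) v.1 v.2⌋ := by
      intro ω hω
      funext v
      rw [plc_coeff, hline hω, ← mul_assoc, ← pow_add]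
    refine CH_congr h0 (fun ω ω' a b e => ?_) (fun ω ω' a b e => ?_) (fun ω ω' a b e => ?_)
      (fun ω ω' a b e => ?_)
    · exact (hfl a).symm.trans ((Prod.ext_iff.mp e).1.trans (hfl b))
    · exact (hfl a).trans ((Prod.ext_iff.mp e).1.trans (hfl b).symm)
    · show d.g K (rr p ω₀ ω) = d.g K (rr p ω₀ ω')
      rw [rr_eq a, rr_eq b]
      exact e
    · have e1 : d.g K (rr p ω₀ ω) = d.g K (rr p ω₀ ω') := e
      rwa [rr_eq a, rr_eq b] at e1

end Pool.LV64
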