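import Pool.Agent.H64.LV.Evc
import Pool.Agent.H64.LV.Dir

/-!
# Closed direction of two places of the same precision, on one event

`pv_dir`: from the inputs `PrV` for two places and a row of both places: there is a covector `ell`, a
function of the line and the window, such that `ell` of the gradients in the directions of the moved
places is closed; `ell` is few bits given the base data `Bs` and given the context.
-/

set_option autoImplicit false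

namespace Pool.LV64

open Finset Real MvPolynomial
open Pool.Agent.H49.Ent Pool.Agent.H32.Dense Pool.STK Pool.KA Pool.KSAT Pool.K2S Pool.PB Pool.S6C
open Pool.GEN Pool.CHT Pool.CHX Pool.ISO Pool.LA91 Pool.AVG71 Pool.AVG5 Pool.D2F2 Pool.AVG57
open Pool.PB.Trl (rt rt_mem t_rt)
open Pool.D2R (hgt)
open Pool.KVA (MI)
open Pool.KAF (rs Pr)
open Pool.BFL (Pb)

variable {m J : ℕ}

/-- The upper digits of the own heights of the places. -/
noncomputable def Mu (F : Fam m J) (c : ℕ → Fin m) {C : ℕ} (tg qt : Fin C → ℕ) (w : ℕ) (γ : ℕ → ℕ)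
    (H : LnT F → ℕ → MvPolynomial (Option (Fin m)) ℝ) (ω : F.Ω) (u : Fin C) : ℤ :=
  Mh F c (tg u) w H (γ (tg u) + qt u) ω

/-- **Closed direction of two places**, on one event. -/
theorem pv_dir (k K : ℕ) (hK : 1 ≤ K) {h x₀ σ ε : ℝ} (hh1 : h ≤ 1) (hx : 0 < x₀)
    (hxh : 3 * x₀ < h) (hσ : 0 < σ) (hε : 0 < ε) :
    ∃ ι π₀ : ℝ, 0 < ι ∧ 0 < π₀ ∧ ∃ X₀ : ℕ,
      ∀ {m J : ℕ} {F : Fam m J} {c : ℕ → Fin m} {mv : Fin k → ℕ} {tg qt Xt : Fin 2 → ℕ}
        {q w W X mm D : ℕ} {γ : ℕ → ℕ} {B : F.Ω → Prop}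
        {G₀ : PtT F → ℕ → MvPolynomial (Option (Fin m)) ℝ}
        {H : LnT F → ℕ → MvPolynomial (Option (Fin m)) ℝ} {gg : F.Ω → Fin 2 → Fin k → ℝ}
        {ζ ζ' υ' χ₁ χ₂ ρ₁ ρ₂ σ' : Type} {z : F.Ω → ζ} {zw : F.Ω → ζ'} {Yc : F.Ω → υ'}
        {Cj : F.Ω → χ₁} {Cx : F.Ω → χ₂} {Rj : F.Ω → ρ₁} {Rx : F.Ω → ρ₂} {Bs : F.Ω → σ'}
        {Nb : Fin k → ℝ} {p : F.Ω → ℝ} {Nf Nn Nx Nu Nv : Fin k → ℕ → ℝ}
        {Mf Mn : Fin 2 → ℕ → ℝ} {U e : ℝ}
        (_ : PrV F c mv tg qt Xt q w W X mm D K γ B G₀ H gg z zw Yc Cj Cx Rj Rx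
          (Vm F c mv w H Nb) p Nf Nn Nx Nu Nv Mf Mn U (k * (X * Real.log 2)) e)
        {Ur ψ ε₀ : ℝ} {j₀ : ℕ}, (∀ j, ((γ (mv j) + q + X : ℕ) : ℝ) ≤ Nb j) →
        (∀ j, Nb j ≤ (γ (mv j) + q + (X + mm) : ℕ)) → (∀ u, Xt u = X) →
        Det p (fun ω => ((Vm F c mv w H Nb ω, Mu F c tg qt w γ H ω),
          ((adV F c mv tg qt Xt q w W X mm γ gg H z).T ω,
            (adV F c mv tg qt Xt q w W X mm γ gg H z).g K ω))) Bs →
        MI p (Mm F c tg w H (fun u => γ (tg u) + qt u + Xt u)) (fun ω => (Vm F c mv w H Nb ω,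
          ((adV F c mv tg qt Xt q w W X mm γ gg H z).T ω,
            (adV F c mv tg qt Xt q w W X mm γ gg H z).g K ω))) Bs ≤ ι * X →
        (∀ E : Set F.Ω, π₀ ≤ Pr p E → CH (rs p E)
          (Mm F c tg w H (fun u => γ (tg u) + qt u + Xt u))
          (fun ω => ((Vm F c mv w H Nb ω, Mu F c tg qt w γ H ω), (rt F W ω, z ω))) ≤ Ur) →
        TimW F p W j₀ ε₀ ψ → Det p (slam F W) z → X₀ ≤ X → W + X ≤ J → ψ * J ≤ ι * X →
        (mm : ℝ) ≤ ι * X → Evn 2 k K U e ≤ ι * X →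
        Ur ≤ (2 - h) * X * Real.log 2 + ι * X →
        ∃ (ell : LnT F → Fin 2 → ℝ) (mu : LnT F → Fin k → Polynomial ℝ),
          (∀ s i, |ell s i| ≤ 1) ∧ (∀ s, ∃ i, |ell s i| = 1) ∧
          (∀ s j, (mu s j).natDegree ≤ K) ∧
          (∀ s j (u : ℝ), |(mu s j).eval u| ≤ (K + 1) * (|u| + 1) ^ K * (2 : ℝ) ^ (σ * X)) ∧
          Pb p (fun ω => ∃ j, (2 : ℝ) ^ (-(x₀ * X)) <
            |∑ i, ell (slam F W ω) i * gg ω i j - (mu (slam F W ω) j).eval (rt F W ω)|) ≤ ε ∧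
          CH p (fun ω => ell (slam F W ω)) Bs ≤ ε * X ∧
          CH p (fun ω => ell (slam F W ω))
            ((adV F c mv tg qt Xt q w W X mm γ gg H z).g K) ≤ ε * X ∧
          ∀ Y : ℕ, (Y : ℝ) ≤ x₀ * X → CH p (fun ω (v : Fin (K + 1) × Fin k) =>
              ⌊(2 : ℝ) ^ Y * (mu (slam F W ω) v.2).coeff v.1⌋)
            ((adV F c mv tg qt Xt q w W X mm γ gg H z).g K) ≤ ε * X := by
  classical
  have hk0 : (0 : ℝ) ≤ k := Nat.cast_nonneg k
  obtain ⟨δ, hδ⟩ : ∃ δ : ℝ, δ = (h / 3 - x₀) / 2 := ⟨_, rfl⟩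
  have hδ0 : 0 < δ := by rw [hδ]; linarith
  obtain ⟨x₁, hx₁⟩ : ∃ x₁ : ℝ, x₁ = x₀ + δ := ⟨_, rfl⟩
  obtain ⟨ι₀, π₀, hι₀, hπ₀, X1, hX1⟩ := vd_dir k K hK (x₀ := x₁) (CB := k + 1) hh1
    (by rw [hx₁]; linarith) (by rw [hx₁, hδ]; linarith) hσ hε (by positivity)
  obtain ⟨ι, hι⟩ : ∃ ι : ℝ, ι = ι₀ / 2 := ⟨_, rfl⟩
  have hιp : 0 < ι := by rw [hι]; linarith
  obtain ⟨X3, hX3⟩ := exists_nat_ge (2 / δ)
  refine ⟨ι, π₀, hιp, hπ₀, max X1 X3, ?_⟩
  intro m J F c mv tg qt Xt q w W X mm D γ B G₀ H gg ζ ζ' υ' χ₁ χ₂ ρ₁ ρ₂ σ' z zw Yc Cj Cx Rj Rx Bs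
    Nb p Nf Nn Nx Nu Nv Mf Mn U e P Ur ψ ε₀ j₀ hN1 hN2 hXt hBs hfew hrow hT hz hX hJ hψ hmm hEv
    hUr
  have hp := P.law
  have h0 := hp.nonneg
  have hXR : (0 : ℝ) ≤ X := Nat.cast_nonneg _
  have hXa : X1 ≤ X := (le_max_left _ _).trans hX
  have n3 : 2 ≤ δ * X := by
    have h1 : (X3 : ℝ) ≤ X := by exact_mod_cast (le_max_right _ _).trans hX
    have h2 := hX3.trans h1
    rw [div_le_iff₀ hδ0] at h2
    linarith
  have hιX : ι * X + ι * X = ι₀ * X := by rw [hι]; ring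
  have hιX0 : 0 ≤ ι * X := by positivity
  have hyp := P.hypm hN1 hN2
  have hLs := adV_L (c := c) (mv := mv) (tg := tg) (qt := qt) (Xt := Xt) (q := q) (w := w)
    (X := X) (mm := mm) (γ := γ) (gg := gg) (H := H) p hz K
  have hbbr := fun (ω : F.Ω) (u : Fin 2) (j : Fin k) => adV_bbr (c := c) (mv := mv) (tg := tg)
    (qt := qt) (Xt := Xt) (q := q) (w := w) (W := W) (X := X) (mm := mm) (γ := γ) (gg := gg)
    (H := H) (z := z) ω u j
  have hup : ∀ ω, (fun u => Mm F c tg w H (fun u => γ (tg u) + qt u + Xt u) ω u / 2 ^ X) =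
      Mu F c tg qt w γ H ω := by
    intro ω
    funext u
    show Mh F c (tg u) w H (γ (tg u) + qt u + Xt u) ω / 2 ^ X = _
    rw [hXt u, mh_up]
    rfl
  have hWn : ∀ ω, Wn X (Vm F c mv w H Nb)
      (Mm F c tg w H (fun u => γ (tg u) + qt u + Xt u)) ω =
      (Vm F c mv w H Nb ω, Mu F c tg qt w γ H ω) := fun ω => Prod.ext rfl (hup ω)
  have hrow' : ∀ G : F.Ω → Prop, π₀ ≤ Pe p G → CH (cond p G True)
      (Mm F c tg w H (fun u => γ (tg u) + qt u + Xt u))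
      (fun ω => (Wn X (Vm F c mv w H Nb)
        (Mm F c tg w H (fun u => γ (tg u) + qt u + Xt u)) ω,
          ((adV F c mv tg qt Xt q w W X mm γ gg H z).T ω,
          (adV F c mv tg qt Xt q w W X mm γ gg H z).g K ω))) ≤ Ur := by
    intro G hG
    refine le_trans (CH_mono_cond (cond_nonneg h0 G True) fun ω ν _ _ e => ?_) (hrow {ω | G ω} hG)
    obtain ⟨e1, e2⟩ := Prod.ext_iff.mp e
    obtain ⟨e3, e4⟩ := Prod.ext_iff.mp e2
    have e5 : Wn X (Vm F c mv w H Nb) (Mm F c tg w H (fun u => γ (tg u) + qt u + Xt u)) ω =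
      Wn X (Vm F c mv w H Nb) (Mm F c tg w H (fun u => γ (tg u) + qt u + Xt u)) ν := e1
    rw [hWn, hWn] at e5
    exact Prod.ext e5 (Prod.ext (Prod.ext_iff.mp e3).1 (Prod.ext_iff.mp e4).1)
  have hBs' : Det p (fun ω => (Wn X (Vm F c mv w H Nb)
        (Mm F c tg w H (fun u => γ (tg u) + qt u + Xt u)) ω,
          ((adV F c mv tg qt Xt q w W X mm γ gg H z).T ω,
          (adV F c mv tg qt Xt q w W X mm γ gg H z).g K ω))) Bs := by
    intro ω ν hω hν e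
    obtain ⟨e1, e2⟩ := Prod.ext_iff.mp e
    have e5 : Wn X (Vm F c mv w H Nb) (Mm F c tg w H (fun u => γ (tg u) + qt u + Xt u)) ω =
      Wn X (Vm F c mv w H Nb) (Mm F c tg w H (fun u => γ (tg u) + qt u + Xt u)) ν := e1
    rw [hWn, hWn] at e5
    exact hBs ω ν hω hν (Prod.ext e5 e2)
  have htime : X * Real.log 2 - ι₀ * X ≤
      CH p (fun ω => ⌊(2 : ℝ) ^ X * (adV F c mv tg qt Xt q w W X mm γ gg H z).th ω⌋)
        ((adV F c mv tg qt Xt q w W X mm γ gg H z).L K) := by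
    have h1 := hT.f X hJ
    have h2 : CH p (fun ω => ⌊(2 : ℝ) ^ X * F.tw W ω⌋) (slam F W) ≤
        CH p (fun ω => ⌊(2 : ℝ) ^ X * F.tw W ω⌋)
          ((adV F c mv tg qt Xt q w W X mm γ gg H z).L K) := CH_mono_cond h0 hLs
    have hth : (adV F c mv tg qt Xt q w W X mm γ gg H z).th = F.tw W := by
      funext ω
      exact (tw_rt F P.WJ ω).symm
    rw [hth]
    linarith
  have hU1 := P.mU
  have hB : (k : ℝ) * (U + 1) + 1 ≤ (k + 1) * 2 ^ mm := by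
    have h1 : (k : ℝ) * (U + 1) ≤ k * 2 ^ mm := mul_le_mul_of_nonneg_left hU1 hk0
    have h2 : (1 : ℝ) ≤ 2 ^ mm := one_le_pow₀ (by norm_num)
    linarith
  have he2 : Evn 2 k K U e ≤ ι₀ * X := by linarith
  have hyp2 : (adV F c mv tg qt Xt q w W X mm γ gg H z).Hyp K p Rj Rx
      (fun ω => (jetm F c mv w H Nn ω, fun u => pr2 F c w H (tg u) (Mn u) ω))
      (jetm F c mv w H Nx)
      (fun ω => (jetm F c mv w H Nf ω, fun u => pr2 F c w H (tg u) (Mf u) ω))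
      (jetm F c mv w H Nf) (Vm F c mv w H Nb)
      (Mm F c tg w H (fun u => γ (tg u) + qt u + Xt u))
      (k * (X * Real.log 2) + k * cV K) (ι₀ * X) (k * (U + 1) + 1) := hyp.mono he2
  obtain ⟨ell, mu, l1, l2, m1, m2, m3, m4, m5, m6⟩ := hX1 p
    (adV F c mv tg qt Xt q w W X mm γ gg H z) Rj Rx _ _ _ _ (Vm F c mv w H Nb) _ Bs _ (ι₀ * X)
    (k * (U + 1) + 1) Ur hXa hyp2 htime hBs' (hfew.trans (by linarith)) hrow' le_rfl
    (hmm.trans (by
      show ι * X ≤ ι₀ * X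
      linarith)) hB (by
      show Ur ≤ (2 - h) * X * Real.log 2 + ι₀ * X
      linarith)
  obtain ⟨f, hf1, hf2⟩ := lift_line hLs (fun l => (ell l, mu l))
    ((fun _ => 1, fun _ => 0) : (Fin 2 → ℝ) × (Fin k → Polynomial ℝ))
  have hfe : ∀ ω, 0 < p ω → (f (slam F W ω)).1 =
      ell ((adV F c mv tg qt Xt q w W X mm γ gg H z).L K ω) := fun ω hω => by
    rw [hf2 ω hω]
  have hfm : ∀ ω, 0 < p ω → (f (slam F W ω)).2 =
      mu ((adV F c mv tg qt Xt q w W X mm γ gg H z).L K ω) := fun ω hω => by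
    rw [hf2 ω hω]
  refine ⟨fun s => (f s).1, fun s => (f s).2, fun s i => ?_, fun s => ?_, fun s j => ?_,
    fun s j u => ?_, le_trans (Pb_le_Pb h0 ?_) m3, ?_, ?_, fun Y hY => ?_⟩
  · show |(f s).1 i| ≤ 1
    rcases hf1 s with h1 | ⟨a, h1⟩
    · rw [h1]
      simp
    · rw [h1]
      exact l1 a i
  · show ∃ i, |(f s).1 i| = 1
    rcases hf1 s with h1 | ⟨a, h1⟩
    · rw [h1]
      exact ⟨0, by simp⟩
    · rw [h1]
      exact l2 a
  · show ((f s).2 j).natDegree ≤ K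
    rcases hf1 s with h1 | ⟨a, h1⟩
    · rw [h1]
      simp
    · rw [h1]
      exact m1 a j
  · show |((f s).2 j).eval u| ≤ (K + 1) * (|u| + 1) ^ K * (2 : ℝ) ^ (σ * X)
    rcases hf1 s with h1 | ⟨a, h1⟩
    · rw [h1]
      simp only [Polynomial.eval_zero, abs_zero]
      positivity
    · rw [h1]
      exact m2 a j u
  · rintro ω hω ⟨j, hj⟩
    refine ⟨j, ?_⟩
    have hj' : (2 : ℝ) ^ (-(x₀ * X)) < |∑ i, (f (slam F W ω)).1 i * gg ω i j -
      ((f (slam F W ω)).2 j).eval (rt F W ω)| := hj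
    rw [hfe ω hω, hfm ω hω] at hj'
    obtain ⟨a, ha⟩ : ∃ a, a = (adV F c mv tg qt Xt q w W X mm γ gg H z).L K ω := ⟨_, rfl⟩
    rw [← ha] at hj'
    show (2 : ℝ) ^ (-(x₁ * X)) < |∑ i, ell ((adV F c mv tg qt Xt q w W X mm γ gg H z).L K ω) i *
      (adV F c mv tg qt Xt q w W X mm γ gg H z).bb ω i j -
      (mu ((adV F c mv tg qt Xt q w W X mm γ gg H z).L K ω) j).eval (rt F W ω)|
    rw [← ha]
    have e5 : (1 : ℝ) / 2 ^ X ≤ 2 ^ (-(x₁ * X)) := by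
      rw [one_div, ← Real.rpow_natCast, ← Real.rpow_neg two_pos.le]
      refine Real.rpow_le_rpow_of_exponent_le one_le_two ?_
      have h1 : x₁ ≤ 1 := by
        rw [hx₁, hδ]
        linarith
      have h2 : x₁ * X ≤ 1 * X := mul_le_mul_of_nonneg_right h1 hXR
      linarith
    have e7 : 4 * (2 : ℝ) ^ (-(x₁ * X)) ≤ 2 ^ (-(x₀ * X)) := by
      have h1 : 4 * (2 : ℝ) ^ (-(x₁ * X)) = 2 ^ (2 + -(x₁ * X)) := by
        rw [Real.rpow_add two_pos]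
        norm_num
      rw [h1]
      refine Real.rpow_le_rpow_of_exponent_le one_le_two ?_
      rw [hx₁]
      linarith
    have e8 : |∑ i, ell a i * gg ω i j -
        ∑ i, ell a i * (adV F c mv tg qt Xt q w W X mm γ gg H z).bb ω i j| ≤
        2 * (1 / 2 ^ X) := by
      rw [← Finset.sum_sub_distrib]
      refine (Finset.abs_sum_le_sum_abs _ _).trans ((Finset.sum_le_sum
        (g := fun _ => (1 : ℝ) / 2 ^ X) fun i _ => ?_).trans (le_of_eq ?_))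
      · rw [← mul_sub, abs_mul]
        calc _ ≤ 1 * (1 / 2 ^ X : ℝ) :=
              mul_le_mul (l1 a i) (hbbr ω i j) (abs_nonneg _) zero_le_one
          _ = _ := one_mul _
      · rw [Finset.sum_const, Finset.card_univ, Fintype.card_fin, nsmul_eq_mul]
        norm_num
    have e9 := abs_sub_le (∑ i, ell a i * gg ω i j)
      (∑ i, ell a i * (adV F c mv tg qt Xt q w W X mm γ gg H z).bb ω i j)
      ((mu a j).eval (rt F W ω))
    have e6 : 0 < (2 : ℝ) ^ (-(x₁ * X)) := Real.rpow_pos_of_pos two_pos _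
    linarith
  · refine le_trans (CH_mono_left h0 fun ω ν a b e => ?_) m4
    have e1 : ell ((adV F c mv tg qt Xt q w W X mm γ gg H z).L K ω) =
      ell ((adV F c mv tg qt Xt q w W X mm γ gg H z).L K ν) := (Prod.ext_iff.mp e).1
    show (f (slam F W ω)).1 = (f (slam F W ν)).1
    rw [hfe ω a, hfe ν b, e1]
  · refine le_trans (CH_mono_left h0 fun ω ν a b e => ?_) m5
    have e1 : ell ((adV F c mv tg qt Xt q w W X mm γ gg H z).L K ω) =
      ell ((adV F c mv tg qt Xt q w W X mm γ gg H z).L K ν) := (Prod.ext_iff.mp e).1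
    show (f (slam F W ω)).1 = (f (slam F W ν)).1
    rw [hfe ω a, hfe ν b, e1]
  · have hY1 : (Y : ℝ) ≤ x₁ * X := by
      refine hY.trans (mul_le_mul_of_nonneg_right ?_ hXR)
      rw [hx₁]
      linarith
    refine le_trans (CH_mono_left h0 fun ω ν a b e => ?_) (m6 Y hY1)
    have e1 := (Prod.ext_iff.mp e).1
    show (fun v : Fin (K + 1) × Fin k => ⌊(2 : ℝ) ^ Y * ((f (slam F W ω)).2 v.2).coeff v.1⌋) =
      fun v => ⌊(2 : ℝ) ^ Y * ((f (slam F W ν)).2 v.2).coeff v.1⌋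
    rw [hfm ω a, hfm ν b]
    exact e1

end Pool.LV64
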