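import Pool.Agent.H64.LV.Law

/-!
# Several places of the same precision, from the data of one place

`VD.ad u`: the data `AD` of the place `u`. `VD.of_ad`: `VD.Hyp` from `AD.Hyp` at every place and the
joint fields `ti`, `mj`.
-/

set_option autoImplicit false

namespace Pool.LV64

open Finset Real
open Pool.Agent.H49.Ent Pool.Agent.H32.Dense Pool.STK
open Pool.AVG71 (AD)
open Pool.KVA (MI)

/-- Finitely many variables. -/
theorem CH_pi {Ω α γ : Type} [Fintype Ω] {p : Ω → ℝ} (hp : ∀ ω, 0 ≤ p ω) (W : Ω → γ) {e : ℝ} :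
    ∀ (n : ℕ) (X : Ω → Fin n → α), (∀ i, CH p (fun ω => X ω i) W ≤ e) → CH p X W ≤ n * e := by
  intro n
  induction n with
  | zero =>
    intro X _
    rw [CH_eq_zero hp (fun ω ω' _ _ _ => funext fun i => Fin.elim0 i)]
    simp
  | succ n ih =>
    intro X hX
    have h1 := CH_subadd hp (fun ω => X ω 0) (fun ω (i : Fin n) => X ω i.succ) W
    have h2 := ih (fun ω i => X ω i.succ) (fun i => hX i.succ)
    have h3 := hX 0
    have h4 : CH p X W ≤ CH p (fun ω => (X ω 0, fun i : Fin n => X ω i.succ)) W := by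
      refine CH_mono_left hp fun ω ω' _ _ e => ?_
      have e1 := (Prod.ext_iff.mp e).1
      funext i
      refine Fin.cases ?_ (fun j => ?_) i
      · exact (Prod.ext_iff.mp e1).1
      · exact congrFun (Prod.ext_iff.mp e1).2 j
    push_cast
    linarith

namespace VD

variable {Ω β : Type} {c k : ℕ} (d : VD Ω β c k) {K : ℕ}

/-- The data of one place. -/
def ad (u : Fin c) : AD Ω β k := ⟨d.z, d.th, fun ω => d.P ω u, d.A, fun ω => d.bb ω u, d.X, d.m⟩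

variable {d}

theorem ad_nc (hX : ∀ u, d.Xp u = d.X) (u : Fin c) (ω : Ω) (a : Fin (K + 1)) :
    (d.ad u).nc K ω a = d.nc K ω u a := by
  unfold AD.nc nc
  rw [hX]
  rfl

theorem ad_nr (hX : ∀ u, d.Xp u = d.X) (u : Fin c) (ω : Ω) (a : Fin (K + 1)) :
    (d.ad u).nr K ω a = d.nr K ω u a := by
  unfold AD.nr nr
  rw [ad_nc hX, hX]
  rfl

theorem ad_nu (hX : ∀ u, d.Xp u = d.X) (u : Fin c) (ω : Ω) (a : Fin (K + 1)) :
    (d.ad u).nc K ω a / 2 ^ d.X = d.nu K ω u a := by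
  unfold nu
  rw [ad_nc hX, hX]

theorem ad_val (hX : ∀ u, d.Xp u = d.X) (u : Fin c) (ω : Ω) :
    (d.ad u).val K ω = d.val K ω u := by
  unfold AD.val val
  simp only [ad_nr hX]
  rfl

theorem ad_N (hX : ∀ u, d.Xp u = d.X) (u : Fin c) (ω : Ω) : (d.ad u).N K ω = d.N K ω u := by
  unfold AD.N N
  rw [ad_val hX]

theorem ad_Q (hX : ∀ u, d.Xp u = d.X) (u : Fin c) (ω : Ω) : (d.ad u).Q ω = d.Q ω u := by
  unfold AD.Q Q
  rw [hX, mul_sub]
  rfl

/-- Context, from the context of all places. -/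
theorem ad_g (hX : ∀ u, d.Xp u = d.X) (p : Ω → ℝ) (u : Fin c) :
    Det p (d.g K) ((d.ad u).g K) := by
  intro ω ω' _ _ e
  obtain ⟨e1, e2⟩ := Prod.ext_iff.mp e
  obtain ⟨e3, e4⟩ := Prod.ext_iff.mp e2
  refine Prod.ext e1 (Prod.ext e3 (funext fun a => ?_))
  show (d.ad u).nc K ω a / 2 ^ d.X = (d.ad u).nc K ω' a / 2 ^ d.X
  rw [ad_nu hX, ad_nu hX]
  exact congrFun (congrFun e4 u) a

theorem ad_w (hX : ∀ u, d.Xp u = d.X) (p : Ω → ℝ) (u : Fin c) :
    Det p (d.w K) ((d.ad u).w K) := by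
  intro ω ω' _ _ e
  obtain ⟨e1, e2⟩ := Prod.ext_iff.mp e
  obtain ⟨e3, e4⟩ := Prod.ext_iff.mp e2
  refine Prod.ext e1 (Prod.ext e3 (funext fun a => ?_))
  show (d.ad u).nc K ω a.succ / 2 ^ d.X = (d.ad u).nc K ω' a.succ / 2 ^ d.X
  rw [ad_nu hX, ad_nu hX]
  exact congrFun (congrFun e4 u) a

theorem ad_T (p : Ω → ℝ) (u : Fin c) : Det p d.T (d.ad u).T := by
  intro ω ω' _ _ e
  obtain ⟨e1, e2⟩ := Prod.ext_iff.mp e
  exact Prod.ext e1 (congrFun e2 u)

theorem ad_Tg (hX : ∀ u, d.Xp u = d.X) (p : Ω → ℝ) (u : Fin c) :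
    Det p (fun ω => (d.T ω, d.g K ω)) (fun ω => ((d.ad u).T ω, (d.ad u).g K ω)) := by
  intro ω ω' a b e
  obtain ⟨e1, e2⟩ := Prod.ext_iff.mp e
  exact Prod.ext (ad_T p u ω ω' a b e1) (ad_g hX p u ω ω' a b e2)

section

variable [Fintype Ω] {ρ₁ ρ₂ ν₁ ν₂ ν₃ σ₁ σ₂ σ₃ υ : Type} {p : Ω → ℝ} {Rj : Ω → ρ₁} {Rx : Ω → ρ₂}
  {n0 : Ω → ν₁} {nn : Fin c → Ω → ν₃} {nx : Ω → ν₂} {b0 : Ω → σ₁} {bn : Fin c → Ω → σ₃}
  {bx : Ω → σ₂} {V : Ω → υ} {M : Ω → Fin c → ℤ} {F e B e' π₀ Ur : ℝ} {h : ℕ}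

/-- **`VD.Hyp` from the data of every place.** -/
theorem of_ad (hc : 0 < c) (hX : ∀ u, d.Xp u = d.X) (he' : (c + 1) * e ≤ e')
    (hu : ∀ u, (d.ad u).Hyp K p Rj Rx (fun ω => (n0 ω, nn u ω)) nx (fun ω => (b0 ω, bn u ω)) bx V
      (fun ω => M ω u) F e B Ur π₀ h)
    (ti : MI p d.th (d.L K) (d.g K) ≤ e')
    (mj : MI p Rj (fun ω => (b0 ω, fun u => bn u ω))
      (fun ω => ((n0 ω, fun u => nn u ω), (d.th ω, d.z ω))) ≤ e') :
    d.Hyp K p Rj Rx (fun ω => (n0 ω, fun u => nn u ω)) nx (fun ω => (b0 ω, fun u => bn u ω)) bx V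
      M F e' B := by
  obtain ⟨u₀⟩ : Nonempty (Fin c) := ⟨⟨0, hc⟩⟩
  have H₀ := hu u₀
  have hp := H₀.law
  have h0 := hp.nonneg
  have he : 0 ≤ e := (CH_nonneg h0 _ _).trans H₀.bbj
  have hc0 : (0 : ℝ) ≤ c := Nat.cast_nonneg c
  have hc1 : (1 : ℝ) ≤ c := by exact_mod_cast hc
  have hce : 0 ≤ c * e := by positivity
  have e1' : e ≤ e' := le_trans (by nlinarith) he'
  have e2' : c * e ≤ e' := le_trans (by nlinarith) he'
  have e3' : e + c * e ≤ e' := le_trans (by nlinarith) he'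
  have pg : ∀ u, Det p (fun ω => (d.th ω, d.g K ω)) (fun ω => (d.th ω, (d.ad u).g K ω)) :=
    fun u ω ω' a b e => by
      obtain ⟨e1, e2⟩ := Prod.ext_iff.mp e
      exact Prod.ext e1 (ad_g hX p u ω ω' a b e2)
  have pw : ∀ u, Det p (fun ω => (d.th ω, d.w K ω)) (fun ω => (d.th ω, (d.ad u).w K ω)) :=
    fun u ω ω' a b e => by
      obtain ⟨e1, e2⟩ := Prod.ext_iff.mp e
      exact Prod.ext e1 (ad_w hX p u ω ω' a b e2)
  refine
    { law := hp
      th := H₀.th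
      dP := fun ω hω u => (hu u).dP ω hω
      dA := H₀.dA
      bm := fun ω hω u j => (hu u).bm ω hω j
      Xpm := fun u => (hX u).le
      ti := ti
      mj := mj
      fj := ?_
      Lj := ?_
      bbj := ?_
      mx := H₀.mx.trans e1'
      fx := ?_
      Lx := ?_
      bbx := ?_
      jt := ?_
      Nx := ?_
      vf := le_trans (by linarith) H₀.vf
      vb := ?_
      vy := ?_
      B0 := H₀.B0
      qv := ?_ }
  · -- fj
    refine le_trans (CH_subadd h0 n0 (fun ω u => nn u ω) _) ?_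
    have a1 : CH p n0 (fun ω => (d.th ω, d.g K ω)) ≤ e := by
      refine le_trans (CH_mono_left h0 (X' := fun ω => (n0 ω, nn u₀ ω)) fun ω ω' _ _ e =>
        (Prod.ext_iff.mp (Prod.ext_iff.mp e).1).1) (le_trans (CH_mono_cond h0 (pg u₀)) H₀.fj)
    have a2 : CH p (fun ω u => nn u ω) (fun ω => (d.th ω, d.g K ω)) ≤ c * e := by
      refine CH_pi h0 _ c _ fun u => ?_
      refine le_trans (CH_mono_left h0 (X' := fun ω => (n0 ω, nn u ω)) fun ω ω' _ _ e =>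
        (Prod.ext_iff.mp (Prod.ext_iff.mp e).1).2) (le_trans (CH_mono_cond h0 (pg u)) (hu u).fj)
    linarith
  · -- Lj
    obtain ⟨W, hW⟩ : ∃ W : Ω → _, W = fun ω => ((b0 ω, fun u => bn u ω),
        ((n0 ω, fun u => nn u ω), (d.th ω, d.z ω))) := ⟨_, rfl⟩
    have a1 : CH p (d.L K) W ≤ CH p (fun ω u => (d.ad u).L K ω) W := by
      refine CH_mono_left h0 fun ω ω' _ _ e => ?_
      have e1 : ∀ u, (d.ad u).L K ω = (d.ad u).L K ω' := fun u =>
        congrFun (Prod.ext_iff.mp e).1 u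
      obtain ⟨f1, f2⟩ := Prod.ext_iff.mp (e1 u₀)
      refine Prod.ext f1 (Prod.ext (Prod.ext_iff.mp f2).1 (funext fun u => funext fun a => ?_))
      have f3 : (d.ad u).nc K ω a = (d.ad u).nc K ω' a :=
        congrFun (Prod.ext_iff.mp (Prod.ext_iff.mp (e1 u)).2).2 a
      rwa [ad_nc hX, ad_nc hX] at f3
    have a2 : CH p (fun ω u => (d.ad u).L K ω) W ≤ c * e := by
      refine CH_pi h0 _ c _ fun u => le_trans (CH_mono_cond h0 fun ω ω' _ _ e => ?_) (hu u).Lj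
      rw [hW] at e
      obtain ⟨f1, f2⟩ := Prod.ext_iff.mp e
      obtain ⟨f3, f4⟩ := Prod.ext_iff.mp f2
      exact Prod.ext (Prod.ext (Prod.ext_iff.mp f1).1 (congrFun (Prod.ext_iff.mp f1).2 u))
        (Prod.ext (Prod.ext (Prod.ext_iff.mp f3).1 (congrFun (Prod.ext_iff.mp f3).2 u)) f4)
    rw [← hW]
    exact (a1.trans a2).trans e2'
  · -- bbj
    refine le_trans (CH_pi h0 _ c _ fun u => ?_) e2'
    refine le_trans (CH_mono_cond h0 fun ω ω' a b e => ?_) (hu u).bbj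
    obtain ⟨f1, f2⟩ := Prod.ext_iff.mp e
    exact Prod.ext f1 (pg u ω ω' a b f2)
  · -- fx
    exact le_trans (CH_mono_cond h0 (pw u₀)) (H₀.fx.trans e1')
  · -- Lx
    obtain ⟨W, hW⟩ : ∃ W : Ω → _, W = fun ω => (bx ω, (nx ω, (d.th ω, d.z ω))) := ⟨_, rfl⟩
    have a1 : CH p (d.l K) W ≤ CH p (fun ω u => (d.ad u).l K ω) W := by
      refine CH_mono_left h0 fun ω ω' _ _ e => ?_
      have e1 : ∀ u, (d.ad u).l K ω = (d.ad u).l K ω' := fun u =>
        congrFun (Prod.ext_iff.mp e).1 u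
      refine Prod.ext (Prod.ext_iff.mp (e1 u₀)).1 (funext fun u => funext fun a => ?_)
      have f3 : (d.ad u).nc K ω a.succ = (d.ad u).nc K ω' a.succ :=
        congrFun (Prod.ext_iff.mp (e1 u)).2 a
      rwa [ad_nc hX, ad_nc hX] at f3
    have a2 : CH p (fun ω u => (d.ad u).l K ω) W ≤ c * e := by
      rw [hW]
      exact CH_pi h0 _ c _ fun u => (hu u).Lx
    rw [← hW]
    exact (a1.trans a2).trans e2'
  · -- bbx
    refine le_trans (CH_pi h0 _ c _ fun u => ?_) e2'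
    refine le_trans (CH_mono_cond h0 fun ω ω' a b e => ?_) (hu u).bbx
    obtain ⟨f1, f2⟩ := Prod.ext_iff.mp e
    exact Prod.ext f1 (pw u ω ω' a b f2)
  · -- jt
    refine le_trans (CH_pi h0 _ c _ fun u => ?_) e2'
    refine le_trans (CH_mono_left h0 fun ω ω' a b e => ?_) (hu u).jt
    funext a
    have f1 : (d.ad u).nc K ω a / 2 ^ d.X = (d.ad u).nc K ω' a / 2 ^ d.X :=
      congrFun (Prod.ext_iff.mp e).1 a
    rwa [ad_nu hX, ad_nu hX] at f1
  · -- Nx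
    refine le_trans (CH_pi h0 _ c _ fun u => ?_) e2'
    refine le_trans (CH_mono_left h0 fun ω ω' a b e => ?_)
      (le_trans (CH_mono_cond h0 fun ω ω' a b e => ?_) (hu u).Nx)
    · have f1 : (d.ad u).N K ω = (d.ad u).N K ω' := (Prod.ext_iff.mp e).1
      rwa [ad_N hX, ad_N hX] at f1
    · obtain ⟨f1, f2⟩ := Prod.ext_iff.mp e
      exact Prod.ext f1 (ad_Tg hX p u ω ω' a b f2)
  · -- vb
    exact le_trans (CH_mono_cond h0 (ad_Tg hX p u₀)) (H₀.vb p hp fun _ h => h)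
  · -- vy
    refine le_trans (CH_mono_cond h0 fun ω ω' a b e => ?_) (H₀.vy.trans ?_)
    · obtain ⟨f1, f2⟩ := Prod.ext_iff.mp e
      exact Prod.ext f1 (pg u₀ ω ω' a b f2)
    · show F - k * d.X * Real.log 2 + e ≤ F - k * d.X * Real.log 2 + e'
      linarith
  · -- qv
    intro ω ω' hω hω' e1 e2 e3 u
    have f1 := (hu u).qv ω ω' hω hω' e1 (ad_T p u ω ω' hω hω' e2) (ad_g hX p u ω ω' hω hω' e3)
    rwa [ad_Q hX, ad_Q hX] at f1

end

end VD

end Pool.LV64
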