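import Pool.Agent.H64.LV.Clo
import Pool.Agent.H64.LV.OfAd

/-!
# The digits of the places as heights

`Zn`: the near digits of the places, in units of `2 ^ m`, at the samples of the support. `Hyp.Zn_rel`,
`Zn_b`, `Hyp.Zn_wd`, `Hyp.Zn_few`, `Zn_nf`: their properties. `plc`: polynomials with given
coefficients.
-/

set_option autoImplicit false

namespace Pool.LV64

open Finset Real
open Pool.Agent.H49.Ent Pool.Agent.H32.Dense Pool.STK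
open Pool.AVG71 (MI_eq MI_eq' CH_pair_int)
open Pool.KVA (MI)
open Pool.OWN68 (CH_chain2)
open Pool.BD64 (QHd pol)
open Pool.K2S (Pe)

/-- The mutual information of a function of a variable. -/
theorem MI_proc {Ω α α' γ δ : Type} [Fintype Ω] {p : Ω → ℝ} (h0 : ∀ ω, 0 ≤ p ω) {f : Ω → α}
    {f' : Ω → α'} (a : Ω → γ) (W : Ω → δ) (hf : Det p f' f) : MI p f a W ≤ MI p f' a W := by
  rw [MI_eq' h0, MI_eq' h0]
  have h1 : CH p a (fun ω => (f' ω, W ω)) ≤ CH p a (fun ω => (f ω, W ω)) :=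
    CH_mono_cond h0 fun ω ω' b b' e => by
      obtain ⟨e1, e2⟩ := Prod.ext_iff.mp e
      exact Prod.ext (hf ω ω' b b' e1) e2
  linarith

/-- The near digits of the places, in units of `2 ^ m`, at the samples of the support. -/
noncomputable def Zn {Ω : Type} {c : ℕ} (m X : ℕ) (p : Ω → ℝ) (ω₀ : Ω) (M : Ω → Fin c → ℤ)
    (ω : Ω) (i : Fin c) : ℤ :=
  (M (rr p ω₀ ω) i % 2 ^ X) / 2 ^ m

/-- Near digits of the base coordinates and upper digits of the places. -/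
def Wn {Ω υ : Type} {c : ℕ} (X : ℕ) (V : Ω → υ) (M : Ω → Fin c → ℤ) (ω : Ω) :
    υ × (Fin c → ℤ) :=
  (V ω, fun i => M ω i / 2 ^ X)

theorem Zn_b {Ω : Type} {c : ℕ} (m X : ℕ) (p : Ω → ℝ) (ω₀ : Ω) (M : Ω → Fin c → ℤ) (ω : Ω)
    (i : Fin c) : |(Zn m X p ω₀ M ω i : ℝ)| ≤ 2 ^ X := by
  have p1 : (0 : ℤ) < 2 ^ X := by positivity
  have p2 : (0 : ℤ) < 2 ^ m := by positivity
  have p3 : (1 : ℤ) ≤ 2 ^ m := p2
  have h1 := Int.emod_nonneg (M (rr p ω₀ ω) i) p1.ne'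
  have h2 := Int.emod_lt_of_pos (M (rr p ω₀ ω) i) p1
  have h3 : 0 ≤ Zn m X p ω₀ M ω i := Int.ediv_nonneg h1 p2.le
  have h4 : Zn m X p ω₀ M ω i < 2 ^ X :=
    Int.ediv_lt_of_lt_mul p2 (h2.trans_le (le_mul_of_one_le_right p1.le p3))
  have h3' : (0 : ℝ) ≤ Zn m X p ω₀ M ω i := by exact_mod_cast h3
  have h4' : (Zn m X p ω₀ M ω i : ℝ) < 2 ^ X := by exact_mod_cast h4
  rw [abs_of_nonneg h3']
  exact h4'.le

/-- **The row.** -/
theorem Zn_nf {Ω γ : Type} [Fintype Ω] {c : ℕ} {m X : ℕ} {q : Ω → ℝ} (h0 : ∀ ω, 0 ≤ q ω)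
    {p : Ω → ℝ} (hq : ∀ ω, 0 < q ω → 0 < p ω) {ω₀ : Ω} (M : Ω → Fin c → ℤ) (W : Ω → γ) :
    CH q (Zn m X p ω₀ M) W ≤ CH q M W := by
  refine CH_mono_left h0 fun ω ω' b b' e => ?_
  have e1 : M ω = M ω' := (Prod.ext_iff.mp e).1
  funext i
  show (M (rr p ω₀ ω) i % 2 ^ X) / 2 ^ m = (M (rr p ω₀ ω') i % 2 ^ X) / 2 ^ m
  rw [rr_eq (hq ω b), rr_eq (hq ω' b'), e1]

namespace VD

variable {Ω β : Type} {c k : ℕ} {d : VD Ω β c k} {K : ℕ}

section law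

variable [Fintype Ω] {ρ₁ ρ₂ ν₁ ν₂ σ₁ σ₂ υ : Type} {p : Ω → ℝ} {Rj : Ω → ρ₁} {Rx : Ω → ρ₂}
  {nj : Ω → ν₁} {nx : Ω → ν₂} {bj : Ω → σ₁} {bx : Ω → σ₂} {V : Ω → υ} {M : Ω → Fin c → ℤ}
  {F e B : ℝ}

/-- A larger error. -/
theorem Hyp.mono (H : d.Hyp K p Rj Rx nj nx bj bx V M F e B) {e' : ℝ} (h : e ≤ e') :
    d.Hyp K p Rj Rx nj nx bj bx V M F e' B where
  law := H.law
  th := H.th
  dP := H.dP
  dA := H.dA
  bm := H.bm
  Xpm := H.Xpm
  ti := H.ti.trans h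
  mj := H.mj.trans h
  fj := H.fj.trans h
  Lj := H.Lj.trans h
  bbj := H.bbj.trans h
  mx := H.mx.trans h
  fx := H.fx.trans h
  Lx := H.Lx.trans h
  bbx := H.bbx.trans h
  jt := H.jt.trans h
  Nx := H.Nx.trans h
  vf := le_trans (by linarith) H.vf
  vb := H.vb
  vy := H.vy.trans (by linarith)
  B0 := H.B0
  qv := H.qv

/-- The time and the context of the picture. -/
theorem pic_thb {ω₀ ω : Ω} (h : 0 < p ω) :
    ((d.pic K p ω₀).th ω, (d.pic K p ω₀).b ω) = (d.T ω, d.g K ω) := by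
  show (d.T (rr p ω₀ ω), d.g K (rr p ω₀ ω)) = _
  rw [rr_eq h]

/-- **Differences of digits and of heights** in the picture. -/
theorem Hyp.Zm_rel (H : d.Hyp K p Rj Rx nj nx bj bx V M F e B) {CB : ℝ} (hB : B ≤ CB * 2 ^ d.m)
    {ω₀ : Ω} {ω ω' : Ω} (hω : 0 < p ω) (hω' : 0 < p ω')
    (e1 : V ω = V ω') (e2 : (d.pic K p ω₀).th ω = (d.pic K p ω₀).th ω')
    (e3 : (d.pic K p ω₀).b ω = (d.pic K p ω₀).b ω') (i : Fin c) :
    |((M ω i / 2 ^ d.m : ℝ) - M ω' i / 2 ^ d.m) -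
      ((d.pic K p ω₀).hgt ω i - (d.pic K p ω₀).hgt ω' i)| ≤
      CB + 2 * ((K + 1) * (k + 1)) + 4 := by
  have e4 : d.T (rr p ω₀ ω) = d.T (rr p ω₀ ω') := e2
  have e5 : d.g K (rr p ω₀ ω) = d.g K (rr p ω₀ ω') := e3
  rw [rr_eq hω, rr_eq hω'] at e4 e5
  have h1 := H.dif hω hω' e1 e4 e5 i
  have hm : (1 : ℝ) ≤ 2 ^ d.m := one_le_pow₀ (by norm_num)
  have hm0 : (0 : ℝ) < 2 ^ d.m := by positivity
  have hK : (0 : ℝ) ≤ 2 * (((K : ℝ) + 1) * (k + 1)) := by positivity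
  have h2 : |(d.val K ω i / 2 ^ d.m - M ω i / 2 ^ d.m) -
      (d.val K ω' i / 2 ^ d.m - M ω' i / 2 ^ d.m)| ≤ CB + 2 * ((K + 1) * (k + 1)) := by
    rw [← sub_div, ← sub_div, ← sub_div, abs_div, abs_of_pos hm0, div_le_iff₀ hm0]
    refine h1.trans ?_
    have := le_mul_of_one_le_right hK hm
    linarith
  have g2 := abs_le.1 (hz_val (d := d) (K := K) ω i)
  have g3 := abs_le.1 (hz_val (d := d) (K := K) ω' i)
  have g4 := abs_le.1 h2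
  rw [pic_hgt, pic_hgt, rr_eq hω, rr_eq hω', abs_le]
  constructor <;> linarith [g2.1, g2.2, g3.1, g3.2, g4.1, g4.2]

/-- Near digits and heights in the picture. -/
theorem Hyp.pic_wd (H : d.Hyp K p Rj Rx nj nx bj bx V M F e B) (ω₀ : Ω) :
    MI p (d.pic K p ω₀).hgt V (fun ω => ((d.pic K p ω₀).th ω, (d.pic K p ω₀).b ω)) ≤
      Dv c k d.m e := by
  have h0 := H.law.nonneg
  have h1 := H.wd H.hzx
  have e0 : CH p (d.hz K) (fun ω => (d.T ω, d.g K ω)) -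
      CH p (d.hz K) (fun ω => (V ω, (d.T ω, d.g K ω))) =
      CH p V (fun ω => (d.T ω, d.g K ω)) - CH p V (fun ω => (d.hz K ω, (d.T ω, d.g K ω))) := by
    rw [← MI_eq h0, ← MI_eq' h0]
  have e1 : CH p (d.pic K p ω₀).hgt (fun ω => ((d.pic K p ω₀).th ω, (d.pic K p ω₀).b ω)) =
      CH p (d.hz K) (fun ω => (d.T ω, d.g K ω)) :=
    CH_rr (ω₀ := ω₀) h0 (d.hz K) (fun ω => (d.T ω, d.g K ω))
  have e2 : CH p (d.pic K p ω₀).hgt (fun ω => (V ω, ((d.pic K p ω₀).th ω,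
      (d.pic K p ω₀).b ω))) =
      CH p (d.hz K) (fun ω => (V ω, (d.T ω, d.g K ω))) := by
    refine CH_congr h0 (fun ω ω' a b e => ?_) (fun ω ω' a b e => ?_) (fun ω ω' a b e => ?_)
      (fun ω ω' a b e => ?_)
    · have e1 : d.hz K (rr p ω₀ ω) = d.hz K (rr p ω₀ ω') := (Prod.ext_iff.mp e).1
      rwa [rr_eq a, rr_eq b] at e1
    · have e1 : d.hz K ω = d.hz K ω' := (Prod.ext_iff.mp e).1
      show d.hz K (rr p ω₀ ω) = d.hz K (rr p ω₀ ω')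
      rwa [rr_eq a, rr_eq b]
    · obtain ⟨e3, e4⟩ := Prod.ext_iff.mp e
      have e5 : (d.T (rr p ω₀ ω), d.g K (rr p ω₀ ω)) = (d.T (rr p ω₀ ω'), d.g K (rr p ω₀ ω')) :=
        e4
      rw [rr_eq a, rr_eq b] at e5
      exact Prod.ext e3 e5
    · obtain ⟨e3, e4⟩ := Prod.ext_iff.mp e
      refine Prod.ext e3 ?_
      show (d.T (rr p ω₀ ω), d.g K (rr p ω₀ ω)) = (d.T (rr p ω₀ ω'), d.g K (rr p ω₀ ω'))
      rw [rr_eq a, rr_eq b]
      exact e4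
  rw [MI_eq h0]
  refine le_trans (le_of_eq (congrArg₂ (fun x y : ℝ => x - y) e1 e2)) ?_
  have he := H.e0
  have hkm : 0 ≤ k * d.m * Real.log 2 := by
    have := Real.log_pos (show (1 : ℝ) < 2 by norm_num)
    positivity
  unfold Dv
  linarith

/-- The numbers of the upper digits. -/
noncomputable def Eu (k K m : ℕ) (B : ℝ) : ℝ :=
  Real.log (2 * (2 * (K + 1 + k * 2 ^ m) + (B + 2 * ((K + 1) * (k + 1))) + 1) + 1)

/-- Bound of the values. -/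
theorem Hyp.val_b (H : d.Hyp K p Rj Rx nj nx bj bx V M F e B) {ω : Ω} (hω : 0 < p ω) (i : Fin c) :
    |d.val K ω i| ≤ (K + 1 + k * 2 ^ d.m) * 2 ^ d.X := by
  have hth := H.th ω hω
  have hpow : ∀ a : ℕ, 0 ≤ d.th ω ^ a ∧ d.th ω ^ a ≤ 1 := fun a =>
    ⟨pow_nonneg hth.1 _, pow_le_one₀ hth.1 hth.2.le⟩
  have h2 : |∑ a : Fin (K + 1), (d.nr K ω i a : ℝ) * d.th ω ^ (a : ℕ)| ≤ (K + 1) * 2 ^ d.X := by
    refine (Finset.abs_sum_le_sum_abs _ _).trans ?_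
    have h5 : ∀ a ∈ (univ : Finset (Fin (K + 1))),
        |(d.nr K ω i a : ℝ) * d.th ω ^ (a : ℕ)| ≤ 2 ^ d.X := by
      intro a _
      obtain ⟨g1, g2⟩ := nr_mem (d := d) (K := K) ω i a
      have g1' : (0 : ℝ) ≤ d.nr K ω i a := by exact_mod_cast g1
      have g2' : (d.nr K ω i a : ℝ) < 2 ^ d.Xp i := by exact_mod_cast g2
      have g3 : (2 : ℝ) ^ d.Xp i ≤ 2 ^ d.X := pow_le_pow_right₀ (by norm_num) (H.Xpm i)
      rw [abs_mul, abs_of_nonneg g1', abs_of_nonneg (hpow a).1]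
      calc (d.nr K ω i a : ℝ) * d.th ω ^ (a : ℕ) ≤ 2 ^ d.X * 1 :=
            mul_le_mul (g2'.le.trans g3) (hpow a).2 (hpow a).1 (by positivity)
        _ = 2 ^ d.X := mul_one _
    refine (Finset.sum_le_sum h5).trans (le_of_eq ?_)
    rw [Finset.sum_const, Finset.card_univ, Fintype.card_fin, nsmul_eq_mul]
    push_cast
    ring
  have h3 : |∑ j, d.bb ω i j * (d.Y K ω j : ℝ)| ≤ k * (2 ^ d.m * 2 ^ d.X) := by
    refine (Finset.abs_sum_le_sum_abs _ _).trans ?_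
    have h5 : ∀ j ∈ (univ : Finset (Fin k)),
        |d.bb ω i j * (d.Y K ω j : ℝ)| ≤ 2 ^ d.m * 2 ^ d.X := by
      intro j _
      obtain ⟨g1, g2⟩ := Y_mem (d := d) (K := K) ω j
      have g1' : (0 : ℝ) ≤ d.Y K ω j := by exact_mod_cast g1
      have g2' : (d.Y K ω j : ℝ) < 2 ^ d.X := by exact_mod_cast g2
      rw [abs_mul, abs_of_nonneg g1']
      exact mul_le_mul (H.bm ω hω i j) g2'.le g1' (by positivity)
    refine (Finset.sum_le_sum h5).trans (le_of_eq ?_)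
    rw [Finset.sum_const, Finset.card_univ, Fintype.card_fin, nsmul_eq_mul]
  unfold val
  refine (abs_sub _ _).trans ((add_le_add h2 h3).trans (le_of_eq ?_))
  ring

/-- **The upper digits** are few given near digits, time and context. -/
theorem Hyp.up (H : d.Hyp K p Rj Rx nj nx bj bx V M F e B) {q : Ω → ℝ} (hq : IsLaw q)
    (hqp : ∀ ω, 0 < q ω → 0 < p ω) (i : Fin c) :
    CH q (fun ω => M ω i / 2 ^ d.X) (fun ω => (V ω, (d.T ω, d.g K ω))) ≤ Eu k K d.m B := by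
  have hB := H.B0
  have hX : (1 : ℝ) ≤ 2 ^ d.X := one_le_pow₀ (by norm_num)
  have hX0 : (0 : ℝ) < 2 ^ d.X := by positivity
  have hb : 0 ≤ B + 2 * (((K : ℝ) + 1) * (k + 1)) := by positivity
  refine CH_pair_int hq _ _ (by positivity) fun ω ω' hω hω' e => ?_
  obtain ⟨e1, e2⟩ := Prod.ext_iff.mp e
  obtain ⟨e3, e4⟩ := Prod.ext_iff.mp e2
  have h1 := abs_le.1 (H.dif (hqp ω hω) (hqp ω' hω') e1 e3 e4 i)
  have v1 := abs_le.1 (H.val_b (hqp ω hω) i)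
  have v2 := abs_le.1 (H.val_b (hqp ω' hω') i)
  have h2 : |(M ω i : ℝ) / 2 ^ d.X - M ω' i / 2 ^ d.X| ≤
      2 * (K + 1 + k * 2 ^ d.m) + (B + 2 * ((K + 1) * (k + 1))) := by
    rw [← sub_div, abs_div, abs_of_pos hX0, div_le_iff₀ hX0]
    have h3 : B + 2 * (((K : ℝ) + 1) * (k + 1)) ≤ (B + 2 * ((K + 1) * (k + 1))) * 2 ^ d.X :=
      le_mul_of_one_le_right hb hX
    rw [abs_le]
    constructor <;> linarith [h1.1, h1.2, v1.1, v1.2, v2.1, v2.2]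
  have g5 := VD.ediv_near (M ω i) d.X
  have g6 := VD.ediv_near (M ω' i) d.X
  have g4 := abs_le.1 h2
  rw [abs_le]
  constructor <;> linarith [g4.1, g4.2, g5.1, g5.2, g6.1, g6.2]

/-- The row given the upper digits. -/
theorem Hyp.row_up (H : d.Hyp K p Rj Rx nj nx bj bx V M F e B) {q : Ω → ℝ} (hq : IsLaw q)
    (hqp : ∀ ω, 0 < q ω → 0 < p ω) (i0 : Fin c) {α : Type} {A : Ω → α} {U : ℝ}
    (hU : CH q (fun ω => M ω i0) (fun ω => ((M ω i0 / 2 ^ d.X, A ω),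
      (V ω, (d.T ω, d.g K ω)))) ≤ U) :
    CH q (fun ω => M ω i0) (fun ω => (A ω, (V ω, (d.T ω, d.g K ω)))) ≤
      U + Eu k K d.m B := by
  have h0 := hq.nonneg
  have h1 := CH_le_add h0 (fun ω => M ω i0) (fun ω => M ω i0 / 2 ^ d.X)
    (fun ω => (A ω, (V ω, (d.T ω, d.g K ω))))
  have h2 : CH q (fun ω => M ω i0 / 2 ^ d.X) (fun ω => (A ω, (V ω, (d.T ω, d.g K ω)))) ≤
      CH q (fun ω => M ω i0 / 2 ^ d.X) (fun ω => (V ω, (d.T ω, d.g K ω))) :=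
    CH_mono_cond h0 fun ω ω' _ _ e => (Prod.ext_iff.mp e).2
  have h3 : CH q (fun ω => M ω i0) (fun ω => (M ω i0 / 2 ^ d.X,
      (A ω, (V ω, (d.T ω, d.g K ω))))) ≤ CH q (fun ω => M ω i0) (fun ω =>
        ((M ω i0 / 2 ^ d.X, A ω), (V ω, (d.T ω, d.g K ω)))) :=
    CH_mono_cond h0 fun ω ω' _ _ e => by
      obtain ⟨e1, e2⟩ := Prod.ext_iff.mp e
      obtain ⟨e3, e4⟩ := Prod.ext_iff.mp e2
      exact Prod.ext (Prod.ext e1 e3) e4
  have h4 := H.up hq hqp i0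
  linarith

/-- The number of the upper digits. -/
theorem Eu_le {m : ℕ} {CB : ℝ} (hCB : 0 ≤ CB) (hB0 : 0 ≤ B) (hB : B ≤ CB * 2 ^ m) :
    Eu k K m B ≤ Real.log (2 * (2 * (K + 1 + k) + (CB + 2 * ((K + 1) * (k + 1))) + 1) + 1) +
      m * Real.log 2 := by
  have hm : (1 : ℝ) ≤ 2 ^ m := one_le_pow₀ (by norm_num)
  have hm0 : (0 : ℝ) < 2 ^ m := by positivity
  obtain ⟨K1, hK1⟩ : ∃ K1 : ℝ, K1 = 2 * (((K : ℝ) + 1) * (k + 1)) := ⟨_, rfl⟩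
  have g0 : 0 ≤ K1 := by rw [hK1]; positivity
  have hk : (0 : ℝ) ≤ k := Nat.cast_nonneg k
  have hK : (0 : ℝ) ≤ K := Nat.cast_nonneg K
  unfold Eu
  rw [← hK1]
  have h1 : 2 * (2 * (K + 1 + k * (2 : ℝ) ^ m) + (B + K1) + 1) + 1 ≤
      (2 * (2 * (K + 1 + k) + (CB + K1) + 1) + 1) * 2 ^ m := by
    have g6 : (K : ℝ) + 1 ≤ (K + 1) * 2 ^ m := le_mul_of_one_le_right (by positivity) hm
    have g7 : K1 ≤ K1 * 2 ^ m := le_mul_of_one_le_right g0 hm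
    linarith
  have h2 : 0 < 2 * (2 * (K + 1 + k * (2 : ℝ) ^ m) + (B + K1) + 1) + 1 := by positivity
  have h3 : 0 < 2 * (2 * ((K : ℝ) + 1 + k) + (CB + K1) + 1) + 1 := by positivity
  refine (Real.log_le_log h2 h1).trans (le_of_eq ?_)
  rw [Real.log_mul h3.ne' hm0.ne', Real.log_pow]

/-- The upper digits of all places. -/
theorem Hyp.upc (H : d.Hyp K p Rj Rx nj nx bj bx V M F e B) {α : Type} (W : Ω → α)
    (hW : Det p W (fun ω => (V ω, (d.T ω, d.g K ω)))) :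
    CH p (fun ω (i : Fin c) => M ω i / 2 ^ d.X) W ≤ c * Eu k K d.m B :=
  CH_pi H.law.nonneg _ c _ fun i => (CH_mono_cond H.law.nonneg hW).trans
    (H.up H.law (fun _ h => h) i)

/-- **Differences of near digits and of heights.** -/
theorem Hyp.Zn_rel (H : d.Hyp K p Rj Rx nj nx bj bx V M F e B) {CB : ℝ}
    (hB : B ≤ CB * 2 ^ d.m) {ω₀ : Ω} {ω ω' : Ω} (hω : 0 < p ω) (hω' : 0 < p ω')
    (e1 : Wn d.X V M ω = Wn d.X V M ω')
    (e2 : (d.pic K p ω₀).th ω = (d.pic K p ω₀).th ω')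
    (e3 : (d.pic K p ω₀).b ω = (d.pic K p ω₀).b ω') (i : Fin c) :
    |((Zn d.m d.X p ω₀ M ω i : ℝ) - Zn d.m d.X p ω₀ M ω' i) -
      ((d.pic K p ω₀).hgt ω i - (d.pic K p ω₀).hgt ω' i)| ≤
      CB + 2 * ((K + 1) * (k + 1)) + 5 := by
  obtain ⟨e4, e5⟩ := Prod.ext_iff.mp e1
  have e6 : M ω i / 2 ^ d.X = M ω' i / 2 ^ d.X := congrFun e5 i
  have h1 := abs_le.1 (H.Zm_rel hB hω hω' e4 e2 e3 i)
  have hm0 : (0 : ℝ) < 2 ^ d.m := by positivity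
  have s1 := Int.mul_ediv_add_emod (M ω i) (2 ^ d.X)
  have s2 := Int.mul_ediv_add_emod (M ω' i) (2 ^ d.X)
  rw [e6] at s1
  have s3 : (M ω i : ℝ) - M ω' i =
      ((M ω i % 2 ^ d.X : ℤ) : ℝ) - ((M ω' i % 2 ^ d.X : ℤ) : ℝ) := by
    have : M ω i - M ω' i = M ω i % 2 ^ d.X - M ω' i % 2 ^ d.X := by linarith
    exact_mod_cast this
  have s4 : (M ω i / 2 ^ d.m : ℝ) - M ω' i / 2 ^ d.m =
      ((M ω i % 2 ^ d.X : ℤ) : ℝ) / 2 ^ d.m - ((M ω' i % 2 ^ d.X : ℤ) : ℝ) / 2 ^ d.m := by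
    rw [← sub_div, ← sub_div, s3]
  rw [s4] at h1
  have g5 := VD.ediv_near (M ω i % 2 ^ d.X) d.m
  have g6 := VD.ediv_near (M ω' i % 2 ^ d.X) d.m
  have e7 : (Zn d.m d.X p ω₀ M ω i : ℝ) = ((M ω i % 2 ^ d.X / 2 ^ d.m : ℤ) : ℝ) := by
    unfold Zn
    rw [rr_eq hω]
  have e8 : (Zn d.m d.X p ω₀ M ω' i : ℝ) = ((M ω' i % 2 ^ d.X / 2 ^ d.m : ℤ) : ℝ) := by
    unfold Zn
    rw [rr_eq hω']
  rw [e7, e8, abs_le]
  constructor <;> linarith [h1.1, h1.2, g5.1, g5.2, g6.1, g6.2]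

/-- **Near digits and heights** in the picture. -/
theorem Hyp.Zn_wd (H : d.Hyp K p Rj Rx nj nx bj bx V M F e B) (ω₀ : Ω) :
    MI p (d.pic K p ω₀).hgt (Wn d.X V M)
      (fun ω => ((d.pic K p ω₀).th ω, (d.pic K p ω₀).b ω)) ≤
      Dv c k d.m e + c * Eu k K d.m B := by
  have h0 := H.law.nonneg
  obtain ⟨T', hT'⟩ : ∃ T' : Ω → _, T' = fun ω => ((d.pic K p ω₀).th ω, (d.pic K p ω₀).b ω) :=
    ⟨_, rfl⟩
  have h1 : MI p (d.pic K p ω₀).hgt V T' ≤ Dv c k d.m e := by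
    rw [hT']
    exact H.pic_wd ω₀
  suffices hs : MI p (d.pic K p ω₀).hgt (Wn d.X V M) T' ≤ Dv c k d.m e + c * Eu k K d.m B by
    rw [hT'] at hs
    exact hs
  have h2 : CH p (fun ω (i : Fin c) => M ω i / 2 ^ d.X) (fun ω => (V ω, T' ω)) ≤
      c * Eu k K d.m B := by
    refine H.upc _ fun ω ω' a b e => ?_
    obtain ⟨e1, e2⟩ := Prod.ext_iff.mp e
    rw [hT'] at e2
    have e3 : ((d.pic K p ω₀).th ω, (d.pic K p ω₀).b ω) =
      ((d.pic K p ω₀).th ω', (d.pic K p ω₀).b ω') := e2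
    rw [pic_thb a, pic_thb b] at e3
    exact Prod.ext e1 e3
  rw [MI_eq' h0] at h1 ⊢
  have a1 := CH_chain2 h0 V (fun ω (i : Fin c) => M ω i / 2 ^ d.X) T'
  have a2 := CH_mono_left h0 (X' := Wn d.X V M) (X := V)
    (W := fun ω => ((d.pic K p ω₀).hgt ω, T' ω)) (fun ω ω' _ _ e => by
      exact (Prod.ext_iff.mp (Prod.ext_iff.mp e).1).1)
  have a3 : CH p (Wn d.X V M) T' = CH p V T' +
      CH p (fun ω (i : Fin c) => M ω i / 2 ^ d.X) (fun ω => (V ω, T' ω)) := a1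
  linarith

/-- **Few.** -/
theorem Hyp.Zn_few (H : d.Hyp K p Rj Rx nj nx bj bx V M F e B) (ω₀ : Ω) {σ : Type} (Bs : Ω → σ)
    {e₁ : ℝ} (hfew : MI p M (fun ω => (V ω, (d.T ω, d.g K ω))) Bs ≤ e₁) :
    MI p (Zn d.m d.X p ω₀ M) (fun ω => (Wn d.X V M ω,
      ((d.pic K p ω₀).th ω, (d.pic K p ω₀).b ω))) Bs ≤ e₁ + c * Eu k K d.m B := by
  have h0 := H.law.nonneg
  obtain ⟨Mu, hMu⟩ : ∃ Mu : Ω → Fin c → ℤ, Mu = fun ω i => M ω i / 2 ^ d.X := ⟨_, rfl⟩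
  obtain ⟨a, ha⟩ : ∃ a : Ω → _, a = fun ω => (V ω, (d.T ω, d.g K ω)) := ⟨_, rfl⟩
  have h2 : CH p Mu (fun ω => (a ω, Bs ω)) ≤ c * Eu k K d.m B := by
    rw [hMu]
    refine H.upc _ fun ω ω' _ _ e => ?_
    have e1 := (Prod.ext_iff.mp e).1
    rw [ha] at e1
    exact e1
  have s1 : MI p (Zn d.m d.X p ω₀ M) (fun ω => (Wn d.X V M ω,
      ((d.pic K p ω₀).th ω, (d.pic K p ω₀).b ω))) Bs ≤
      MI p M (fun ω => (Wn d.X V M ω,
      ((d.pic K p ω₀).th ω, (d.pic K p ω₀).b ω))) Bs :=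
    MI_proc h0 _ Bs fun ω ω' b b' e => by
      funext i
      show (M (rr p ω₀ ω) i % 2 ^ d.X) / 2 ^ d.m = (M (rr p ω₀ ω') i % 2 ^ d.X) / 2 ^ d.m
      rw [rr_eq b, rr_eq b', e]
  rw [MI_eq h0, MI_eq h0 M] at s1
  rw [MI_eq h0] at hfew
  rw [MI_eq h0]
  have hfew' : CH p M Bs - CH p M (fun ω => (a ω, Bs ω)) ≤ e₁ := by
    rw [ha]
    exact hfew
  have s2 : CH p M (fun ω => (a ω, Bs ω)) ≤ CH p M (fun ω => ((Wn d.X V M ω,
      ((d.pic K p ω₀).th ω, (d.pic K p ω₀).b ω)), Bs ω)) + c * Eu k K d.m B := by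
    have b1 := CH_le_add h0 M Mu (fun ω => (a ω, Bs ω))
    have b2 : CH p M (fun ω => (Mu ω, (a ω, Bs ω))) ≤ CH p M (fun ω => ((Wn d.X V M ω,
      ((d.pic K p ω₀).th ω, (d.pic K p ω₀).b ω)), Bs ω)) :=
      CH_mono_cond h0 fun ω ω' b b' e => by
        obtain ⟨e1, e2⟩ := Prod.ext_iff.mp e
        obtain ⟨e3, e4⟩ := Prod.ext_iff.mp e2
        rw [ha] at e3
        obtain ⟨e5, e6⟩ := Prod.ext_iff.mp e3
        rw [hMu] at e1
        refine Prod.ext (Prod.ext (Prod.ext e5 e1) ?_) e4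
        show ((d.pic K p ω₀).th ω, (d.pic K p ω₀).b ω) =
          ((d.pic K p ω₀).th ω', (d.pic K p ω₀).b ω')
        rw [pic_thb b, pic_thb b']
        exact e6
    linarith
  linarith

end law

end VD

/-! ### Polynomials with given coefficients -/

/-- The polynomial with given coefficients. -/
noncomputable def plc {K : ℕ} (a : Fin (K + 1) → ℝ) : Polynomial ℝ :=
  ∑ i : Fin (K + 1), Polynomial.C (a i) * Polynomial.X ^ (i : ℕ)

theorem plc_deg {K : ℕ} (a : Fin (K + 1) → ℝ) : (plc a).natDegree ≤ K := by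
  refine Polynomial.natDegree_sum_le_of_forall_le _ _ fun i _ => ?_
  exact (Polynomial.natDegree_C_mul_X_pow_le _ _).trans (Nat.lt_succ_iff.1 i.2)

theorem plc_eval {K : ℕ} (a : Fin (K + 1) → ℝ) (u : ℝ) :
    (plc a).eval u = ∑ i : Fin (K + 1), a i * u ^ (i : ℕ) := by
  unfold plc
  rw [Polynomial.eval_finsetSum]
  refine Finset.sum_congr rfl fun i _ => ?_
  rw [Polynomial.eval_mul, Polynomial.eval_C, Polynomial.eval_pow, Polynomial.eval_X]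

theorem plc_coeff {K : ℕ} (a : Fin (K + 1) → ℝ) (i : Fin (K + 1)) :
    (plc a).coeff (i : ℕ) = a i := by
  unfold plc
  rw [Polynomial.finsetSum_coeff, Finset.sum_eq_single i]
  · rw [Polynomial.coeff_C_mul, Polynomial.coeff_X_pow, if_pos rfl, mul_one]
  · intro j _ hj
    rw [Polynomial.coeff_C_mul, Polynomial.coeff_X_pow, if_neg, mul_zero]
    exact fun h => hj (Fin.ext h.symm)
  · intro h
    exact absurd (Finset.mem_univ i) h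

theorem plc_bd {K : ℕ} {a : Fin (K + 1) → ℝ} {A : ℝ} (hA : ∀ i, |a i| ≤ A) (u : ℝ) :
    |(plc a).eval u| ≤ (K + 1) * (|u| + 1) ^ K * A := by
  have hA0 : 0 ≤ A := (abs_nonneg _).trans (hA 0)
  rw [plc_eval]
  refine (Finset.abs_sum_le_sum_abs _ _).trans ?_
  have h1 : ∀ i ∈ (univ : Finset (Fin (K + 1))), |a i * u ^ (i : ℕ)| ≤ (|u| + 1) ^ K * A := by
    intro i _
    rw [abs_mul, abs_pow, mul_comm]
    have g1 : |u| ^ (i : ℕ) ≤ (|u| + 1) ^ K := by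
      have g2 : |u| ^ (i : ℕ) ≤ (|u| + 1) ^ (i : ℕ) :=
        pow_le_pow_left₀ (abs_nonneg u) (by linarith) _
      exact g2.trans (pow_le_pow_right₀ (by linarith [abs_nonneg u]) (Nat.lt_succ_iff.1 i.2))
    exact mul_le_mul g1 (hA i) (abs_nonneg _) (by positivity)
  refine (Finset.sum_le_sum h1).trans (le_of_eq ?_)
  rw [Finset.sum_const, Finset.card_univ, Fintype.card_fin, nsmul_eq_mul]
  push_cast
  ring

/-- The value at the rounded time. -/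
theorem plc_near {K X : ℕ} {a : Fin (K + 1) → ℝ} {A : ℝ} (hA : ∀ i, |a i| ≤ A) {θ : ℝ}
    (h0 : 0 ≤ θ) (h1 : θ < 1) :
    |∑ i : Fin (K + 1), a i * ((⌊(2 : ℝ) ^ X * θ⌋ : ℝ) / 2 ^ X) ^ (i : ℕ) - (plc a).eval θ| ≤
      (K + 1) * K * (A / 2 ^ X) := by
  have hA0 : 0 ≤ A := (abs_nonneg _).trans (hA 0)
  have hX : (0 : ℝ) < 2 ^ X := by positivity
  have hK0 : (0 : ℝ) ≤ K := Nat.cast_nonneg K
  obtain ⟨t, ht⟩ : ∃ t : ℝ, t = (⌊(2 : ℝ) ^ X * θ⌋ : ℝ) / 2 ^ X := ⟨_, rfl⟩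
  have hs0' : 0 ≤ t := by
    rw [ht]
    exact div_nonneg (by exact_mod_cast Int.floor_nonneg.2 (mul_nonneg hX.le h0)) hX.le
  have hs1' : t ≤ θ := by
    rw [ht, div_le_iff₀ hX, mul_comm]
    exact Int.floor_le _
  have hs2' : θ - t ≤ 1 / 2 ^ X := by
    have g1 := Int.lt_floor_add_one ((2 : ℝ) ^ X * θ)
    have g2 : θ < t + 1 / 2 ^ X := by
      rw [ht, ← add_div, lt_div_iff₀ hX, mul_comm]
      exact g1
    linarith
  rw [← ht, plc_eval, ← Finset.sum_sub_distrib]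
  refine (Finset.abs_sum_le_sum_abs _ _).trans ?_
  have g1 : ∀ i ∈ (univ : Finset (Fin (K + 1))),
      |a i * t ^ (i : ℕ) - a i * θ ^ (i : ℕ)| ≤ K * (A / 2 ^ X) := by
    intro i _
    rw [← mul_sub, abs_mul]
    have g2 := VD.pow_near hs0' (hs1'.trans h1.le) h0 h1.le (i : ℕ)
    have g3 : |t - θ| ≤ 1 / 2 ^ X := by
      rw [abs_sub_comm, abs_of_nonneg (by linarith)]
      exact hs2'
    have g4 : ((i : ℕ) : ℝ) ≤ K := by exact_mod_cast Nat.lt_succ_iff.1 i.2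
    calc |a i| * |t ^ (i : ℕ) - θ ^ (i : ℕ)|
        ≤ A * (K * (1 / 2 ^ X)) := by
          refine mul_le_mul (hA i) (g2.trans ?_) (abs_nonneg _) hA0
          exact mul_le_mul g4 g3 (abs_nonneg _) hK0
      _ = K * (A / 2 ^ X) := by ring
  refine (Finset.sum_le_sum g1).trans (le_of_eq ?_)
  rw [Finset.sum_const, Finset.card_univ, Fintype.card_fin, nsmul_eq_mul]
  push_cast
  ring

end Pool.LV64
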