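import Pool.Agent.H64.LV.Ev

/-!
# Closed gradients of one place with side places, on one event: the conclusion
-/

set_option autoImplicit false

namespace Pool.LV64

open Finset Real MvPolynomial
open Pool.Agent.H49.Ent Pool.Agent.H32.Dense Pool.STK Pool.KA Pool.KSAT Pool.K2S Pool.PB Pool.S6C
open Pool.GEN Pool.CHT Pool.CHX Pool.ISO Pool.LA91 Pool.AVG71 Pool.AVG5 Pool.D2F2 Pool.AVG57
open Pool.PB.Trl (rt rt_mem t_rt)
open Pool.D2R (hgt)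
open Pool.KVA (MI)
open Pool.KAF (rs Pr)
open Pool.FS21 (oth)
open Pool.BFL (Pb)

variable {m J : ℕ}

/-- The numbers of the inputs. -/
noncomputable def Evn (C k K : ℕ) (U e : ℝ) : ℝ := (C + 1) * (4 * e + cE0 k K U) + k * cV K

section

variable {F : Fam m J} {c : ℕ → Fin m} {k C : ℕ} {mv : Fin k → ℕ} {tg qt Xt : Fin C → ℕ}
  {q w W X mm D K : ℕ} {γ : ℕ → ℕ} {B : F.Ω → Prop}
  {G₀ : PtT F → ℕ → MvPolynomial (Option (Fin m)) ℝ}
  {H : LnT F → ℕ → MvPolynomial (Option (Fin m)) ℝ} {gg : F.Ω → Fin C → Fin k → ℝ}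
  {ζ ζ' υ' χ₁ χ₂ ρ₁ ρ₂ : Type} {z : F.Ω → ζ} {zw : F.Ω → ζ'} {Yc : F.Ω → υ'}
  {Cj : F.Ω → χ₁} {Cx : F.Ω → χ₂} {Rj : F.Ω → ρ₁} {Rx : F.Ω → ρ₂} {Nb : Fin k → ℝ}
  {p : F.Ω → ℝ} {Nf Nn Nx Nu Nv : Fin k → ℕ → ℝ} {Mf Mn : Fin C → ℕ → ℝ} {U e : ℝ}

/-- **`VD.Hyp` for the digits of the own heights.** -/
theorem PrV.hypm (P : PrV F c mv tg qt Xt q w W X mm D K γ B G₀ H gg z zw Yc Cj Cx Rj Rx
      (Vm F c mv w H Nb) p Nf Nn Nx Nu Nv Mf Mn U (k * (X * Real.log 2)) e)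
    (h1 : ∀ j, ((γ (mv j) + q + X : ℕ) : ℝ) ≤ Nb j)
    (h2 : ∀ j, Nb j ≤ (γ (mv j) + q + (X + mm) : ℕ)) :
    (adV F c mv tg qt Xt q w W X mm γ gg H z).Hyp K p Rj Rx
      (fun ω => (jetm F c mv w H Nn ω, fun u => pr2 F c w H (tg u) (Mn u) ω))
      (jetm F c mv w H Nx)
      (fun ω => (jetm F c mv w H Nf ω, fun u => pr2 F c w H (tg u) (Mf u) ω))
      (jetm F c mv w H Nf) (Vm F c mv w H Nb)
      (Mm F c tg w H (fun u => γ (tg u) + qt u + Xt u))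
      (k * (X * Real.log 2) + k * cV K) (Evn C k K U e) (k * (U + 1) + 1) := by
  have hp := P.law
  have h0 := hp.nonneg
  have hwW := P.wW
  have hW := P.WJ
  have hU := P.grd.U0
  have hcV := cV_nonneg K
  have hk0 : (0 : ℝ) ≤ k := Nat.cast_nonneg k
  have hbm := fun (ω : F.Ω) (hω : 0 < p ω) (u : Fin C) (j : Fin k) => adV_bm (c := c) (mv := mv)
    (tg := tg) (qt := qt) (Xt := Xt) (q := q) (w := w) (W := W) (X := X) (mm := mm) (γ := γ)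
    (H := H) (z := z) P.grd.bm (P.sup ω hω) u j
  refine P.hyp (Bq := k * (U + 1) + 1) (eV := k * cV K) (by positivity) (by positivity) ?_ ?_
    (fun ω ν hω _ hV hTT _ u => qv_m (by linarith) hwW hW h1 (hbm ω hω) hV hTT u)
  · have s1 := CH_le_add h0 (Vm F c mv w H Nb)
      ((adV F c mv tg qt Xt q w W X mm γ gg H z).Y K)
      (fun ω => ((adV F c mv tg qt Xt q w W X mm γ gg H z).T ω,
        (adV F c mv tg qt Xt q w W X mm γ gg H z).g K ω))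
    have s2 := VD.CH_Y hp (adV F c mv tg qt Xt q w W X mm γ gg H z) K
      (fun ω => ((adV F c mv tg qt Xt q w W X mm γ gg H z).T ω,
        (adV F c mv tg qt Xt q w W X mm γ gg H z).g K ω))
    have s3 := vm_h (c := c) (mv := mv) (tg := tg) (qt := qt) (Xt := Xt) (γ := γ) (gg := gg)
      (z := z) hp P.deg P.DK hwW hW h2
      (fun ω => ((adV F c mv tg qt Xt q w W X mm γ gg H z).Y K ω,
        ((adV F c mv tg qt Xt q w W X mm γ gg H z).T ω,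
          (adV F c mv tg qt Xt q w W X mm γ gg H z).g K ω)))
      (fun ω ν _ _ e => by
        obtain ⟨e1, e2⟩ := Prod.ext_iff.mp e
        obtain ⟨e3, e4⟩ := Prod.ext_iff.mp e2
        exact ⟨(Prod.ext_iff.mp e3).1, e1, e4⟩)
    have s4 : ((adV F c mv tg qt Xt q w W X mm γ gg H z).X : ℝ) = X := rfl
    rw [s4] at s2
    linarith
  · have s3 := vm_h (c := c) (mv := mv) (tg := tg) (qt := qt) (Xt := Xt) (γ := γ) (gg := gg)
      (z := z) hp P.deg P.DK hwW hW h2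
      (fun ω => ((adV F c mv tg qt Xt q w W X mm γ gg H z).Y K ω,
        (rt F W ω, (adV F c mv tg qt Xt q w W X mm γ gg H z).g K ω)))
      (fun ω ν _ _ e => by
        obtain ⟨e1, e2⟩ := Prod.ext_iff.mp e
        obtain ⟨e3, e4⟩ := Prod.ext_iff.mp e2
        exact ⟨e3, e1, e4⟩)
    linarith

end

/-- The upper digits of the own height. -/
theorem mh_up {F : Fam m J} {c : ℕ → Fin m} {i w N X : ℕ}
    {H : LnT F → ℕ → MvPolynomial (Option (Fin m)) ℝ} (ω : F.Ω) :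
    Mh F c i w H (N + X) ω / 2 ^ X = Mh F c i w H N ω := by
  unfold Mh
  obtain ⟨x, hx⟩ : ∃ x, x = ojet F (c i) 0 (H (slam F w ω) i) ω := ⟨_, rfl⟩
  rw [← hx]
  have h1 := Int.floor_div_natCast ((2 : ℝ) ^ (N + X) * x) (2 ^ X)
  have e1 : (2 : ℝ) ^ (N + X) * x / ((2 ^ X : ℕ) : ℝ) = 2 ^ N * x := by
    rw [pow_add]
    push_cast
    field_simp
  rw [e1] at h1
  push_cast at h1
  exact h1.symm

/-- A function of the code of the line is a function of the line and the window. -/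
theorem lift_line {F : Fam m J} {W : ℕ} {p : F.Ω → ℝ} {α δ : Type} {L : F.Ω → α}
    (hL : Det p (slam F W) L) (mu : α → δ) (d₀ : δ) :
    ∃ f : LnT F → δ, (∀ s, f s = d₀ ∨ ∃ a, f s = mu a) ∧ ∀ ω, 0 < p ω →
      f (slam F W ω) = mu (L ω) := by
  classical
  refine ⟨fun s => if hs : ∃ ω, 0 < p ω ∧ slam F W ω = s then mu (L hs.choose) else d₀,
    fun s => ?_, fun ω hω => ?_⟩
  · dsimp only
    split_ifs with hs
    · exact Or.inr ⟨_, rfl⟩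
    · exact Or.inl rfl
  · have hs : ∃ ω', 0 < p ω' ∧ slam F W ω' = slam F W ω := ⟨ω, hω, rfl⟩
    dsimp only
    rw [dif_pos hs, hL _ ω hs.choose_spec.1 hω hs.choose_spec.2]

/-- **Closed gradients of one place with side places**, on one event. -/
theorem pv_clo (C k K : ℕ) (hK : 1 ≤ K) {h x₀ σ ε : ℝ} (hh : 0 < h) (hh1 : h ≤ 1) (hx : 0 < x₀)
    (hxh : x₀ < h) (hσ : 0 < σ) (hε : 0 < ε) :
    ∃ ι π₀ : ℝ, 0 < ι ∧ 0 < π₀ ∧ ∃ X₀ : ℕ,
      ∀ {m J : ℕ} {F : Fam m J} {c : ℕ → Fin m} {mv : Fin k → ℕ} {tg qt Xt : Fin C → ℕ}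
        {q w W X mm D : ℕ} {γ : ℕ → ℕ} {B : F.Ω → Prop}
        {G₀ : PtT F → ℕ → MvPolynomial (Option (Fin m)) ℝ}
        {H : LnT F → ℕ → MvPolynomial (Option (Fin m)) ℝ} {gg : F.Ω → Fin C → Fin k → ℝ}
        {ζ ζ' υ' χ₁ χ₂ ρ₁ ρ₂ : Type} {z : F.Ω → ζ} {zw : F.Ω → ζ'} {Yc : F.Ω → υ'}
        {Cj : F.Ω → χ₁} {Cx : F.Ω → χ₂} {Rj : F.Ω → ρ₁} {Rx : F.Ω → ρ₂} {Nb : Fin k → ℝ}
        {p : F.Ω → ℝ} {Nf Nn Nx Nu Nv : Fin k → ℕ → ℝ} {Mf Mn : Fin C → ℕ → ℝ} {U e : ℝ}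
        (_ : PrV F c mv tg qt Xt q w W X mm D K γ B G₀ H gg z zw Yc Cj Cx Rj Rx
          (Vm F c mv w H Nb) p Nf Nn Nx Nu Nv Mf Mn U (k * (X * Real.log 2)) e) (i0 : Fin C)
        {Ur ψ ε₀ : ℝ} {j₀ : ℕ}, (∀ j, ((γ (mv j) + q + X : ℕ) : ℝ) ≤ Nb j) →
        (∀ j, Nb j ≤ (γ (mv j) + q + (X + mm) : ℕ)) →
        Xt i0 = X → (∀ ω, 0 < p ω → ∀ u, u ≠ i0 → ∀ j, gg ω u j = 0) →
        (∀ E : Set F.Ω, π₀ ≤ Pr p E → CH (rs p E)
          (Mh F c (tg i0) w H (γ (tg i0) + qt i0 + X))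
          (fun ω => ((Mh F c (tg i0) w H (γ (tg i0) + qt i0) ω,
            oth i0 (Mm F c tg w H (fun u => γ (tg u) + qt u + Xt u) ω)),
            (Vm F c mv w H Nb ω, (rt F W ω, z ω)))) ≤ Ur) →
        TimW F p W j₀ ε₀ ψ → Det p (slam F W) z → X₀ ≤ X → W + X ≤ J → ψ * J ≤ ι * X →
        (mm : ℝ) ≤ ι * X → Evn C k K U e ≤ ι * X →
        Ur ≤ (1 - h) * X * Real.log 2 + ι * X →
        ∃ mu : LnT F → Fin k → Polynomial ℝ, (∀ s j, (mu s j).natDegree ≤ K) ∧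
          (∀ s j (u : ℝ), |(mu s j).eval u| ≤ (K + 1) * (|u| + 1) ^ K * (2 : ℝ) ^ (σ * X)) ∧
          Pb p (fun ω => ∃ j, (2 : ℝ) ^ (-(x₀ * X)) <
            |gg ω i0 j - (mu (slam F W ω) j).eval (rt F W ω)|) ≤ ε := by
  classical
  obtain ⟨x₁, hx₁⟩ : ∃ x₁ : ℝ, x₁ = (x₀ + h) / 2 := ⟨_, rfl⟩
  obtain ⟨ι₀, π₀, hι₀, hπ₀, X1, hX1⟩ := vd_clo C k K hK hh hh1 (x₀ := x₁)
    (by rw [hx₁]; linarith) (by rw [hx₁]; linarith) hσ hε
  obtain ⟨ι, hι⟩ : ∃ ι : ℝ, ι = ι₀ / 4 := ⟨_, rfl⟩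
  have hιp : 0 < ι := by rw [hι]; linarith
  have hι2 : ι ≤ ι₀ / 2 := by rw [hι]; linarith
  obtain ⟨ι₁, hι₁⟩ : ∃ ι₁ : ℝ, ι₁ = ι₀ / 4 := ⟨_, rfl⟩
  have hι1 : ι ≤ ι₁ := by rw [hι, hι₁]
  have hι1' : ι₁ ≤ ι₀ / 4 := by rw [hι₁]
  have hι1p : 0 < ι₁ := by rw [hι₁]; linarith
  obtain ⟨Kc, hKc⟩ : ∃ Kc : ℝ, Kc = 2 * (2 * (K + 1 + k) + (k + 1 + 2 * (((K : ℝ) + 1) *
    (k + 1))) + 1) + 1 := ⟨_, rfl⟩
  obtain ⟨X4, hX4⟩ := exists_nat_ge (Real.log Kc / (ι₀ / 4))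
  obtain ⟨X2, hX2⟩ := exists_nat_ge ((Real.log (k + 1) / Real.log 2) / (ι₀ / 2))
  obtain ⟨X3, hX3⟩ := exists_nat_ge (1 / (x₁ - x₀))
  have hl2 : 0 < Real.log 2 := Real.log_pos (by norm_num)
  have hl2' : Real.log 2 ≤ 1 := by
    have := Real.log_two_lt_d9
    linarith
  have hk0 : (0 : ℝ) ≤ k := Nat.cast_nonneg k
  have hxx : 0 < x₁ - x₀ := by rw [hx₁]; linarith
  refine ⟨ι, π₀, hιp, hπ₀, max X1 (max X2 (max X3 X4)), ?_⟩
  intro m J F c mv tg qt Xt q w W X mm D γ B G₀ H gg ζ ζ' υ' χ₁ χ₂ ρ₁ ρ₂ z zw Yc Cj Cx Rj Rx Nb p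
    Nf Nn Nx Nu Nv Mf Mn U e P i0 Ur ψ ε₀ j₀ hN1 hN2 hXt hside hrow hT hz hX hJ hψ hmm hEv hUr
  have hp := P.law
  have h0 := hp.nonneg
  have hXR : (0 : ℝ) ≤ X := Nat.cast_nonneg _
  have hXa : X1 ≤ X := (le_max_left _ _).trans hX
  have n2 : Real.log (k + 1) / Real.log 2 ≤ ι₀ / 2 * X := by
    have h1 : (X2 : ℝ) ≤ X := by
      exact_mod_cast (le_max_left _ _).trans ((le_max_right _ _).trans hX)
    have h2 := hX2.trans h1
    rw [div_le_iff₀ (by linarith)] at h2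
    linarith
  have n3 : 1 ≤ (x₁ - x₀) * X := by
    have h1 : (X3 : ℝ) ≤ X := by
      exact_mod_cast (le_max_left _ _).trans ((le_max_right _ _).trans
        ((le_max_right _ _).trans hX))
    have h2 := hX3.trans h1
    rw [div_le_iff₀ hxx] at h2
    linarith
  have n4 : Real.log Kc ≤ ι₀ / 4 * X := by
    have h1 : (X4 : ℝ) ≤ X := by
      exact_mod_cast (le_max_right _ _).trans ((le_max_right _ _).trans
        ((le_max_right _ _).trans hX))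
    have h2 := hX4.trans h1
    rw [div_le_iff₀ (by linarith)] at h2
    linarith
  have hιX : ι * X ≤ ι₀ / 2 * X := mul_le_mul_of_nonneg_right hι2 hXR
  have hι₀X : 0 ≤ ι₀ / 2 * X := by positivity
  have hyp := P.hypm hN1 hN2
  have hLs := adV_L (c := c) (mv := mv) (tg := tg) (qt := qt) (Xt := Xt) (q := q) (w := w)
    (X := X) (mm := mm) (γ := γ) (gg := gg) (H := H) p hz K
  have hbbr := fun (ω : F.Ω) (u : Fin C) (j : Fin k) => adV_bbr (c := c) (mv := mv) (tg := tg)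
    (qt := qt) (Xt := Xt) (q := q) (w := w) (W := W) (X := X) (mm := mm) (γ := γ) (gg := gg)
    (H := H) (z := z) ω u j
  have hside' : ∀ ω, 0 < p ω → ∀ u, u ≠ i0 → ∀ j,
      (adV F c mv tg qt Xt q w W X mm γ gg H z).bb ω u j = 0 := by
    intro ω hω u hu j
    show ((⌊(2 : ℝ) ^ X * gg ω u j⌋ : ℤ) : ℝ) / 2 ^ X = 0
    rw [hside ω hω u hu j, mul_zero, Int.floor_zero, Int.cast_zero, zero_div]
  have hU1 := P.mU
  have hU0 := P.grd.U0
  have hmX : (mm : ℝ) ≤ ι₀ / 2 * X := hmm.trans hιX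
  have hXt' : (adV F c mv tg qt Xt q w W X mm γ gg H z).X = X := rfl
  have hm' : (adV F c mv tg qt Xt q w W X mm γ gg H z).m = mm := rfl
  have hEu : VD.Eu k K mm (k * (U + 1) + 1) ≤ ι₀ / 2 * X := by
    obtain ⟨K1, hK1⟩ : ∃ K1 : ℝ, K1 = 2 * (((K : ℝ) + 1) * (k + 1)) := ⟨_, rfl⟩
    have g0 : 0 ≤ K1 := by rw [hK1]; positivity
    have gK : (0 : ℝ) ≤ K := Nat.cast_nonneg K
    have g1 : (1 : ℝ) ≤ 2 ^ (ι₁ * X) := Real.one_le_rpow one_le_two (by positivity)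
    have g2 : (2 : ℝ) ^ mm ≤ 2 ^ (ι₁ * X) := by
      rw [← Real.rpow_natCast]
      exact Real.rpow_le_rpow_of_exponent_le one_le_two
        (hmm.trans (mul_le_mul_of_nonneg_right hι1 hXR))
    have g3 : (k : ℝ) * (U + 1) ≤ k * 2 ^ (ι₁ * X) :=
      mul_le_mul_of_nonneg_left (hU1.trans g2) hk0
    have g4 : (k : ℝ) * 2 ^ mm ≤ k * 2 ^ (ι₁ * X) := mul_le_mul_of_nonneg_left g2 hk0
    have hKc1 : Kc = 2 * (2 * (K + 1 + k) + (k + 1 + K1) + 1) + 1 := by rw [hKc, hK1]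
    have hKc0 : 0 < Kc := by rw [hKc1]; positivity
    unfold VD.Eu
    rw [← hK1]
    have g5 : 2 * (2 * (K + 1 + k * (2 : ℝ) ^ mm) + (k * (U + 1) + 1 + K1) + 1) + 1 ≤
        Kc * 2 ^ (ι₁ * X) := by
      rw [hKc1]
      have g6 : (K : ℝ) + 1 ≤ (K + 1) * 2 ^ (ι₁ * X) :=
        le_mul_of_one_le_right (by positivity) g1
      have g7 : K1 ≤ K1 * 2 ^ (ι₁ * X) := le_mul_of_one_le_right g0 g1
      nlinarith
    have g8 : 0 < 2 * (2 * (K + 1 + k * (2 : ℝ) ^ mm) + (k * (U + 1) + 1 + K1) + 1) + 1 := by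
      positivity
    refine (Real.log_le_log g8 g5).trans ?_
    rw [Real.log_mul hKc0.ne' (by positivity), Real.log_rpow two_pos]
    have g9 : ι₁ * X * Real.log 2 ≤ ι₁ * X :=
      mul_le_of_le_one_right (by positivity) hl2'
    have g10 : ι₁ * X ≤ ι₀ / 4 * X := mul_le_mul_of_nonneg_right hι1' hXR
    linarith
  have hrow' : ∀ G : F.Ω → Prop, π₀ ≤ Pe p G → CH (cond p G True)
      (fun ω => Mm F c tg w H (fun u => γ (tg u) + qt u + Xt u) ω i0)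
      (fun ω => (oth i0 (Mm F c tg w H (fun u => γ (tg u) + qt u + Xt u) ω),
        (Vm F c mv w H Nb ω, ((adV F c mv tg qt Xt q w W X mm γ gg H z).T ω,
          (adV F c mv tg qt Xt q w W X mm γ gg H z).g K ω)))) ≤ Ur + ι₀ / 2 * X := by
    intro G hG
    have hG0 : 0 < Pe p G := hπ₀.trans_le hG
    have hql : IsLaw (cond p G True) := ⟨cond_nonneg h0 G True, sum_cond p G hG0.ne'⟩
    have hqp : ∀ ω, 0 < cond p G True ω → 0 < p ω := fun ω hω =>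
      ((cond_pos_iff h0 G True ω).mp hω).1
    have e1 : (fun ω => Mm F c tg w H (fun u => γ (tg u) + qt u + Xt u) ω i0) =
        Mh F c (tg i0) w H (γ (tg i0) + qt i0 + X) := by
      funext ω
      show Mh F c (tg i0) w H (γ (tg i0) + qt i0 + Xt i0) ω = _
      rw [hXt]
    have e2 : ∀ ω, Mm F c tg w H (fun u => γ (tg u) + qt u + Xt u) ω i0 / 2 ^ X =
        Mh F c (tg i0) w H (γ (tg i0) + qt i0) ω := fun ω => by
      rw [congrFun e1 ω, mh_up]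
    have h1 := hyp.row_up hql hqp i0
      (A := fun ω => oth i0 (Mm F c tg w H (fun u => γ (tg u) + qt u + Xt u) ω)) (U := Ur) (by
        rw [e1]
        refine le_trans (CH_mono_cond (cond_nonneg h0 G True) fun ω ν _ _ e => ?_)
          (hrow {ω | G ω} hG)
        obtain ⟨e3, e4⟩ := Prod.ext_iff.mp e
        obtain ⟨e5, e6⟩ := Prod.ext_iff.mp e3
        obtain ⟨e7, e8⟩ := Prod.ext_iff.mp e4
        obtain ⟨e9, e10⟩ := Prod.ext_iff.mp e8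
        refine Prod.ext (Prod.ext ?_ e6) (Prod.ext e7 (Prod.ext (Prod.ext_iff.mp e9).1
          (Prod.ext_iff.mp e10).1))
        show Mh F c (tg i0) w H (γ (tg i0) + qt i0) ω = Mh F c (tg i0) w H (γ (tg i0) + qt i0) ν
        rw [← e2 ω, ← e2 ν]
        exact e5)
    rw [hm'] at h1
    linarith
  have htime : X * Real.log 2 - ι₀ * X ≤
      CH p (fun ω => ⌊(2 : ℝ) ^ X * (adV F c mv tg qt Xt q w W X mm γ gg H z).th ω⌋)
        ((adV F c mv tg qt Xt q w W X mm γ gg H z).L K) := by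
    have h1 := hT.f X hJ
    have h2 : CH p (fun ω => ⌊(2 : ℝ) ^ X * F.tw W ω⌋) (slam F W) ≤
        CH p (fun ω => ⌊(2 : ℝ) ^ X * F.tw W ω⌋)
          ((adV F c mv tg qt Xt q w W X mm γ gg H z).L K) := CH_mono_cond h0 hLs
    have hth : (adV F c mv tg qt Xt q w W X mm γ gg H z).th = F.tw W := by
      funext ω
      exact (tw_rt F P.WJ ω).symm
    rw [hth]
    linarith
  have hB : (k : ℝ) * (U + 1) + 1 ≤ (2 : ℝ) ^ (ι₀ * X) := by
    have h1 : (2 : ℝ) ^ mm ≤ 2 ^ (ι₀ / 2 * X) := by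
      rw [← Real.rpow_natCast]
      exact Real.rpow_le_rpow_of_exponent_le one_le_two (hmm.trans hιX)
    have h2 : (k : ℝ) + 1 ≤ 2 ^ (ι₀ / 2 * X) := by
      rw [div_le_iff₀ hl2] at n2
      have e1 : (0 : ℝ) < k + 1 := by positivity
      rw [← Real.exp_log e1, Real.rpow_def_of_pos two_pos]
      exact Real.exp_le_exp.2 (by linarith)
    have h3 : (1 : ℝ) ≤ 2 ^ (ι₀ / 2 * X) := Real.one_le_rpow one_le_two hι₀X
    calc (k : ℝ) * (U + 1) + 1 ≤ k * 2 ^ (ι₀ / 2 * X) + 2 ^ (ι₀ / 2 * X) :=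
          add_le_add (mul_le_mul_of_nonneg_left (hU1.trans h1) hk0) h3
      _ = (k + 1) * 2 ^ (ι₀ / 2 * X) := by ring
      _ ≤ 2 ^ (ι₀ / 2 * X) * 2 ^ (ι₀ / 2 * X) :=
          mul_le_mul_of_nonneg_right h2 (by positivity)
      _ = 2 ^ (ι₀ * X) := by
          rw [← Real.rpow_add two_pos]
          congr 1
          ring
  -- the hypotheses with the error `ι₀ X`
  have he2 : Evn C k K U e ≤ ι₀ * X := by linarith
  have hyp2 : (adV F c mv tg qt Xt q w W X mm γ gg H z).Hyp K p Rj Rx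
      (fun ω => (jetm F c mv w H Nn ω, fun u => pr2 F c w H (tg u) (Mn u) ω))
      (jetm F c mv w H Nx)
      (fun ω => (jetm F c mv w H Nf ω, fun u => pr2 F c w H (tg u) (Mf u) ω))
      (jetm F c mv w H Nf) (Vm F c mv w H Nb)
      (Mm F c tg w H (fun u => γ (tg u) + qt u + Xt u))
      (k * (X * Real.log 2) + k * cV K) (ι₀ * X) (k * (U + 1) + 1) := hyp.mono he2
  obtain ⟨mu, m1, m2, m3⟩ := hX1 p (adV F c mv tg qt Xt q w W X mm γ gg H z) Rj Rx _ _ _ _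
    (Vm F c mv w H Nb) _ _ (ι₀ * X) (k * (U + 1) + 1) (Ur + ι₀ / 2 * X) i0 hXa hyp2 hside' htime
    hrow' le_rfl
    (hmm.trans (by
      show ι * X ≤ ι₀ * X
      linarith)) hB (by
      show Ur + ι₀ / 2 * X ≤ (1 - h) * X * Real.log 2 + ι₀ * X
      linarith)
  obtain ⟨f, hf1, hf2⟩ := lift_line hLs mu (fun _ => 0)
  refine ⟨f, fun s j => ?_, fun s j u => ?_, le_trans (Pb_le_Pb h0 ?_) m3⟩
  · rcases hf1 s with h1 | ⟨a, h1⟩
    · rw [h1]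
      simp
    · rw [h1]
      exact m1 a j
  · rcases hf1 s with h1 | ⟨a, h1⟩
    · rw [h1]
      simp only [Polynomial.eval_zero, abs_zero]
      positivity
    · rw [h1]
      exact m2 a j u
  · rintro ω hω ⟨j, hj⟩
    refine ⟨j, ?_⟩
    rw [hf2 ω hω] at hj
    have e1 := hbbr ω i0 j
    have e5 : (1 : ℝ) / 2 ^ X ≤ 2 ^ (-(x₁ * X)) := by
      rw [one_div, ← Real.rpow_natCast, ← Real.rpow_neg two_pos.le]
      refine Real.rpow_le_rpow_of_exponent_le one_le_two ?_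
      have h1 : x₁ ≤ 1 := by rw [hx₁]; linarith
      have h2 : x₁ * X ≤ 1 * X := mul_le_mul_of_nonneg_right h1 hXR
      linarith
    have e7 : 2 * (2 : ℝ) ^ (-(x₁ * X)) ≤ 2 ^ (-(x₀ * X)) := by
      have h1 : 2 * (2 : ℝ) ^ (-(x₁ * X)) = 2 ^ (1 + -(x₁ * X)) := by
        rw [Real.rpow_add two_pos, Real.rpow_one]
      rw [h1]
      refine Real.rpow_le_rpow_of_exponent_le one_le_two ?_
      linarith
    have e8 := abs_sub_le (gg ω i0 j)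
      ((adV F c mv tg qt Xt q w W X mm γ gg H z).bb ω i0 j)
      ((mu ((adV F c mv tg qt Xt q w W X mm γ gg H z).L K ω) j).eval (rt F W ω))
    have e9 : (2 : ℝ) ^ (-(x₁ * X)) <
        |(adV F c mv tg qt Xt q w W X mm γ gg H z).bb ω i0 j -
          (mu ((adV F c mv tg qt Xt q w W X mm γ gg H z).L K ω) j).eval (rt F W ω)| := by
      linarith
    exact e9

end Pool.LV64
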