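import Pool.Agent.H64.LV.Cls
import Pool.Agent.H64.LV.Drh
import Pool.Agent.H57.AVG.Av1

/-!
# Closed gradients of one place with side places, on one event

`Vm`: digits of the own heights of the moved places, `Mm`: digits of the own heights of the places.
`pv_clo`: from the inputs `PrV`, one row of the target given the digits of the side places and the
time: the gradient of the target in the directions of the moved places is closed.
-/

set_option autoImplicit false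

namespace Pool.LV64

open Finset Real MvPolynomial
open Pool.Agent.H49.Ent Pool.Agent.H32.Dense Pool.STK Pool.KA Pool.KSAT Pool.K2S Pool.PB Pool.S6C
open Pool.GEN Pool.CHT Pool.CHX Pool.ISO Pool.LA91 Pool.AVG71 Pool.AVG5 Pool.D2F2 Pool.AVG57
open Pool.PB.Trl (rt rt_mem t_rt)
open Pool.D2R (hgt)
open Pool.KVA (MI)
open Pool.FS21 (oth)
open Pool.BFL (Pb)

variable {m J : ℕ}

/-- The digits of the own heights of the moved places. -/
noncomputable def Vm (F : Fam m J) (c : ℕ → Fin m) {k : ℕ} (mv : Fin k → ℕ) (w : ℕ)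
    (H : LnT F → ℕ → MvPolynomial (Option (Fin m)) ℝ) (Nb : Fin k → ℝ) (ω : F.Ω) (j : Fin k) : ℤ :=
  ⌊(2 : ℝ) ^ Nb j * ojet F (c (mv j)) 0 (H (slam F w ω) (mv j)) ω⌋

/-- The digits of the own heights of the places. -/
noncomputable def Mm (F : Fam m J) (c : ℕ → Fin m) {C : ℕ} (tg : Fin C → ℕ) (w : ℕ)
    (H : LnT F → ℕ → MvPolynomial (Option (Fin m)) ℝ) (n : Fin C → ℕ) (ω : F.Ω) (u : Fin C) : ℤ :=
  Mh F c (tg u) w H (n u) ω

namespace VD

variable {Ω β : Type} {C k K : ℕ} {d : VD Ω β C k}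

theorem ac_of {ω ω' : Ω} (hY : d.Y K ω = d.Y K ω') (hg : d.g K ω = d.g K ω') :
    d.ac K ω = d.ac K ω' := by
  obtain ⟨_, g2⟩ := Prod.ext_iff.mp hg
  obtain ⟨g3, _⟩ := Prod.ext_iff.mp g2
  obtain ⟨g5, g6⟩ := Prod.ext_iff.mp g3
  obtain ⟨g7, g8⟩ := Prod.ext_iff.mp g6
  funext j a
  refine Fin.cases ?_ (fun b => ?_) a
  · have e1 : d.ac K ω j 0 / 2 ^ (d.X + d.m) = d.ac K ω' j 0 / 2 ^ (d.X + d.m) := congrFun g7 j
    have e2 : d.ac K ω j 0 % 2 ^ d.m = d.ac K ω' j 0 % 2 ^ d.m := congrFun g8 j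
    rw [ac_eq, ac_eq (ω := ω'), e1, e2, congrFun hY j]
  · exact congrFun (congrFun g5 j) b

/-- The values of the own paths of the base coordinates. -/
theorem A_near {ω ω' : Ω} (ht : d.th ω = d.th ω') (hth : 0 ≤ d.th ω ∧ d.th ω < 1)
    (hac : d.ac K ω = d.ac K ω') {j : Fin k} (hA : (d.A ω j).natDegree ≤ K)
    (hA' : (d.A ω' j).natDegree ≤ K) :
    |(d.A ω j).eval (d.th ω) - (d.A ω' j).eval (d.th ω')| ≤ (K + 1) / 2 ^ (d.X + d.m) := by
  have hs : (0 : ℝ) < 2 ^ (d.X + d.m) := by positivity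
  rw [← ht, AD.eval_fin hA, AD.eval_fin hA', ← Finset.sum_sub_distrib]
  refine (Finset.abs_sum_le_sum_abs _ _).trans ?_
  refine (Finset.sum_le_sum (g := fun _ => 1 / 2 ^ (d.X + d.m)) fun a _ => ?_).trans
    (le_of_eq ?_)
  · have e1 : ⌊(2 : ℝ) ^ (d.X + d.m) * (d.A ω j).coeff a⌋ =
        ⌊(2 : ℝ) ^ (d.X + d.m) * (d.A ω' j).coeff a⌋ := congrFun (congrFun hac j) a
    have e2 := near_of_floor hs e1
    rw [← sub_mul, abs_mul]
    have e3 : |d.th ω ^ (a : ℕ)| ≤ 1 := by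
      rw [abs_of_nonneg (pow_nonneg hth.1 _)]
      exact pow_le_one₀ hth.1 hth.2.le
    calc _ ≤ 1 / 2 ^ (d.X + d.m) * 1 := mul_le_mul e2 e3 (abs_nonneg _) (by positivity)
      _ = _ := mul_one _
  · rw [Finset.sum_const, Finset.card_univ, Fintype.card_fin, nsmul_eq_mul]
    push_cast
    ring

/-- The near digits of the positions. -/
theorem CH_Y [Fintype Ω] {q : Ω → ℝ} (hq : IsLaw q) (d : VD Ω β C k) (K : ℕ) {𝓦 : Type}
    (Z : Ω → 𝓦) : CH q (d.Y K) Z ≤ k * (d.X * Real.log 2) := by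
  have h0 := hq.nonneg
  refine CH_pi h0 Z k (d.Y K) fun j => ?_
  have s4 := CH_le_card h0 hq.sum_one (fun ω => d.Y K ω j) Z
      (fun _ => Finset.Ico (0 : ℤ) (2 ^ d.X)) (fun ω _ => by
        rw [Finset.mem_Ico]
        exact Y_mem ω j)
  rw [Ex_const hq.sum_one, Int.card_Ico, sub_zero] at s4
  have e2 : ((2 : ℤ) ^ d.X).toNat = 2 ^ d.X := by
    have : (2 : ℤ) ^ d.X = ((2 ^ d.X : ℕ) : ℤ) := by push_cast; rfl
    rw [this, Int.toNat_natCast]
  rw [e2] at s4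
  push_cast at s4
  rw [Real.log_pow] at s4
  linarith

end VD

section

variable {F : Fam m J} {c : ℕ → Fin m} {k C : ℕ} {mv : Fin k → ℕ} {tg qt Xt : Fin C → ℕ}
  {q w W X mm D K : ℕ} {γ : ℕ → ℕ} {H : LnT F → ℕ → MvPolynomial (Option (Fin m)) ℝ}
  {gg : F.Ω → Fin C → Fin k → ℝ} {ζ : Type} {z : F.Ω → ζ} {p : F.Ω → ℝ}

/-- The value of the own path of a moved place. -/
theorem adV_A0 (hwW : w ≤ W) (hW : W ≤ J) (ω : F.Ω) (j : Fin k) :
    ((adV F c mv tg qt Xt q w W X mm γ gg H z).A ω j).eval (rt F W ω) =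
      2 ^ (γ (mv j) + q) * ojet F (c (mv j)) 0 (H (slam F w ω) (mv j)) ω := by
  have h1 := jj_adG (c := c) (mv := mv) (i := 0) (q := q) (X := X) (mm := mm) (γ := γ)
    (gg := fun _ _ => 0) (H := H) (z := z) hwW hW ω (some j) 0
  have h2 : jj (adG F c mv 0 q w W X mm γ (fun _ _ => 0) H z) ω (some j) 0 =
      ((adV F c mv tg qt Xt q w W X mm γ gg H z).A ω j).eval (rt F W ω) := jt_zero _ _
  rw [h2] at h1
  simpa using h1

/-- The value of the own path of a place. -/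
theorem adV_P0 (hwW : w ≤ W) (hW : W ≤ J) (ω : F.Ω) (u : Fin C) :
    ((adV F c mv tg qt Xt q w W X mm γ gg H z).P ω u).eval (rt F W ω) =
      2 ^ (γ (tg u) + qt u) * ojet F (c (tg u)) 0 (H (slam F w ω) (tg u)) ω := by
  have h1 := jj_adG (c := c) (mv := mv) (i := tg u) (q := qt u) (X := X) (mm := mm) (γ := γ)
    (gg := fun _ _ => 0) (H := H) (z := z) hwW hW ω none 0
  have h2 : jj (adG F c mv (tg u) (qt u) w W X mm γ (fun _ _ => 0) H z) ω none 0 =
      ((adV F c mv tg qt Xt q w W X mm γ gg H z).P ω u).eval (rt F W ω) := jt_zero _ _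
  rw [h2] at h1
  simpa using h1

/-- The code of the line is a function of the line and the window. -/
theorem adV_L (p : F.Ω → ℝ) (hz : Det p (slam F W) z) (K : ℕ) :
    Det p (slam F W) ((adV F c mv tg qt Xt q w W X mm γ gg H z).L K) := by
  intro ω ν hω hν e
  have z1 : z ω = z ν := hz ω ν hω hν e
  have P1 : (adV F c mv tg qt Xt q w W X mm γ gg H z).P ω =
      (adV F c mv tg qt Xt q w W X mm γ gg H z).P ν := by
    funext u
    show Polynomial.C (2 ^ (γ (tg u) + qt u)) * dv W (fun s (_ : Fin m) => H (upw w W s) (tg u))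
      (c (tg u)) (slam F W ω) = Polynomial.C (2 ^ (γ (tg u) + qt u)) *
      dv W (fun s (_ : Fin m) => H (upw w W s) (tg u)) (c (tg u)) (slam F W ν)
    rw [e]
  have A1 : (adV F c mv tg qt Xt q w W X mm γ gg H z).A ω =
      (adV F c mv tg qt Xt q w W X mm γ gg H z).A ν := by
    funext j
    show Polynomial.C (2 ^ (γ (mv j) + q)) * dv W (fun s (_ : Fin m) => H (upw w W s) (mv j))
      (c (mv j)) (slam F W ω) = Polynomial.C (2 ^ (γ (mv j) + q)) *
      dv W (fun s (_ : Fin m) => H (upw w W s) (mv j)) (c (mv j)) (slam F W ν)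
    rw [e]
  have z2 : (adV F c mv tg qt Xt q w W X mm γ gg H z).z ω =
      (adV F c mv tg qt Xt q w W X mm γ gg H z).z ν := z1
  unfold VD.L VD.ac VD.nc
  rw [z2, P1, A1]

/-- **The field `ti`.** -/
theorem adV_ti (hp : IsLaw p) {j₀ : ℕ} {ε₀ ψ : ℝ} (hT : TimW F p W j₀ ε₀ ψ)
    (hz : Det p (slam F W) z) (hzT : Det p z (F.T1 W)) (K : ℕ) :
    MI p (rt F W) ((adV F c mv tg qt Xt q w W X mm γ gg H z).L K)
      ((adV F c mv tg qt Xt q w W X mm γ gg H z).g K) ≤ ψ * J := by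
  have h0 := hp.nonneg
  have hW : W ≤ J := by
    have := hT.le
    omega
  have hL := adV_L (c := c) (mv := mv) (tg := tg) (qt := qt) (Xt := Xt) (q := q) (w := w)
    (X := X) (mm := mm) (γ := γ) (gg := gg) (H := H) p hz K
  have hg : Det p (slam F W) ((adV F c mv tg qt Xt q w W X mm γ gg H z).g K) :=
    fun ω ν a b e => VD.g_of (hL ω ν a b e)
  have hgW : Det p ((adV F c mv tg qt Xt q w W X mm γ gg H z).g K) (F.T1 W) :=
    fun ω ν a b e => hzT ω ν a b (Prod.ext_iff.mp e).1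
  have h1 := mi_tim_code hp hT ((adV F c mv tg qt Xt q w W X mm γ gg H z).g K) hg hgW
    ((adV F c mv tg qt Xt q w W X mm γ gg H z).L K) hL (fun _ => ()) (fun _ => ())
    (fun _ _ _ _ _ => rfl) (E := 0) (by
      have e1 : MI p (fun _ : F.Ω => ()) ((adV F c mv tg qt Xt q w W X mm γ gg H z).L K)
          (fun ω => (F.tw W ω, (adV F c mv tg qt Xt q w W X mm γ gg H z).g K ω)) = 0 := by
        rw [MI_eq h0, CH_eq_zero h0 (fun _ _ _ _ _ => rfl), CH_eq_zero h0 (fun _ _ _ _ _ => rfl),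
          sub_zero]
      exact le_of_eq e1)
  rw [add_zero] at h1
  refine le_trans (le_of_eq ?_) h1
  have e0 : rt F W = F.tw W := by
    funext ω
    exact (tw_rt F hW ω).symm
  rw [e0, MI_eq h0, MI_eq h0]
  congr 1
  · refine CH_congr h0 (fun ω ν _ _ e => ?_) (fun ω ν _ _ e => ?_) (fun _ _ _ _ h => h)
      (fun _ _ _ _ h => h)
    · exact Prod.ext (Prod.ext_iff.mp e).1 rfl
    · exact (Prod.ext_iff.mp (Prod.ext_iff.mp e).1).1
  · refine CH_congr h0 (fun ω ν _ _ e => ?_) (fun ω ν _ _ e => ?_) (fun _ _ _ _ h => h)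
      (fun _ _ _ _ h => h)
    · exact Prod.ext (Prod.ext_iff.mp e).1 rfl
    · exact (Prod.ext_iff.mp (Prod.ext_iff.mp e).1).1

/-- The digits of the heights of the moved places given the codes. -/
theorem vm_h (hp : IsLaw p) (hH : ∀ s l, (H s l).totalDegree ≤ D) (hK : D + 1 ≤ K)
    (hwW : w ≤ W) (hW : W ≤ J) {Nb : Fin k → ℝ}
    (hr : ∀ j, Nb j ≤ (γ (mv j) + q + (X + mm) : ℕ)) {𝓦 : Type} (Z : F.Ω → 𝓦)
    (hZ : ∀ ω ν, 0 < p ω → 0 < p ν → Z ω = Z ν → rt F W ω = rt F W ν ∧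
      (adV F c mv tg qt Xt q w W X mm γ gg H z).Y K ω =
        (adV F c mv tg qt Xt q w W X mm γ gg H z).Y K ν ∧
      (adV F c mv tg qt Xt q w W X mm γ gg H z).g K ω =
        (adV F c mv tg qt Xt q w W X mm γ gg H z).g K ν) :
    CH p (Vm F c mv w H Nb) Z ≤ k * cV K := by
  have hAd : ∀ ω (j : Fin k), ((adV F c mv tg qt Xt q w W X mm γ gg H z).A ω j).natDegree ≤ K :=
    fun ω j => (Polynomial.natDegree_C_mul_le _ _).trans ((natDegree_dv W
      (G := fun s (_ : Fin m) => H (upw w W s) (mv j)) (fun s _ => hH _ _) _ _).trans hK)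
  refine CH_pi hp.nonneg Z k (Vm F c mv w H Nb) fun j => ?_
  refine CH_pair_int hp _ Z (by positivity) fun ω ν hω hν e => ?_
  obtain ⟨h1, h2, h3⟩ := hZ ω ν hω hν e
  have hth : 0 ≤ (adV F c mv tg qt Xt q w W X mm γ gg H z).th ω ∧
      (adV F c mv tg qt Xt q w W X mm γ gg H z).th ω < 1 := by
    have h := tw_mem F hW ω
    rw [tw_rt F hW ω] at h
    exact h
  have h4 := VD.A_near (d := adV F c mv tg qt Xt q w W X mm γ gg H z) (K := K)
    (j := j) h1 hth (VD.ac_of h2 h3) (hAd ω j) (hAd ν j)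
  have a1 : ((adV F c mv tg qt Xt q w W X mm γ gg H z).A ω j).eval
      ((adV F c mv tg qt Xt q w W X mm γ gg H z).th ω) =
      2 ^ (γ (mv j) + q) * ojet F (c (mv j)) 0 (H (slam F w ω) (mv j)) ω := adV_A0 hwW hW ω j
  have a2 : ((adV F c mv tg qt Xt q w W X mm γ gg H z).A ν j).eval
      ((adV F c mv tg qt Xt q w W X mm γ gg H z).th ν) =
      2 ^ (γ (mv j) + q) * ojet F (c (mv j)) 0 (H (slam F w ν) (mv j)) ν := adV_A0 hwW hW ν j
  have a3 : (2 : ℝ) ^ ((adV F c mv tg qt Xt q w W X mm γ gg H z).X +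
    (adV F c mv tg qt Xt q w W X mm γ gg H z).m) = 2 ^ (X + mm) := rfl
  rw [a1, a2, a3] at h4
  unfold Vm
  refine floor_near' ?_
  have p1 : (0 : ℝ) < 2 ^ (X + mm) := by positivity
  have p2 : (0 : ℝ) < 2 ^ (γ (mv j) + q) := by positivity
  have p3 : (0 : ℝ) < (2 : ℝ) ^ Nb j := Real.rpow_pos_of_pos two_pos _
  rw [← mul_sub, abs_mul, abs_of_pos p2] at h4
  rw [← mul_sub, abs_mul, abs_of_pos p3]
  have h5 : (2 : ℝ) ^ Nb j ≤ 2 ^ (γ (mv j) + q) * 2 ^ (X + mm) := by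
    rw [← pow_add, ← Real.rpow_natCast]
    exact Real.rpow_le_rpow_of_exponent_le one_le_two (hr j)
  rw [le_div_iff₀ p1] at h4
  calc _ ≤ 2 ^ (γ (mv j) + q) * 2 ^ (X + mm) * |ojet F (c (mv j)) 0 (H (slam F w ω) (mv j)) ω -
        ojet F (c (mv j)) 0 (H (slam F w ν) (mv j)) ν| :=
          mul_le_mul_of_nonneg_right h5 (abs_nonneg _)
    _ = 2 ^ (γ (mv j) + q) * |ojet F (c (mv j)) 0 (H (slam F w ω) (mv j)) ω -
        ojet F (c (mv j)) 0 (H (slam F w ν) (mv j)) ν| * 2 ^ (X + mm) := by ring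
    _ ≤ _ := h4

/-- The field `qv`. -/
theorem qv_m {U : ℝ} (hU : 0 ≤ U) (hwW : w ≤ W) (hW : W ≤ J) {Nb : Fin k → ℝ}
    (hr : ∀ j, ((γ (mv j) + q + X : ℕ) : ℝ) ≤ Nb j) {ω ν : F.Ω}
    (hb : ∀ u j, |(adV F c mv tg qt Xt q w W X mm γ gg H z).bb ω u j| ≤ U)
    (hV : Vm F c mv w H Nb ω = Vm F c mv w H Nb ν)
    (hT : (adV F c mv tg qt Xt q w W X mm γ gg H z).T ω =
      (adV F c mv tg qt Xt q w W X mm γ gg H z).T ν) (u : Fin C) :
    |((adV F c mv tg qt Xt q w W X mm γ gg H z).Q ω u -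
        Mm F c tg w H (fun u => γ (tg u) + qt u + Xt u) ω u) -
      ((adV F c mv tg qt Xt q w W X mm γ gg H z).Q ν u -
        Mm F c tg w H (fun u => γ (tg u) + qt u + Xt u) ν u)| ≤ k * U + 1 := by
  have b1 : (adV F c mv tg qt Xt q w W X mm γ gg H z).bb ω =
      (adV F c mv tg qt Xt q w W X mm γ gg H z).bb ν := (Prod.ext_iff.mp hT).2
  have hv2 : ∀ j : Fin k, 2 ^ (γ (mv j) + q + X) *
      |ojet F (c (mv j)) 0 (H (slam F w ω) (mv j)) ω -
      ojet F (c (mv j)) 0 (H (slam F w ν) (mv j)) ν| ≤ 1 := by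
    intro j
    have p1 : (0 : ℝ) < 2 ^ (γ (mv j) + q + X) := by positivity
    have p3 : (0 : ℝ) < (2 : ℝ) ^ Nb j := Real.rpow_pos_of_pos two_pos _
    have hv := near_of_floor p3 (congrFun hV j)
    have h1 : (1 : ℝ) / 2 ^ Nb j ≤ 1 / 2 ^ (γ (mv j) + q + X) := by
      refine one_div_le_one_div_of_le p1 ?_
      rw [← Real.rpow_natCast]
      exact Real.rpow_le_rpow_of_exponent_le one_le_two (hr j)
    have h2 := hv.trans h1
    rw [le_div_iff₀ p1] at h2
    linarith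
  have q1 : ∀ o : F.Ω, (adV F c mv tg qt Xt q w W X mm γ gg H z).Q o u =
      2 ^ (γ (tg u) + qt u + Xt u) * ojet F (c (tg u)) 0 (H (slam F w o) (tg u)) o -
        ∑ j, (adV F c mv tg qt Xt q w W X mm γ gg H z).bb o u j *
          (2 ^ (γ (mv j) + q + X) * ojet F (c (mv j)) 0 (H (slam F w o) (mv j)) o) := by
    intro o
    have e1 : (adV F c mv tg qt Xt q w W X mm γ gg H z).Q o u =
        2 ^ Xt u * ((adV F c mv tg qt Xt q w W X mm γ gg H z).P o u).eval (rt F W o) -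
          2 ^ X * ∑ j, (adV F c mv tg qt Xt q w W X mm γ gg H z).bb o u j *
            ((adV F c mv tg qt Xt q w W X mm γ gg H z).A o j).eval (rt F W o) := rfl
    rw [e1, adV_P0 hwW hW, Finset.mul_sum]
    congr 1
    · rw [pow_add _ (γ (tg u) + qt u) (Xt u)]
      ring
    · refine Finset.sum_congr rfl fun j _ => ?_
      rw [adV_A0 hwW hW, pow_add _ (γ (mv j) + q) X]
      ring
  obtain ⟨b, hbe⟩ : ∃ b, b = (adV F c mv tg qt Xt q w W X mm γ gg H z).bb ω := ⟨_, rfl⟩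
  rw [← hbe] at hb
  rw [q1 ω, q1 ν, ← b1, ← hbe]
  unfold Mm Mh
  obtain ⟨x, hx⟩ : ∃ x, x = (2 : ℝ) ^ (γ (tg u) + qt u + Xt u) *
    ojet F (c (tg u)) 0 (H (slam F w ω) (tg u)) ω := ⟨_, rfl⟩
  obtain ⟨x', hx'⟩ : ∃ x, x = (2 : ℝ) ^ (γ (tg u) + qt u + Xt u) *
    ojet F (c (tg u)) 0 (H (slam F w ν) (tg u)) ν := ⟨_, rfl⟩
  rw [← hx, ← hx']
  have f1 := Int.floor_le x
  have f2 := Int.lt_floor_add_one x
  have f3 := Int.floor_le x'
  have f4 := Int.lt_floor_add_one x'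
  have h6 : |∑ j, b u j * (2 ^ (γ (mv j) + q + X) *
        ojet F (c (mv j)) 0 (H (slam F w ω) (mv j)) ω) -
      ∑ j, b u j * (2 ^ (γ (mv j) + q + X) *
        ojet F (c (mv j)) 0 (H (slam F w ν) (mv j)) ν)| ≤ k * U := by
    rw [← Finset.sum_sub_distrib]
    refine (Finset.abs_sum_le_sum_abs _ _).trans ((Finset.sum_le_sum (g := fun _ => U)
      fun j _ => ?_).trans (le_of_eq ?_))
    · rw [← mul_sub, ← mul_sub, abs_mul, abs_mul,
        abs_of_pos (by positivity : (0 : ℝ) < 2 ^ (γ (mv j) + q + X))]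
      calc _ ≤ U * 1 := mul_le_mul (hb u j) (hv2 j) (by positivity) hU
        _ = U := mul_one _
    · rw [Finset.sum_const, Finset.card_univ, Fintype.card_fin, nsmul_eq_mul]
  have h7 := abs_le.mp h6
  rw [abs_le]
  constructor <;> linarith [h7.1, h7.2]

end

end Pool.LV64
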