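import Pool.Agent.H64.LV.Fs

/-!
# Closed gradients of one place, with side places: the conclusion
-/

set_option autoImplicit false

namespace Pool.LV64

open Finset Real
open Pool.Agent.H49.Ent Pool.Agent.H32.Dense Pool.STK
open Pool.BD64 (QHd pol)
open Pool.FS21 (FsH oth fs)
open Pool.K2S (Pe)
open Pool.BFL (Pb)

namespace VD

variable {Ω β : Type} {c k : ℕ} {d : VD Ω β c k} {K : ℕ}

variable (d K) in
/-- The line of the picture, from the code of the line. -/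
def lnL (l : LamV β c k K) : (Fin c → ℤ) × (NumV c k K × GamV β c k K) :=
  (fun i => (l.2.2 i 0 % 2 ^ d.Xp i) / 2 ^ d.m,
    ((fun j => l.2.1 j 0 % 2 ^ (d.X + d.m) / 2 ^ d.m, fun i a => l.2.2 i a.succ % 2 ^ d.Xp i),
      (l.1, ((fun j a => l.2.1 j a.succ,
        (fun j => l.2.1 j 0 / 2 ^ (d.X + d.m), fun j => l.2.1 j 0 % 2 ^ d.m)),
        fun i a => l.2.2 i a / 2 ^ d.Xp i))))

theorem lnL_eq [Fintype Ω] {p : Ω → ℝ} {ω₀ ω : Ω} (h : 0 < p ω) :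
    (d.pic K p ω₀).line ω = d.lnL K (d.L K ω) := by
  show ((fun i => d.nr K (rr p ω₀ ω) i 0 / 2 ^ d.m : Fin c → ℤ),
    (d.nv K (rr p ω₀ ω), d.g K (rr p ω₀ ω))) = _
  rw [rr_eq h]
  rfl

end VD

/-- The numbers for the row. -/
theorem Er_le {c k K m : ℕ} {B x : ℝ} (_hB0 : 0 ≤ B) (hB : B ≤ (2 : ℝ) ^ x) (hm : (m : ℝ) ≤ x)
    (hx : 0 ≤ x) : VD.Er c k K m B ≤
      (c + 1) * (Real.log (2 * (9 + 2 * ((K + 1) * (k + 1))) + 1) + x * Real.log 2) := by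
  obtain ⟨K1, hK1⟩ : ∃ K1 : ℝ, K1 = 2 * (((K : ℝ) + 1) * (k + 1)) := ⟨_, rfl⟩
  have h0 : 0 ≤ K1 := by rw [hK1]; positivity
  have h1 : (1 : ℝ) ≤ 2 ^ x := Real.one_le_rpow one_le_two hx
  have h2 : (2 : ℝ) ^ m ≤ 2 ^ x := by
    rw [← Real.rpow_natCast]
    exact Real.rpow_le_rpow_of_exponent_le one_le_two hm
  have h3 : (0 : ℝ) < 2 ^ m := by positivity
  have key : ∀ y : ℝ, 0 ≤ y → y ≤ (9 + K1) * 2 ^ x →
      Real.log (2 * y + 1) ≤ Real.log (2 * (9 + K1) + 1) + x * Real.log 2 := by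
    intro y hy0 hy
    rw [← Real.log_rpow two_pos, ← Real.log_mul (by linarith) (by linarith)]
    refine Real.log_le_log (by linarith) ?_
    nlinarith
  unfold VD.Er
  rw [← hK1]
  have a1 := key (4 * 2 ^ m + (B + K1)) (by linarith) (by nlinarith)
  have a2 := key (B + K1 + 4) (by linarith) (by nlinarith)
  have hc : (0 : ℝ) ≤ c := Nat.cast_nonneg c
  nlinarith [mul_le_mul_of_nonneg_left a1 hc]

theorem Pb_le_Pb {Ω : Type} [Fintype Ω] {p : Ω → ℝ} (h0 : ∀ ω, 0 ≤ p ω) {A A' : Ω → Prop}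
    (h : ∀ ω, 0 < p ω → A ω → A' ω) : Pb p A ≤ Pb p A' := by
  classical
  unfold Pb
  refine Finset.sum_le_sum fun ω _ => ?_
  by_cases hA : A ω
  · rw [if_pos hA]
    rcases (h0 ω).eq_or_lt with h1 | h1
    · rw [← h1]
      split_ifs <;> exact le_rfl
    · rw [if_pos (h ω h1 hA)]
  · rw [if_neg hA]
    split_ifs
    · exact h0 ω
    · exact le_rfl

/-- **Closed gradients of one place, with side places.** -/
theorem vd_clo (c k K : ℕ) (hK : 1 ≤ K) {h x₀ σ ε : ℝ} (hh : 0 < h) (hh1 : h ≤ 1) (hx : 0 < x₀)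
    (hxh : x₀ < h) (hσ : 0 < σ) (hε : 0 < ε) :
    ∃ ι π₀ : ℝ, 0 < ι ∧ 0 < π₀ ∧ ∃ X₀ : ℕ,
      ∀ {Ω β : Type} [Fintype Ω] (p : Ω → ℝ) (d : VD Ω β c k) {ρ₁ ρ₂ ν₁ ν₂ σ₁ σ₂ υ : Type}
        (Rj : Ω → ρ₁) (Rx : Ω → ρ₂) (nj : Ω → ν₁) (nx : Ω → ν₂) (bj : Ω → σ₁) (bx : Ω → σ₂)
        (V : Ω → υ) (M : Ω → Fin c → ℤ) (F e B U : ℝ) (i0 : Fin c), X₀ ≤ d.X →
        d.Hyp K p Rj Rx nj nx bj bx V M F e B →
        (∀ ω, 0 < p ω → ∀ i, i ≠ i0 → ∀ j, d.bb ω i j = 0) →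
        d.X * Real.log 2 - e ≤ CH p (fun ω => ⌊(2 : ℝ) ^ d.X * d.th ω⌋) (d.L K) →
        (∀ G : Ω → Prop, π₀ ≤ Pe p G → CH (cond p G True) (fun ω => M ω i0)
          (fun ω => (oth i0 (M ω), (V ω, (d.T ω, d.g K ω)))) ≤ U) →
        e ≤ ι * d.X → (d.m : ℝ) ≤ ι * d.X → B ≤ (2 : ℝ) ^ (ι * d.X) →
        U ≤ (1 - h) * d.X * Real.log 2 + ι * d.X →
        ∃ mu : LamV β c k K → Fin k → Polynomial ℝ, (∀ l j, (mu l j).natDegree ≤ K) ∧
          (∀ l j (u : ℝ), |(mu l j).eval u| ≤ (K + 1) * (|u| + 1) ^ K * (2 : ℝ) ^ (σ * d.X)) ∧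
          Pb p (fun ω => ∃ j, (2 : ℝ) ^ (-(x₀ * d.X)) <
            |d.bb ω i0 j - (mu (d.L K ω) j).eval (d.th ω)|) ≤ ε := by
  classical
  have hl2 : 0 < Real.log 2 := Real.log_pos (by norm_num)
  have hl2' : Real.log 2 ≤ 1 := by
    have := Real.log_two_lt_d9
    linarith
  have hl11 : 0 < Real.log 11 := Real.log_pos (by norm_num)
  obtain ⟨x₁, hx₁⟩ : ∃ x₁ : ℝ, x₁ = (x₀ + h) / 2 := ⟨_, rfl⟩
  obtain ⟨δ, hδ⟩ : ∃ δ : ℝ, δ = (h - x₀) / 8 := ⟨_, rfl⟩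
  have hδ0 : 0 < δ := by rw [hδ]; linarith
  obtain ⟨s, hs⟩ : ∃ s : ℝ, s = min (σ / 2) δ := ⟨_, rfl⟩
  have hs0 : 0 < s := by rw [hs]; exact lt_min (by linarith) hδ0
  have hs1 : s ≤ σ / 2 := by rw [hs]; exact min_le_left _ _
  have hs2 : s ≤ δ := by rw [hs]; exact min_le_right _ _
  obtain ⟨io, ϖ, hio, hϖ, hfs⟩ := fs c k K hK hh hh1 (x₀ := x₁) (by rw [hx₁]; linarith)
    (by rw [hx₁]; linarith) hs0 hε
  have hCv1 : 1 ≤ VD.Cv k K := by
    unfold VD.Cv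
    have h1 : (0 : ℝ) ≤ (K : ℝ) * K := by positivity
    have h2 : (0 : ℝ) ≤ K := Nat.cast_nonneg K
    have h3 : (0 : ℝ) ≤ k := Nat.cast_nonneg k
    linarith
  obtain ⟨X1, hX1⟩ := hfs (VD.Cv k K) hCv1
  -- the constants
  obtain ⟨Lc, hLc⟩ : ∃ Lc : ℝ, Lc = ((c : ℝ) + 1) *
    Real.log (2 * (9 + 2 * (((K : ℝ) + 1) * (k + 1))) + 1) + c * Real.log 11 := ⟨_, rfl⟩
  have hc0 : (0 : ℝ) ≤ c := Nat.cast_nonneg c
  have hk0 : (0 : ℝ) ≤ k := Nat.cast_nonneg k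
  have hK0 : (0 : ℝ) ≤ K := Nat.cast_nonneg K
  have hKk : (0 : ℝ) ≤ ((K : ℝ) + 1) * (k + 1) := by positivity
  have hLa : 0 ≤ ((c : ℝ) + 1) * Real.log (2 * (9 + 2 * (((K : ℝ) + 1) * (k + 1))) + 1) :=
    mul_nonneg (by positivity) (Real.log_nonneg (by linarith))
  have hLb : 0 ≤ (c : ℝ) * Real.log 11 := by positivity
  have hLc0 : 0 ≤ Lc := by rw [hLc]; linarith
  obtain ⟨ι, hι⟩ : ∃ ι : ℝ, ι = min (io / (2 * (c + k + 8))) s := ⟨_, rfl⟩
  have hι0 : 0 < ι := by rw [hι]; exact lt_min (by positivity) hs0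
  have hι1 : ι * (2 * (c + k + 8)) ≤ io := by
    have : ι ≤ io / (2 * (c + k + 8)) := by rw [hι]; exact min_le_left _ _
    rwa [le_div_iff₀ (by positivity)] at this
  have hι2 : ι ≤ s := by rw [hι]; exact min_le_right _ _
  obtain ⟨X2, hX2⟩ := exists_nat_ge (2 * Lc / io)
  obtain ⟨X3, hX3⟩ := exists_nat_ge ((Real.log (2 * ((K + 1) * K) + 2) / Real.log 2) / δ)
  refine ⟨ι, ϖ, hι0, hϖ, max X1 (max X2 X3), ?_⟩
  intro Ω β _ p d ρ₁ ρ₂ ν₁ ν₂ σ₁ σ₂ υ Rj Rx nj nx bj bx V M F e B U i0 hXd H hside ht hrow he hm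
    hB hU
  have hp := H.law
  have h0 := hp.nonneg
  obtain ⟨ω₀, hω₀⟩ : ∃ ω₀, 0 < p ω₀ := by
    by_contra hcon
    push Not at hcon
    have : ∑ ω, p ω ≤ 0 := Finset.sum_nonpos fun ω _ => hcon ω
    rw [hp.sum_one] at this
    linarith
  have hXa : X1 ≤ d.X := (le_max_left _ _).trans hXd
  have hXb : X2 ≤ d.X := (le_max_left _ _).trans ((le_max_right _ _).trans hXd)
  have hXc : X3 ≤ d.X := (le_max_right _ _).trans ((le_max_right _ _).trans hXd)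
  have hXR : (0 : ℝ) ≤ d.X := Nat.cast_nonneg _
  have n2 : 2 * Lc ≤ io * d.X := by
    have h1 : 2 * Lc / io ≤ d.X := hX2.trans (by exact_mod_cast hXb)
    rw [div_le_iff₀ hio] at h1
    linarith
  have n3 : Real.log (2 * ((K + 1) * K) + 2) / Real.log 2 ≤ δ * d.X := by
    have h1 : (Real.log (2 * ((K + 1) * K) + 2) / Real.log 2) / δ ≤ d.X :=
      hX3.trans (by exact_mod_cast hXc)
    rw [div_le_iff₀ hδ0] at h1
    linarith
  have hιX : 0 ≤ ι * d.X := by positivity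
  have hιio : ι * d.X * (2 * (c + k + 8)) ≤ io * d.X := by
    have := mul_le_mul_of_nonneg_right hι1 hXR
    linarith
  -- the hypotheses of `fs`
  have hEr := Er_le (c := c) (k := k) (K := K) H.B0 hB hm hιX
  have hDv : VD.Dv c k d.m e ≤ io * d.X := by
    unfold VD.Dv
    have h1 : k * (d.m : ℝ) * Real.log 2 ≤ k * (ι * d.X) := by
      have h2 : k * (d.m : ℝ) ≤ k * (ι * d.X) := mul_le_mul_of_nonneg_left hm hk0
      have h3 : 0 ≤ k * (d.m : ℝ) := by positivity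
      exact (mul_le_of_le_one_right h3 hl2').trans h2
    have h2 : 0 ≤ c * (ι * d.X) := by positivity
    rw [hLc] at n2
    linarith
  have hfsh := H.fsh hω₀ ht i0 hside (U := U) (π₀ := ϖ) (h := h) (dd := io * d.X) hϖ hrow (by
    have h1 : ((c : ℝ) + 1) * (ι * d.X * Real.log 2) ≤ (c + 1) * (ι * d.X) :=
      mul_le_mul_of_nonneg_left (mul_le_of_le_one_right hιX hl2') (by positivity)
    have h2 : 0 ≤ k * (ι * d.X) := by positivity
    have h3 : VD.Er c k K d.m B ≤ Lc + (c + 1) * (ι * d.X) := by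
      rw [hLc]
      linarith
    linarith) hDv
  obtain ⟨ep, he1, he2, -⟩ := hX1 (d.pic K p ω₀) _ _ _ _ _ _ i0 d.X hXa hfsh
  -- the polynomials
  refine ⟨fun l j => ∑ a : Fin (K + 1), Polynomial.C (2 ^ d.m * ep (d.lnL K l) a j) *
    Polynomial.X ^ (a : ℕ), fun l j => ?_, fun l j u => ?_, ?_⟩
  · refine Polynomial.natDegree_sum_le_of_forall_le _ _ fun a _ => ?_
    exact (Polynomial.natDegree_C_mul_X_pow_le _ _).trans (Nat.lt_succ_iff.1 a.2)
  · rw [Polynomial.eval_finsetSum]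
    refine (Finset.abs_sum_le_sum_abs _ _).trans ?_
    have h1 : ∀ a ∈ (univ : Finset (Fin (K + 1))),
        |(Polynomial.C (2 ^ d.m * ep (d.lnL K l) a j) * Polynomial.X ^ (a : ℕ)).eval u| ≤
          (|u| + 1) ^ K * (2 : ℝ) ^ (σ * d.X) := by
      intro a _
      rw [Polynomial.eval_mul, Polynomial.eval_C, Polynomial.eval_pow, Polynomial.eval_X,
        abs_mul, abs_mul, abs_of_pos (by positivity : (0 : ℝ) < 2 ^ d.m), abs_pow, mul_comm]
      have g1 : |u| ^ (a : ℕ) ≤ (|u| + 1) ^ K := by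
        have g2 : |u| ^ (a : ℕ) ≤ (|u| + 1) ^ (a : ℕ) :=
          pow_le_pow_left₀ (abs_nonneg u) (by linarith) _
        exact g2.trans (pow_le_pow_right₀ (by linarith [abs_nonneg u]) (Nat.lt_succ_iff.1 a.2))
      refine mul_le_mul g1 ?_ (by positivity) (by positivity)
      have g3 : (2 : ℝ) ^ d.m ≤ 2 ^ (s * d.X) := by
        rw [← Real.rpow_natCast]
        exact Real.rpow_le_rpow_of_exponent_le one_le_two
          (hm.trans (mul_le_mul_of_nonneg_right hι2 hXR))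
      calc (2 : ℝ) ^ d.m * |ep (d.lnL K l) a j| ≤ 2 ^ (s * d.X) * 2 ^ (s * d.X) :=
            mul_le_mul g3 (he1 _ a j) (abs_nonneg _) (by positivity)
        _ = 2 ^ (s * d.X + s * d.X) := by rw [← Real.rpow_add two_pos]
        _ ≤ 2 ^ (σ * d.X) := Real.rpow_le_rpow_of_exponent_le one_le_two (by
            have := mul_le_mul_of_nonneg_right hs1 hXR
            linarith)
    refine (Finset.sum_le_sum h1).trans (le_of_eq ?_)
    rw [Finset.sum_const, Finset.card_univ, Fintype.card_fin, nsmul_eq_mul]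
    push_cast
    ring
  · refine le_trans (Pb_le_Pb h0 ?_) he2
    intro ω hω hbad hgood
    obtain ⟨j, hj⟩ := hbad
    refine absurd hj (not_lt.2 ?_)
    have hX : (0 : ℝ) < 2 ^ d.X := by positivity
    have hm0 : (0 : ℝ) < 2 ^ d.m := by positivity
    have h1 := hgood j
    rw [VD.lnL_eq hω] at h1
    obtain ⟨t, ht⟩ : ∃ t : ℝ, t = (⌊(2 : ℝ) ^ d.X * d.th ω⌋ : ℝ) / 2 ^ d.X := ⟨_, rfl⟩
    have hth := H.th ω hω
    have hs0' : 0 ≤ t := by
      rw [ht]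
      exact div_nonneg (by exact_mod_cast Int.floor_nonneg.2 (mul_nonneg hX.le hth.1)) hX.le
    have hs1' : t ≤ d.th ω := by
      rw [ht, div_le_iff₀ hX, mul_comm]
      exact Int.floor_le _
    have hs2' : d.th ω - t ≤ 1 / 2 ^ d.X := by
      have g1 := Int.lt_floor_add_one ((2 : ℝ) ^ d.X * d.th ω)
      have g2 : d.th ω < t + 1 / 2 ^ d.X := by
        rw [ht, ← add_div, lt_div_iff₀ hX, mul_comm]
        exact g1
      linarith
    have h2 : |d.bb ω i0 j / 2 ^ d.m - ∑ a : Fin (K + 1), ep (d.lnL K (d.L K ω)) a j *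
        t ^ (a : ℕ)| ≤ (2 : ℝ) ^ (-(x₁ * d.X)) := by
      have e1 : (d.pic K p ω₀).E ((d.pic K p ω₀).th ω) j i0 = d.bb ω i0 j / 2 ^ d.m := by
        show d.bb (rr p ω₀ ω) i0 j / 2 ^ d.m = _
        rw [rr_eq hω]
      have e2 : ((d.pic K p ω₀).tau ((d.pic K p ω₀).th ω) : ℝ) / 2 ^ d.X = t := by
        show (⌊(2 : ℝ) ^ d.X * d.th (rr p ω₀ ω)⌋ : ℝ) / 2 ^ d.X = t
        rw [rr_eq hω, ht]
      rw [e1, e2] at h1
      exact h1
    have h3 : |∑ a : Fin (K + 1), ep (d.lnL K (d.L K ω)) a j * t ^ (a : ℕ) -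
        ∑ a : Fin (K + 1), ep (d.lnL K (d.L K ω)) a j * d.th ω ^ (a : ℕ)| ≤
        (K + 1) * K * ((2 : ℝ) ^ (s * d.X) / 2 ^ d.X) := by
      rw [← Finset.sum_sub_distrib]
      refine (Finset.abs_sum_le_sum_abs _ _).trans ?_
      have g1 : ∀ a ∈ (univ : Finset (Fin (K + 1))),
          |ep (d.lnL K (d.L K ω)) a j * t ^ (a : ℕ) - ep (d.lnL K (d.L K ω)) a j *
            d.th ω ^ (a : ℕ)| ≤ K * ((2 : ℝ) ^ (s * d.X) / 2 ^ d.X) := by
        intro a _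
        rw [← mul_sub, abs_mul]
        have g2 := VD.pow_near hs0' (hs1'.trans hth.2.le) hth.1 hth.2.le (a : ℕ)
        have g3 : |t - d.th ω| ≤ 1 / 2 ^ d.X := by
          rw [abs_sub_comm, abs_of_nonneg (by linarith)]
          exact hs2'
        have g4 : ((a : ℕ) : ℝ) ≤ K := by exact_mod_cast Nat.lt_succ_iff.1 a.2
        calc |ep (d.lnL K (d.L K ω)) a j| * |t ^ (a : ℕ) - d.th ω ^ (a : ℕ)|
            ≤ 2 ^ (s * d.X) * (K * (1 / 2 ^ d.X)) := by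
              refine mul_le_mul (he1 _ a j) (g2.trans ?_) (abs_nonneg _) (by positivity)
              exact mul_le_mul g4 g3 (abs_nonneg _) hK0
          _ = K * ((2 : ℝ) ^ (s * d.X) / 2 ^ d.X) := by ring
      refine (Finset.sum_le_sum g1).trans (le_of_eq ?_)
      rw [Finset.sum_const, Finset.card_univ, Fintype.card_fin, nsmul_eq_mul]
      push_cast
      ring
    have h4 : (∑ a : Fin (K + 1), Polynomial.C (2 ^ d.m * ep (d.lnL K (d.L K ω)) a j) *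
        Polynomial.X ^ (a : ℕ)).eval (d.th ω) =
        2 ^ d.m * ∑ a : Fin (K + 1), ep (d.lnL K (d.L K ω)) a j * d.th ω ^ (a : ℕ) := by
      rw [Polynomial.eval_finsetSum, Finset.mul_sum]
      refine Finset.sum_congr rfl fun a _ => ?_
      rw [Polynomial.eval_mul, Polynomial.eval_C, Polynomial.eval_pow, Polynomial.eval_X]
      ring
    rw [h4]
    have h5 : |d.bb ω i0 j - 2 ^ d.m * ∑ a : Fin (K + 1), ep (d.lnL K (d.L K ω)) a j *
        d.th ω ^ (a : ℕ)| ≤ 2 ^ d.m * ((2 : ℝ) ^ (-(x₁ * d.X)) +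
          (K + 1) * K * ((2 : ℝ) ^ (s * d.X) / 2 ^ d.X)) := by
      have e1 : d.bb ω i0 j - 2 ^ d.m * ∑ a : Fin (K + 1), ep (d.lnL K (d.L K ω)) a j *
          d.th ω ^ (a : ℕ) = 2 ^ d.m * (d.bb ω i0 j / 2 ^ d.m -
            ∑ a : Fin (K + 1), ep (d.lnL K (d.L K ω)) a j * d.th ω ^ (a : ℕ)) := by
        field_simp
      rw [e1, abs_mul, abs_of_pos hm0]
      refine mul_le_mul_of_nonneg_left ?_ hm0.le
      have g1 := abs_le.1 h2
      have g2 := abs_le.1 h3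
      rw [abs_le]
      constructor <;> linarith [g1.1, g1.2, g2.1, g2.2]
    refine h5.trans ?_
    -- the numbers
    have g3 : (2 : ℝ) ^ d.m ≤ 2 ^ (δ * d.X) := by
      rw [← Real.rpow_natCast]
      exact Real.rpow_le_rpow_of_exponent_le one_le_two
        (hm.trans (mul_le_mul_of_nonneg_right (hι2.trans hs2) hXR))
    have g4 : (2 : ℝ) ^ (s * d.X) / 2 ^ d.X ≤ 2 ^ (-(x₁ * d.X)) := by
      rw [← Real.rpow_natCast, ← Real.rpow_sub two_pos]
      refine Real.rpow_le_rpow_of_exponent_le one_le_two ?_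
      have e1 : s * d.X - d.X + x₁ * d.X ≤ 0 := by
        have e2 : s + x₁ ≤ 1 := by
          rw [hx₁]
          linarith
        have e3 := mul_le_mul_of_nonneg_right e2 hXR
        linarith
      linarith
    have g5 : (2 : ℝ) * ((K + 1) * K) + 2 ≤ 2 ^ (δ * d.X) := by
      rw [div_le_iff₀ hl2] at n3
      have e1 : (0 : ℝ) < 2 * ((K + 1) * K) + 2 := by positivity
      rw [← Real.exp_log e1, Real.rpow_def_of_pos two_pos]
      exact Real.exp_le_exp.2 (by linarith)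
    have g6 : (0 : ℝ) < (2 : ℝ) ^ (-(x₁ * d.X)) := Real.rpow_pos_of_pos two_pos _
    have hKK : (0 : ℝ) ≤ (K + 1) * K := by positivity
    have g7 := mul_le_mul_of_nonneg_left g4 hKK
    have g8 := mul_le_mul_of_nonneg_right g5 g6.le
    have g9 : 0 ≤ ((K : ℝ) + 1) * K * 2 ^ (-(x₁ * d.X)) := by positivity
    calc (2 : ℝ) ^ d.m * ((2 : ℝ) ^ (-(x₁ * d.X)) + (K + 1) * K *
          ((2 : ℝ) ^ (s * d.X) / 2 ^ d.X))
        ≤ 2 ^ (δ * d.X) * (2 ^ (δ * d.X) * (2 : ℝ) ^ (-(x₁ * d.X))) := by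
          refine mul_le_mul g3 ?_ (by positivity) (by positivity)
          linarith
      _ = 2 ^ (δ * d.X + (δ * d.X + -(x₁ * d.X))) := by
          rw [← Real.rpow_add two_pos, ← Real.rpow_add two_pos]
      _ ≤ 2 ^ (-(x₀ * d.X)) := by
          refine Real.rpow_le_rpow_of_exponent_le one_le_two ?_
          have e1 : 2 * δ + x₀ ≤ x₁ := by
            rw [hx₁, hδ]
            linarith
          have e2 := mul_le_mul_of_nonneg_right e1 hXR
          linarith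

end Pool.LV64
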