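import Pool.Agent.H71.AVG.Avg

/-!
# Own paths of several places

`VD`: base data `z`, real time `th`, own paths `P i` of the places `i < c` (units: the integer part are
the digits in the context; `Xp i` further digits), own paths `A` of the base coordinates (`X`
further digits), rounded gradients `bb i`. `VD.L` = code of the line, `VD.g` = context, `VD.Y` = near
digits of the positions of the base coordinates, `VD.C` = near digits of the higher coefficients,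
`VD.val i` = height of the place `i` over the line of the context with near digits zero, `VD.Q i` =
own height. `VD.Q_val`: they differ by a function of the time and the context.
-/

set_option autoImplicit false

namespace Pool.LV64

open Finset Real
open Pool.Agent.H49.Ent Pool.Agent.H32.Dense Pool.STK

/-- Own paths of several places. -/
structure VD (Ω β : Type) (c k : ℕ) where
  z : Ω → β
  th : Ω → ℝ
  P : Ω → Fin c → Polynomial ℝ
  A : Ω → Fin k → Polynomial ℝ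
  bb : Ω → Fin c → Fin k → ℝ
  Xp : Fin c → ℕ
  X : ℕ
  m : ℕ

/-- The codes of lines. -/
abbrev LamV (β : Type) (c k K : ℕ) : Type :=
  β × ((Fin k → Fin (K + 1) → ℤ) × (Fin c → Fin (K + 1) → ℤ))

/-- The digits of the base coordinates in the context. -/
abbrev VamV (k K : ℕ) : Type := (Fin k → Fin K → ℤ) × ((Fin k → ℤ) × (Fin k → ℤ))

/-- The contexts. -/
abbrev GamV (β : Type) (c k K : ℕ) : Type := β × (VamV k K × (Fin c → Fin (K + 1) → ℤ))

/-- The unknown numbers. -/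
abbrev NumV (c k K : ℕ) : Type := (Fin k → ℤ) × (Fin c → Fin K → ℤ)

namespace VD

variable {Ω β : Type} {c k : ℕ} (d : VD Ω β c k) (K : ℕ)

/-- Digits of the coefficients of the places. -/
noncomputable def nc (ω : Ω) (i : Fin c) (a : Fin (K + 1)) : ℤ :=
  ⌊(2 : ℝ) ^ d.Xp i * (d.P ω i).coeff a⌋

/-- Digits of the coefficients of the base coordinates. -/
noncomputable def ac (ω : Ω) (j : Fin k) (a : Fin (K + 1)) : ℤ :=
  ⌊(2 : ℝ) ^ (d.X + d.m) * (d.A ω j).coeff a⌋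

/-- The upper digits of the places. -/
noncomputable def nu (ω : Ω) (i : Fin c) (a : Fin (K + 1)) : ℤ := d.nc K ω i a / 2 ^ d.Xp i

/-- The near digits of the places. -/
noncomputable def nr (ω : Ω) (i : Fin c) (a : Fin (K + 1)) : ℤ := d.nc K ω i a % 2 ^ d.Xp i

/-- The code of the line. -/
noncomputable def L (ω : Ω) : LamV β c k K := (d.z ω, (d.ac K ω, d.nc K ω))

/-- The digits of the base coordinates in the context. -/
noncomputable def va (ω : Ω) : VamV k K :=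
  (fun j a => d.ac K ω j a.succ,
    (fun j => d.ac K ω j 0 / 2 ^ (d.X + d.m), fun j => d.ac K ω j 0 % 2 ^ d.m))

/-- The context. -/
noncomputable def g (ω : Ω) : GamV β c k K := (d.z ω, (d.va K ω, d.nu K ω))

/-- The near digits of the positions of the base coordinates. -/
noncomputable def Y (ω : Ω) (j : Fin k) : ℤ := d.ac K ω j 0 % 2 ^ (d.X + d.m) / 2 ^ d.m

/-- The near digits of the higher coefficients of the places. -/
noncomputable def C (ω : Ω) (i : Fin c) (a : Fin K) : ℤ := d.nr K ω i a.succ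

/-- The unknown numbers of the line. -/
noncomputable def nv (ω : Ω) : NumV c k K := (d.Y K ω, d.C K ω)

/-- The height over the line of the context with near digits zero. -/
noncomputable def val (ω : Ω) (i : Fin c) : ℝ :=
  ∑ a : Fin (K + 1), (d.nr K ω i a : ℝ) * d.th ω ^ (a : ℕ) - ∑ j, d.bb ω i j * (d.Y K ω j : ℝ)

noncomputable def N (ω : Ω) (i : Fin c) : ℤ := ⌊d.val K ω i⌋

/-- The time with the gradients. -/
def T (ω : Ω) : ℝ × (Fin c → Fin k → ℝ) := (d.th ω, d.bb ω)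

/-- The own height at the time, in units of the last digit. -/
noncomputable def Q (ω : Ω) (i : Fin c) : ℝ :=
  2 ^ d.Xp i * (d.P ω i).eval (d.th ω) - 2 ^ d.X * ∑ j, d.bb ω i j * (d.A ω j).eval (d.th ω)

/-- Base data with the part of the context which the record of the small ball sees. -/
noncomputable def v (ω : Ω) : β × ((Fin k → Fin K → ℤ) × (Fin k → ℤ)) :=
  (d.z ω, (fun j a => d.ac K ω j a.succ, fun j => d.ac K ω j 0 / 2 ^ (d.X + d.m)))

/-- The context without the positions of the places. -/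
noncomputable def w (ω : Ω) : β × (VamV k K × (Fin c → Fin K → ℤ)) :=
  (d.z ω, (d.va K ω, fun i a => d.nu K ω i a.succ))

/-- The line without the positions of the places. -/
noncomputable def l (ω : Ω) : (Fin k → Fin (K + 1) → ℤ) × (Fin c → Fin K → ℤ) :=
  (d.ac K ω, fun i a => d.nc K ω i a.succ)

variable {d K}

theorem g_of {ω ω' : Ω} (h : d.L K ω = d.L K ω') : d.g K ω = d.g K ω' := by
  obtain ⟨h1, h2⟩ := Prod.ext_iff.mp h
  obtain ⟨h3, h4⟩ := Prod.ext_iff.mp h2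
  have h1' : d.z ω = d.z ω' := h1
  have h3' : d.ac K ω = d.ac K ω' := h3
  have h4' : d.nc K ω = d.nc K ω' := h4
  unfold g va nu
  rw [h1', h3', h4']

theorem nv_of {ω ω' : Ω} (h : d.L K ω = d.L K ω') : d.nv K ω = d.nv K ω' := by
  obtain ⟨h1, h2⟩ := Prod.ext_iff.mp h
  obtain ⟨h3, h4⟩ := Prod.ext_iff.mp h2
  have h3' : d.ac K ω = d.ac K ω' := h3
  have h4' : d.nc K ω = d.nc K ω' := h4
  refine Prod.ext (funext fun j => ?_) (funext fun i => funext fun a => ?_)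
  · show d.Y K ω j = d.Y K ω' j
    unfold Y
    rw [h3']
  · show d.C K ω i a = d.C K ω' i a
    unfold C nr
    rw [h4']

theorem nr_of {ω ω' : Ω} (h : d.L K ω = d.L K ω') : d.nr K ω = d.nr K ω' := by
  obtain ⟨h1, h2⟩ := Prod.ext_iff.mp h
  obtain ⟨h3, h4⟩ := Prod.ext_iff.mp h2
  have h4' : d.nc K ω = d.nc K ω' := h4
  funext i a
  unfold nr
  rw [h4']

theorem Y_mem (ω : Ω) (j : Fin k) : 0 ≤ d.Y K ω j ∧ d.Y K ω j < 2 ^ d.X := by
  have p1 : (0 : ℤ) < 2 ^ (d.X + d.m) := by positivity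
  have p2 : (0 : ℤ) < 2 ^ d.m := by positivity
  unfold Y
  constructor
  · exact Int.ediv_nonneg (Int.emod_nonneg _ p1.ne') p2.le
  · refine Int.ediv_lt_of_lt_mul p2 ?_
    exact (Int.emod_lt_of_pos (d.ac K ω j 0) p1).trans_le (le_of_eq (pow_add _ _ _))

theorem nr_mem (ω : Ω) (i : Fin c) (a : Fin (K + 1)) :
    0 ≤ d.nr K ω i a ∧ d.nr K ω i a < 2 ^ d.Xp i := by
  have p1 : (0 : ℤ) < 2 ^ d.Xp i := by positivity
  exact ⟨Int.emod_nonneg _ p1.ne', Int.emod_lt_of_pos _ p1⟩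

/-- The digits of the position. -/
theorem ac_eq (ω : Ω) (j : Fin k) : d.ac K ω j 0 =
    d.ac K ω j 0 / 2 ^ (d.X + d.m) * 2 ^ (d.X + d.m) + (d.Y K ω j * 2 ^ d.m +
      d.ac K ω j 0 % 2 ^ d.m) := by
  unfold Y
  have h1 := Int.mul_ediv_add_emod (d.ac K ω j 0) (2 ^ (d.X + d.m))
  have h2 := Int.mul_ediv_add_emod (d.ac K ω j 0 % 2 ^ (d.X + d.m)) (2 ^ d.m)
  have h3 : d.ac K ω j 0 % 2 ^ (d.X + d.m) % 2 ^ d.m = d.ac K ω j 0 % 2 ^ d.m :=
    Int.emod_emod_of_dvd _ (Dvd.intro_left (2 ^ d.X) (by rw [pow_add]))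
  rw [h3] at h2
  linarith

theorem nc_eq (ω : Ω) (i : Fin c) (a : Fin (K + 1)) : d.nc K ω i a =
    d.nu K ω i a * 2 ^ d.Xp i + d.nr K ω i a := by
  unfold nr nu
  have h1 := Int.mul_ediv_add_emod (d.nc K ω i a) (2 ^ d.Xp i)
  linarith

/-- The part of the height which the time and the context know. -/
noncomputable def kn (d : VD Ω β c k) (K : ℕ) (ω : Ω) (i : Fin c) : ℝ :=
  ∑ a : Fin (K + 1), 2 ^ d.Xp i * ((d.nu K ω i a : ℤ) : ℝ) * d.th ω ^ (a : ℕ) -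
  ∑ j, d.bb ω i j * (2 ^ d.X * ((d.ac K ω j 0 / 2 ^ (d.X + d.m) : ℤ) : ℝ) +
    ((d.ac K ω j 0 % 2 ^ d.m : ℤ) : ℝ) / 2 ^ d.m +
    ∑ a : Fin K, (d.ac K ω j a.succ : ℝ) / 2 ^ d.m * d.th ω ^ (a.val + 1))

theorem kn_of {ω ω' : Ω} (hT : d.T ω = d.T ω') (hg : d.g K ω = d.g K ω') :
    kn d K ω = kn d K ω' := by
  have t1 : d.th ω = d.th ω' := (Prod.ext_iff.mp hT).1
  have t2 : d.bb ω = d.bb ω' := (Prod.ext_iff.mp hT).2
  obtain ⟨_, g2⟩ := Prod.ext_iff.mp hg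
  obtain ⟨g3, g4⟩ := Prod.ext_iff.mp g2
  obtain ⟨g5, g6⟩ := Prod.ext_iff.mp g3
  obtain ⟨g7, g8⟩ := Prod.ext_iff.mp g6
  have e1 : d.nu K ω = d.nu K ω' := g4
  have e2 : ∀ j (a : Fin K), d.ac K ω j a.succ = d.ac K ω' j a.succ := fun j a =>
    congrFun (congrFun g5 j) a
  have e3 : ∀ j, d.ac K ω j 0 / 2 ^ (d.X + d.m) = d.ac K ω' j 0 / 2 ^ (d.X + d.m) := fun j =>
    congrFun g7 j
  have e4 : ∀ j, d.ac K ω j 0 % 2 ^ d.m = d.ac K ω' j 0 % 2 ^ d.m := fun j => congrFun g8 j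
  funext i
  unfold kn
  simp only [t1, t2, e1, e2, e3, e4]

/-- **The own height is the number plus a part known from time and context.** -/
theorem Q_val {ω : Ω} (hth : 0 ≤ d.th ω ∧ d.th ω < 1) (i : Fin c)
    (hP : (d.P ω i).natDegree ≤ K) (hA : ∀ j, (d.A ω j).natDegree ≤ K)
    (hb : ∀ j, |d.bb ω i j| ≤ 2 ^ d.m) :
    |d.Q ω i - d.val K ω i - kn d K ω i| ≤ (K + 1) * (k + 1) := by
  have hX : (0 : ℝ) < 2 ^ d.X := by positivity
  have hm : (0 : ℝ) < 2 ^ d.m := by positivity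
  obtain ⟨f, hf⟩ : ∃ f : Fin (K + 1) → ℝ, ∀ a : Fin (K + 1),
      2 ^ d.Xp i * (d.P ω i).coeff (a : ℕ) = d.nc K ω i a + f a ∧ 0 ≤ f a ∧ f a ≤ 1 := by
    refine ⟨fun a => 2 ^ d.Xp i * (d.P ω i).coeff (a : ℕ) - d.nc K ω i a, fun a => ⟨?_, ?_, ?_⟩⟩
    · ring
    · have h := Int.floor_le ((2 : ℝ) ^ d.Xp i * (d.P ω i).coeff (a : ℕ))
      have h' : (d.nc K ω i a : ℝ) = ⌊(2 : ℝ) ^ d.Xp i * (d.P ω i).coeff (a : ℕ)⌋ := rfl
      show 0 ≤ 2 ^ d.Xp i * (d.P ω i).coeff (a : ℕ) - d.nc K ω i a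
      rw [h']
      linarith
    · have h := Int.lt_floor_add_one ((2 : ℝ) ^ d.Xp i * (d.P ω i).coeff (a : ℕ))
      have h' : (d.nc K ω i a : ℝ) = ⌊(2 : ℝ) ^ d.Xp i * (d.P ω i).coeff (a : ℕ)⌋ := rfl
      show 2 ^ d.Xp i * (d.P ω i).coeff (a : ℕ) - d.nc K ω i a ≤ 1
      rw [h']
      linarith
  obtain ⟨e, he⟩ : ∃ e : Fin k → Fin (K + 1) → ℝ, ∀ j (a : Fin (K + 1)),
      2 ^ d.X * (d.A ω j).coeff (a : ℕ) = (d.ac K ω j a + e j a) / 2 ^ d.m ∧
      0 ≤ e j a ∧ e j a ≤ 1 := by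
    refine ⟨fun j a => 2 ^ (d.X + d.m) * (d.A ω j).coeff (a : ℕ) - d.ac K ω j a, fun j a =>
      ⟨?_, ?_, ?_⟩⟩
    · show 2 ^ d.X * (d.A ω j).coeff (a : ℕ) = (d.ac K ω j a +
        (2 ^ (d.X + d.m) * (d.A ω j).coeff (a : ℕ) - d.ac K ω j a)) / 2 ^ d.m
      rw [add_sub_cancel, pow_add]
      field_simp
    · have h := Int.floor_le ((2 : ℝ) ^ (d.X + d.m) * (d.A ω j).coeff (a : ℕ))
      have h' : (d.ac K ω j a : ℝ) = ⌊(2 : ℝ) ^ (d.X + d.m) * (d.A ω j).coeff (a : ℕ)⌋ := rfl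
      show 0 ≤ 2 ^ (d.X + d.m) * (d.A ω j).coeff (a : ℕ) - d.ac K ω j a
      rw [h']
      linarith
    · have h := Int.lt_floor_add_one ((2 : ℝ) ^ (d.X + d.m) * (d.A ω j).coeff (a : ℕ))
      have h' : (d.ac K ω j a : ℝ) = ⌊(2 : ℝ) ^ (d.X + d.m) * (d.A ω j).coeff (a : ℕ)⌋ := rfl
      show 2 ^ (d.X + d.m) * (d.A ω j).coeff (a : ℕ) - d.ac K ω j a ≤ 1
      rw [h']
      linarith
  -- the place
  have h1 : 2 ^ d.Xp i * (d.P ω i).eval (d.th ω) =
      ∑ a : Fin (K + 1), (d.nr K ω i a : ℝ) * d.th ω ^ (a : ℕ) +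
      ∑ a : Fin (K + 1), 2 ^ d.Xp i * ((d.nu K ω i a : ℤ) : ℝ) * d.th ω ^ (a : ℕ) +
      ∑ a : Fin (K + 1), f a * d.th ω ^ (a : ℕ) := by
    rw [Pool.AVG71.AD.eval_fin hP, Finset.mul_sum, ← Finset.sum_add_distrib,
      ← Finset.sum_add_distrib]
    refine Finset.sum_congr rfl fun a _ => ?_
    have e1 := nc_eq (d := d) (K := K) ω i a
    have e2 : (d.nc K ω i a : ℝ) = ((d.nu K ω i a : ℤ) : ℝ) * 2 ^ d.Xp i + d.nr K ω i a := by
      exact_mod_cast e1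
    rw [← mul_assoc, (hf a).1, ← add_mul, ← add_mul]
    congr 1
    linarith
  -- one coordinate
  have h2 : ∀ j, 2 ^ d.X * (d.A ω j).eval (d.th ω) = d.Y K ω j +
      (2 ^ d.X * ((d.ac K ω j 0 / 2 ^ (d.X + d.m) : ℤ) : ℝ) +
        ((d.ac K ω j 0 % 2 ^ d.m : ℤ) : ℝ) / 2 ^ d.m +
        ∑ a : Fin K, (d.ac K ω j a.succ : ℝ) / 2 ^ d.m * d.th ω ^ (a.val + 1)) +
      (∑ a : Fin (K + 1), e j a * d.th ω ^ (a : ℕ)) / 2 ^ d.m := by
    intro j
    have e1 := ac_eq (d := d) (K := K) ω j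
    have e2 : (d.ac K ω j 0 : ℝ) = ((d.ac K ω j 0 / 2 ^ (d.X + d.m) : ℤ) : ℝ) *
        2 ^ (d.X + d.m) + (d.Y K ω j * 2 ^ d.m + ((d.ac K ω j 0 % 2 ^ d.m : ℤ) : ℝ)) := by
      exact_mod_cast e1
    have e3 : 2 ^ d.X * (d.A ω j).eval (d.th ω) =
        ∑ a : Fin (K + 1), (d.ac K ω j a : ℝ) / 2 ^ d.m * d.th ω ^ (a : ℕ) +
        (∑ a : Fin (K + 1), e j a * d.th ω ^ (a : ℕ)) / 2 ^ d.m := by
      rw [Pool.AVG71.AD.eval_fin (hA j), Finset.mul_sum, Finset.sum_div,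
        ← Finset.sum_add_distrib]
      refine Finset.sum_congr rfl fun a _ => ?_
      rw [← mul_assoc, (he j a).1]
      ring
    rw [e3, Fin.sum_univ_succ]
    simp only [Fin.val_zero, pow_zero, mul_one, Fin.val_succ]
    rw [e2, pow_add]
    field_simp
    ring
  -- the rest
  have h3 : d.Q ω i - d.val K ω i - kn d K ω i = ∑ a : Fin (K + 1), f a * d.th ω ^ (a : ℕ) -
      ∑ j, d.bb ω i j * ((∑ a : Fin (K + 1), e j a * d.th ω ^ (a : ℕ)) / 2 ^ d.m) := by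
    unfold Q val kn
    rw [h1, Finset.mul_sum]
    have e1 : ∑ j, 2 ^ d.X * (d.bb ω i j * (d.A ω j).eval (d.th ω)) =
        ∑ j, d.bb ω i j * (d.Y K ω j : ℝ) + ∑ j, d.bb ω i j *
        (2 ^ d.X * ((d.ac K ω j 0 / 2 ^ (d.X + d.m) : ℤ) : ℝ) +
        ((d.ac K ω j 0 % 2 ^ d.m : ℤ) : ℝ) / 2 ^ d.m +
        ∑ a : Fin K, (d.ac K ω j a.succ : ℝ) / 2 ^ d.m * d.th ω ^ (a.val + 1)) +
        ∑ j, d.bb ω i j * ((∑ a : Fin (K + 1), e j a * d.th ω ^ (a : ℕ)) / 2 ^ d.m) := by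
      rw [← Finset.sum_add_distrib, ← Finset.sum_add_distrib]
      refine Finset.sum_congr rfl fun j _ => ?_
      rw [mul_left_comm, h2 j]
      ring
    rw [e1]
    ring
  have hpow : ∀ a : ℕ, 0 ≤ d.th ω ^ a ∧ d.th ω ^ a ≤ 1 := fun a =>
    ⟨pow_nonneg hth.1 _, pow_le_one₀ hth.1 hth.2.le⟩
  have h4 : |∑ a : Fin (K + 1), f a * d.th ω ^ (a : ℕ)| ≤ K + 1 := by
    refine (Finset.abs_sum_le_sum_abs _ _).trans ?_
    have h5 : ∀ a ∈ (univ : Finset (Fin (K + 1))), |f a * d.th ω ^ (a : ℕ)| ≤ 1 := by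
      intro a _
      rw [abs_mul, abs_of_nonneg (hf a).2.1, abs_of_nonneg (hpow a).1]
      exact mul_le_one₀ (hf a).2.2 (hpow a).1 (hpow a).2
    refine (Finset.sum_le_sum h5).trans (le_of_eq ?_)
    rw [Finset.sum_const, Finset.card_univ, Fintype.card_fin, nsmul_eq_mul, mul_one]
    push_cast
    ring
  have h5 : ∀ j, |∑ a : Fin (K + 1), e j a * d.th ω ^ (a : ℕ)| ≤ K + 1 := by
    intro j
    refine (Finset.abs_sum_le_sum_abs _ _).trans ?_
    have h5 : ∀ a ∈ (univ : Finset (Fin (K + 1))), |e j a * d.th ω ^ (a : ℕ)| ≤ 1 := by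
      intro a _
      rw [abs_mul, abs_of_nonneg (he j a).2.1, abs_of_nonneg (hpow a).1]
      exact mul_le_one₀ (he j a).2.2 (hpow a).1 (hpow a).2
    refine (Finset.sum_le_sum h5).trans (le_of_eq ?_)
    rw [Finset.sum_const, Finset.card_univ, Fintype.card_fin, nsmul_eq_mul, mul_one]
    push_cast
    ring
  have h6 : |∑ j, d.bb ω i j * ((∑ a : Fin (K + 1), e j a * d.th ω ^ (a : ℕ)) / 2 ^ d.m)| ≤
      k * (K + 1) := by
    refine (Finset.abs_sum_le_sum_abs _ _).trans ?_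
    have h7 : ∀ j ∈ (univ : Finset (Fin k)), |d.bb ω i j *
        ((∑ a : Fin (K + 1), e j a * d.th ω ^ (a : ℕ)) / 2 ^ d.m)| ≤ K + 1 := by
      intro j _
      rw [abs_mul, abs_div, abs_of_pos hm, mul_div_assoc', div_le_iff₀ hm, mul_comm]
      exact mul_le_mul (h5 j) (hb j) (abs_nonneg _) (by positivity)
    refine (Finset.sum_le_sum h7).trans (le_of_eq ?_)
    rw [Finset.sum_const, Finset.card_univ, Fintype.card_fin, nsmul_eq_mul]
  rw [h3]
  have h7 := abs_le.mp h4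
  have h8 := abs_le.mp h6
  rw [abs_le]
  constructor <;> nlinarith [h7.1, h7.2, h8.1, h8.2]

/-! ### Context, line and time -/

theorem det_wv (p : Ω → ℝ) : Det p (d.w K) (d.v K) := by
  intro ω ω' _ _ e
  obtain ⟨e1, e2⟩ := Prod.ext_iff.mp e
  obtain ⟨e3, _⟩ := Prod.ext_iff.mp e2
  obtain ⟨e5, e6⟩ := Prod.ext_iff.mp e3
  obtain ⟨e7, _⟩ := Prod.ext_iff.mp e6
  exact Prod.ext e1 (Prod.ext e5 e7)

theorem det_gw (p : Ω → ℝ) : Det p (d.g K) (d.w K) := by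
  intro ω ω' _ _ e
  obtain ⟨e1, e2⟩ := Prod.ext_iff.mp e
  obtain ⟨e3, e4⟩ := Prod.ext_iff.mp e2
  refine Prod.ext e1 (Prod.ext e3 ?_)
  funext i a
  exact congrFun (congrFun e4 i) a.succ

/-- Context from base data, digits of the base coordinates and upper digits of the places. -/
theorem det_g (p : Ω → ℝ) : Det p (fun ω => (d.w K ω, d.nu K ω)) (d.g K) := by
  intro ω ω' _ _ e
  obtain ⟨e1, e2⟩ := Prod.ext_iff.mp e
  obtain ⟨e3, e4⟩ := Prod.ext_iff.mp e1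
  obtain ⟨e5, _⟩ := Prod.ext_iff.mp e4
  exact Prod.ext e3 (Prod.ext e5 e2)

theorem det_g' (p : Ω → ℝ) : Det p (fun ω => (d.v K ω, ((fun j => d.ac K ω j 0 % 2 ^ d.m),
    d.nu K ω))) (d.g K) := by
  intro ω ω' _ _ e
  obtain ⟨e1, e2⟩ := Prod.ext_iff.mp e
  obtain ⟨e3, e4⟩ := Prod.ext_iff.mp e2
  obtain ⟨e5, e6⟩ := Prod.ext_iff.mp e1
  obtain ⟨e7, e8⟩ := Prod.ext_iff.mp e6
  exact Prod.ext e5 (Prod.ext (Prod.ext e7 (Prod.ext e8 e3)) e4)

/-- The line without the positions of the places determines the numbers. -/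
theorem det_l (p : Ω → ℝ) : Det p (fun ω => (d.z ω, d.l K ω))
    (fun ω => (d.nv K ω, d.w K ω)) := by
  intro ω ω' _ _ e
  obtain ⟨e1, e2⟩ := Prod.ext_iff.mp e
  obtain ⟨e3, e4⟩ := Prod.ext_iff.mp e2
  have e1' : d.z ω = d.z ω' := e1
  have e3' : d.ac K ω = d.ac K ω' := e3
  have e5 : ∀ i (a : Fin K), d.nc K ω i a.succ = d.nc K ω' i a.succ := fun i a =>
    congrFun (congrFun e4 i) a
  refine Prod.ext (Prod.ext (funext fun j => ?_) (funext fun i => funext fun a => ?_)) ?_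
  · show d.Y K ω j = d.Y K ω' j
    unfold Y
    rw [e3']
  · show d.C K ω i a = d.C K ω' i a
    unfold C nr
    rw [e5]
  · show d.w K ω = d.w K ω'
    unfold w va nu
    simp only [e1', e3', e5]

end VD

end Pool.LV64
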