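import Pool.Agent.H64.LV.Pic
import Pool.Agent.H21.FS.Pl

/-!
# Closed gradients of one place, with side places

`VD.Hyp.fsh`: `FsH` for the picture of the own paths, from the row of the place `i0` given the digits
of the side places. `vd_clo`: the gradient of the place `i0` is a polynomial of the time with
coefficients which are functions of the line.
-/

set_option autoImplicit false

namespace Pool.LV64

open Finset Real
open Pool.Agent.H49.Ent Pool.Agent.H32.Dense Pool.STK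
open Pool.AVG71 (MI_eq MI_eq' CH_pair_int)
open Pool.BD64 (QHd pol)
open Pool.FS21 (FsH oth fs)
open Pool.K2S (Pe)
open Pool.BFL (Pb)

namespace VD

variable {Ω β : Type} {c k : ℕ} {d : VD Ω β c k} {K : ℕ}

section law

variable [Fintype Ω] {ρ₁ ρ₂ ν₁ ν₂ σ₁ σ₂ υ : Type} {p : Ω → ℝ} {Rj : Ω → ρ₁} {Rx : Ω → ρ₂}
  {nj : Ω → ν₁} {nx : Ω → ν₂} {bj : Ω → σ₁} {bx : Ω → σ₂} {V : Ω → υ} {M : Ω → Fin c → ℤ}
  {F e B : ℝ}

/-- Differences of the heights. -/
theorem Hyp.hzd (H : d.Hyp K p Rj Rx nj nx bj bx V M F e B) {ω ω' : Ω} (hω : 0 < p ω)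
    (hω' : 0 < p ω') (e1 : V ω = V ω') (e2 : d.T ω = d.T ω') (e3 : d.g K ω = d.g K ω')
    (i : Fin c) (e4 : M ω i = M ω' i) :
    |(d.hz K ω i : ℝ) - d.hz K ω' i| ≤ B + 2 * ((K + 1) * (k + 1)) + 4 := by
  have h1 := H.dif hω hω' e1 e2 e3 i
  rw [e4] at h1
  have hm : (1 : ℝ) ≤ 2 ^ d.m := one_le_pow₀ (by norm_num)
  have hm0 : (0 : ℝ) < 2 ^ d.m := by positivity
  have hB := H.B0
  have hb : 0 ≤ B + 2 * (((K : ℝ) + 1) * (k + 1)) := by positivity
  have h2 : |d.val K ω i / 2 ^ d.m - d.val K ω' i / 2 ^ d.m| ≤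
      B + 2 * ((K + 1) * (k + 1)) := by
    rw [← sub_div, abs_div, abs_of_pos hm0, div_le_iff₀ hm0]
    have h3 : |d.val K ω i - d.val K ω' i| ≤ B + 2 * ((K + 1) * (k + 1)) := by
      refine le_trans (le_of_eq ?_) h1
      congr 1
      ring
    exact h3.trans (le_mul_of_one_le_right hb hm)
  have g2 := abs_le.1 (hz_val (d := d) (K := K) ω i)
  have g3 := abs_le.1 (hz_val (d := d) (K := K) ω' i)
  have g4 := abs_le.1 h2
  rw [abs_le]
  constructor <;> linarith [g2.1, g2.2, g3.1, g3.2, g4.1, g4.2]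

/-- Differences of the digits. -/
theorem Hyp.Mzd (H : d.Hyp K p Rj Rx nj nx bj bx V M F e B) {ω ω' : Ω} (hω : 0 < p ω)
    (hω' : 0 < p ω') (e1 : V ω = V ω') (e2 : d.T ω = d.T ω') (e3 : d.g K ω = d.g K ω')
    (i : Fin c) (e4 : d.hz K ω i = d.hz K ω' i) :
    |(M ω i : ℝ) - M ω' i| ≤ 4 * 2 ^ d.m + (B + 2 * ((K + 1) * (k + 1))) := by
  have h1 := abs_le.1 (H.dif hω hω' e1 e2 e3 i)
  have hm0 : (0 : ℝ) < 2 ^ d.m := by positivity
  have g2 := abs_le.1 (hz_val (d := d) (K := K) ω i)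
  have g3 := abs_le.1 (hz_val (d := d) (K := K) ω' i)
  rw [e4] at g2
  have h2 : |d.val K ω i - d.val K ω' i| ≤ 4 * 2 ^ d.m := by
    have h3 : |d.val K ω i / 2 ^ d.m - d.val K ω' i / 2 ^ d.m| ≤ 4 := by
      rw [abs_le]
      constructor <;> linarith [g2.1, g2.2, g3.1, g3.2]
    rwa [← sub_div, abs_div, abs_of_pos hm0, div_le_iff₀ hm0] at h3
  have h4 := abs_le.1 h2
  rw [abs_le]
  constructor <;> linarith [h1.1, h1.2, h4.1, h4.2]

/-- The bound of the row for the heights. -/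
noncomputable def Er (c k K m : ℕ) (B : ℝ) : ℝ :=
  c * Real.log (2 * (4 * 2 ^ m + (B + 2 * ((K + 1) * (k + 1)))) + 1) +
    Real.log (2 * (B + 2 * ((K + 1) * (k + 1)) + 4) + 1)

/-- **The row of the heights** from the row of the digits. -/
theorem Hyp.rowz (H : d.Hyp K p Rj Rx nj nx bj bx V M F e B) {q : Ω → ℝ} (hq : IsLaw q)
    (hqp : ∀ ω, 0 < q ω → 0 < p ω) (i0 : Fin c) {U : ℝ}
    (hU : CH q (fun ω => M ω i0) (fun ω => (oth i0 (M ω), (V ω, (d.T ω, d.g K ω)))) ≤ U) :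
    CH q (d.hz K) (fun ω => (oth i0 (d.hz K ω), (V ω, (d.T ω, d.g K ω)))) ≤
      U + Er c k K d.m B := by
  have h0 := hq.nonneg
  have hB := H.B0
  have hb : 0 ≤ B + 2 * (((K : ℝ) + 1) * (k + 1)) := by positivity
  have hpm : (0 : ℝ) < 2 ^ d.m := by positivity
  obtain ⟨W, hW⟩ : ∃ W : Ω → _, W = fun ω => (oth i0 (d.hz K ω), (V ω, (d.T ω, d.g K ω))) :=
    ⟨_, rfl⟩
  rw [← hW]
  have s1 : CH q (d.hz K) W ≤ CH q (fun ω => d.hz K ω i0) W := by
    have a1 := CH_le_add h0 (d.hz K) (fun ω => d.hz K ω i0) W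
    have a2 : CH q (d.hz K) (fun ω => (d.hz K ω i0, W ω)) = 0 := by
      refine CH_eq_zero h0 fun ω ω' _ _ e => ?_
      obtain ⟨e1, e2⟩ := Prod.ext_iff.mp e
      rw [hW] at e2
      have e3 := (Prod.ext_iff.mp e2).1
      funext i
      by_cases hi : i = i0
      · rw [hi]
        exact e1
      · have e4 : oth i0 (d.hz K ω) i = oth i0 (d.hz K ω') i := congrFun e3 i
        unfold oth at e4
        rwa [if_neg hi, if_neg hi] at e4
    linarith
  have s2 := CH_le_add h0 (fun ω => d.hz K ω i0) (fun ω => (M ω i0, oth i0 (M ω))) W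
  have s3 : CH q (fun ω => d.hz K ω i0) (fun ω => ((M ω i0, oth i0 (M ω)), W ω)) ≤
      Real.log (2 * (B + 2 * ((K + 1) * (k + 1)) + 4) + 1) := by
    refine CH_pair_int hq _ _ (by linarith) fun ω ω' hω hω' e => ?_
    obtain ⟨e1, e2⟩ := Prod.ext_iff.mp e
    rw [hW] at e2
    obtain ⟨_, e3⟩ := Prod.ext_iff.mp e2
    obtain ⟨e4, e5⟩ := Prod.ext_iff.mp e3
    obtain ⟨e6, e7⟩ := Prod.ext_iff.mp e5
    exact H.hzd (hqp ω hω) (hqp ω' hω') e4 e6 e7 i0 (Prod.ext_iff.mp e1).1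
  have s4 := CH_chain h0 (fun ω => M ω i0) (fun ω => oth i0 (M ω)) W
  have s5 : CH q (fun ω => M ω i0) (fun ω => (oth i0 (M ω), W ω)) ≤ U := by
    refine le_trans (CH_mono_cond h0 fun ω ω' _ _ e => ?_) hU
    obtain ⟨e1, e2⟩ := Prod.ext_iff.mp e
    rw [hW] at e2
    exact Prod.ext e1 (Prod.ext_iff.mp e2).2
  have s6 : CH q (fun ω => oth i0 (M ω)) W ≤
      c * Real.log (2 * (4 * 2 ^ d.m + (B + 2 * ((K + 1) * (k + 1)))) + 1) := by
    refine Pool.OWN83.CH_vec (p := q) h0 W c (fun ω => oth i0 (M ω)) fun i => ?_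
    refine CH_pair_int hq _ _ (by linarith) fun ω ω' hω hω' e => ?_
    rw [hW] at e
    obtain ⟨e1, e3⟩ := Prod.ext_iff.mp e
    obtain ⟨e4, e5⟩ := Prod.ext_iff.mp e3
    obtain ⟨e6, e7⟩ := Prod.ext_iff.mp e5
    have e8 : oth i0 (d.hz K ω) i = oth i0 (d.hz K ω') i := congrFun e1 i
    unfold oth
    by_cases hi : i = i0
    · rw [if_pos hi, if_pos hi, sub_self, abs_zero]
      linarith
    · rw [if_neg hi, if_neg hi]
      unfold oth at e8
      rw [if_neg hi, if_neg hi] at e8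
      exact H.Mzd (hqp ω hω) (hqp ω' hω') e4 e6 e7 i e8
  unfold Er
  linarith

/-- **`FsH` for the picture.** -/
theorem Hyp.fsh (H : d.Hyp K p Rj Rx nj nx bj bx V M F e B) {ω₀ : Ω} (hω₀ : 0 < p ω₀)
    (ht : d.X * Real.log 2 - e ≤ CH p (fun ω => ⌊(2 : ℝ) ^ d.X * d.th ω⌋) (d.L K))
    (i0 : Fin c) (hside : ∀ ω, 0 < p ω → ∀ i, i ≠ i0 → ∀ j, d.bb ω i j = 0) {U π₀ h dd : ℝ}
    (hπ : 0 < π₀)
    (hrow : ∀ G : Ω → Prop, π₀ ≤ Pe p G → CH (cond p G True) (fun ω => M ω i0)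
      (fun ω => (oth i0 (M ω), (V ω, (d.T ω, d.g K ω)))) ≤ U)
    (hU : U + Er c k K d.m B ≤ (1 - h) * d.X * Real.log 2 + dd) (hdd : Dv c k d.m e ≤ dd) :
    FsH (d.pic K p ω₀) (fun ω : Ω => (d.T ω, d.g K ω)) V (d.pic K p ω₀).hgt
      (fun _ _ _ _ => 0) i0 d.X (Cv k K) dd h π₀ := by
  have h0 := H.law.nonneg
  have hok := H.ok hω₀ ht
  have hC : (0 : ℝ) ≤ Cv k K := by
    unfold Cv
    positivity
  have hok' : (d.pic K p ω₀).OkNS d.X (Cv k K) dd :=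
    ⟨hok.law, hok.tau_r, hok.y_r, hok.E_b, hok.be_b, hok.hgt_b, hok.g_eq, hok.h0.trans hdd,
      hok.h2.trans hdd, le_trans (by linarith) hok.y_f, le_trans (by linarith) hok.t_f⟩
  refine ⟨hok', ?_, fun ω i => hok.hgt_b ω i, ?_, ?_, ?_, ?_⟩
  · intro ω u i hi
    change d.bb (rr p ω₀ ω) i u / 2 ^ d.m = 0
    rw [hside _ (rr_pos hω₀ ω) i hi u, zero_div]
  · intro ω _ i
    rw [sub_zero, sub_self, abs_zero]
    exact hC
  · -- near digits and heights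
    have h1 := H.wd H.hzx
    have e0 : CH p (d.hz K) (fun ω => (d.T ω, d.g K ω)) -
        CH p (d.hz K) (fun ω => (V ω, (d.T ω, d.g K ω))) =
        CH p V (fun ω => (d.T ω, d.g K ω)) - CH p V (fun ω => (d.hz K ω, (d.T ω, d.g K ω))) := by
      rw [← MI_eq h0, ← MI_eq' h0]
    have e1 : CH p (d.pic K p ω₀).hgt (fun ω => ((d.pic K p ω₀).th ω, (d.pic K p ω₀).b ω)) =
        CH p (d.hz K) (fun ω => (d.T ω, d.g K ω)) :=
      CH_rr (ω₀ := ω₀) h0 (d.hz K) (fun ω => (d.T ω, d.g K ω))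
    have e2 : CH p (d.pic K p ω₀).hgt (fun ω => (V ω, ((d.pic K p ω₀).th ω,
        (d.pic K p ω₀).b ω))) =
        CH p (d.hz K) (fun ω => (V ω, (d.T ω, d.g K ω))) := by
      refine CH_congr h0 (fun ω ω' a b e => ?_) (fun ω ω' a b e => ?_) (fun ω ω' a b e => ?_)
        (fun ω ω' a b e => ?_)
      · have e1 : d.hz K (rr p ω₀ ω) = d.hz K (rr p ω₀ ω') := (Prod.ext_iff.mp e).1
        rwa [rr_eq a, rr_eq b] at e1
      · have e1 : d.hz K ω = d.hz K ω' := (Prod.ext_iff.mp e).1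
        show d.hz K (rr p ω₀ ω) = d.hz K (rr p ω₀ ω')
        rwa [rr_eq a, rr_eq b]
      · obtain ⟨e3, e4⟩ := Prod.ext_iff.mp e
        have e5 : (d.T (rr p ω₀ ω), d.g K (rr p ω₀ ω)) = (d.T (rr p ω₀ ω'), d.g K (rr p ω₀ ω')) :=
          e4
        rw [rr_eq a, rr_eq b] at e5
        exact Prod.ext e3 e5
      · obtain ⟨e3, e4⟩ := Prod.ext_iff.mp e
        refine Prod.ext e3 ?_
        show (d.T (rr p ω₀ ω), d.g K (rr p ω₀ ω)) = (d.T (rr p ω₀ ω'), d.g K (rr p ω₀ ω'))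
        rw [rr_eq a, rr_eq b]
        exact e4
    refine le_trans (le_of_eq (congrArg₂ (fun x y : ℝ => x - y) e1 e2)) ?_
    have he := H.e0
    have hkm : 0 ≤ k * d.m * Real.log 2 := by
      have := Real.log_pos (show (1 : ℝ) < 2 by norm_num)
      positivity
    refine le_trans ?_ hdd
    unfold Dv
    linarith
  · -- the record of the row
    intro (ω : Ω) (ω' : Ω) (a : 0 < p ω) (b : 0 < p ω') e
    obtain ⟨_, e4⟩ := Prod.ext_iff.mp e
    have e5 : (d.T (rr p ω₀ ω), d.g K (rr p ω₀ ω)) = (d.T (rr p ω₀ ω'), d.g K (rr p ω₀ ω')) := e4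
    rw [rr_eq a, rr_eq b] at e5
    exact e5
  · -- the row
    intro G hG
    have hG0 : 0 < Pe p G := hπ.trans_le hG
    have hql : IsLaw (cond p G True) :=
      ⟨cond_nonneg h0 G True, sum_cond p G hG0.ne'⟩
    have hqp : ∀ ω, 0 < cond p G True ω → 0 < p ω := fun ω hω =>
      ((cond_pos_iff h0 G True ω).mp hω).1
    have h1 := H.rowz hql hqp i0 (hrow G hG)
    have e1 : CH (cond p G True) (d.pic K p ω₀).hgt (fun ω => (oth i0 ((d.pic K p ω₀).hgt ω),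
        (V ω, (d.T ω, d.g K ω)))) =
        CH (cond p G True) (d.hz K) (fun ω => (oth i0 (d.hz K ω), (V ω, (d.T ω, d.g K ω)))) := by
      refine CH_congr hql.nonneg (fun ω ω' a b e => ?_) (fun ω ω' a b e => ?_)
        (fun ω ω' a b e => ?_) (fun ω ω' a b e => ?_)
      · have e1 : d.hz K (rr p ω₀ ω) = d.hz K (rr p ω₀ ω') := (Prod.ext_iff.mp e).1
        rwa [rr_eq (hqp ω a), rr_eq (hqp ω' b)] at e1
      · have e1 : d.hz K ω = d.hz K ω' := (Prod.ext_iff.mp e).1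
        show d.hz K (rr p ω₀ ω) = d.hz K (rr p ω₀ ω')
        rwa [rr_eq (hqp ω a), rr_eq (hqp ω' b)]
      · obtain ⟨e3, e4⟩ := Prod.ext_iff.mp e
        have e5 : oth i0 (d.hz K (rr p ω₀ ω)) = oth i0 (d.hz K (rr p ω₀ ω')) := e3
        rw [rr_eq (hqp ω a), rr_eq (hqp ω' b)] at e5
        exact Prod.ext e5 e4
      · obtain ⟨e3, e4⟩ := Prod.ext_iff.mp e
        refine Prod.ext ?_ e4
        show oth i0 (d.hz K (rr p ω₀ ω)) = oth i0 (d.hz K (rr p ω₀ ω'))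
        rw [rr_eq (hqp ω a), rr_eq (hqp ω' b)]
        exact e3
    refine le_trans (le_of_eq e1) (h1.trans hU)

end law

end VD

end Pool.LV64
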