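import Pool.Agent.H64.LV.Def

/-!
# Own paths of several places: the entropies

`VD.Hyp`: the hypotheses on one law (records `Rj`, `Rx` of two balls, natural digits `nj`, `nx` of the
families, deep digits `bj`, `bx`, near digits `V` of the base coordinates, digits `M` of the places).
`VD.hz`: the heights, in units of `2 ^ m` last digits.
-/

set_option autoImplicit false

namespace Pool.LV64

open Finset Real
open Pool.Agent.H49.Ent Pool.Agent.H32.Dense Pool.STK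
open Pool.AVG71 (MI_eq MI_eq' mi_near mi_few mi_two CH_pair_int)
open Pool.OWN68 (CH_chain2)
open Pool.KVA (MI)

namespace VD

variable {Ω β : Type} {c k : ℕ} (d : VD Ω β c k) (K : ℕ)

/-- **The hypotheses** on one law, without the rows. -/
structure Hyp [Fintype Ω] {ρ₁ ρ₂ ν₁ ν₂ σ₁ σ₂ υ : Type} (p : Ω → ℝ) (Rj : Ω → ρ₁) (Rx : Ω → ρ₂)
    (nj : Ω → ν₁) (nx : Ω → ν₂) (bj : Ω → σ₁) (bx : Ω → σ₂) (V : Ω → υ) (M : Ω → Fin c → ℤ)
    (F e B : ℝ) : Prop where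
  law : IsLaw p
  th : ∀ ω, 0 < p ω → 0 ≤ d.th ω ∧ d.th ω < 1
  dP : ∀ ω, 0 < p ω → ∀ i, (d.P ω i).natDegree ≤ K
  dA : ∀ ω, 0 < p ω → ∀ j, (d.A ω j).natDegree ≤ K
  bm : ∀ ω, 0 < p ω → ∀ i j, |d.bb ω i j| ≤ 2 ^ d.m
  Xpm : ∀ i, d.Xp i ≤ d.X
  ti : MI p d.th (d.L K) (d.g K) ≤ e
  mj : MI p Rj bj (fun ω => (nj ω, (d.th ω, d.z ω))) ≤ e
  fj : CH p nj (fun ω => (d.th ω, d.g K ω)) ≤ e
  Lj : CH p (d.L K) (fun ω => (bj ω, (nj ω, (d.th ω, d.z ω)))) ≤ e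
  bbj : CH p d.bb (fun ω => (Rj ω, (d.th ω, d.g K ω))) ≤ e
  mx : MI p Rx bx (fun ω => (nx ω, (d.th ω, d.z ω))) ≤ e
  fx : CH p nx (fun ω => (d.th ω, d.w K ω)) ≤ e
  Lx : CH p (d.l K) (fun ω => (bx ω, (nx ω, (d.th ω, d.z ω)))) ≤ e
  bbx : CH p d.bb (fun ω => (Rx ω, (d.th ω, d.w K ω))) ≤ e
  jt : CH p (d.nu K) (fun ω => (Rx ω, (d.th ω, d.v K ω))) ≤ e
  Nx : CH p (d.N K) (fun ω => (Rx ω, (d.T ω, d.g K ω))) ≤ e
  vf : F - e ≤ CH p V (fun ω => (Rx ω, (d.th ω, d.v K ω)))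
  vb : CH p V (fun ω => (d.T ω, d.g K ω)) ≤ F
  vy : CH p V (fun ω => (d.Y K ω, (d.th ω, d.g K ω))) ≤ F - k * d.X * Real.log 2 + e
  B0 : 0 ≤ B
  qv : ∀ ω ω', 0 < p ω → 0 < p ω' → V ω = V ω' → d.T ω = d.T ω' → d.g K ω = d.g K ω' →
    ∀ i, |(d.Q ω i - M ω i) - (d.Q ω' i - M ω' i)| ≤ B

variable {d K}

section law

variable [Fintype Ω] {ρ₁ ρ₂ ν₁ ν₂ σ₁ σ₂ υ : Type} {p : Ω → ℝ} {Rj : Ω → ρ₁} {Rx : Ω → ρ₂}
  {nj : Ω → ν₁} {nx : Ω → ν₂} {bj : Ω → σ₁} {bx : Ω → σ₂} {V : Ω → υ} {M : Ω → Fin c → ℤ}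
  {F e B : ℝ}

/-- Time and line. -/
theorem Hyp.h1 (H : d.Hyp K p Rj Rx nj nx bj bx V M F e B) :
    MI p d.T (d.L K) (d.g K) ≤ 5 * e := by
  have h0 := H.law.nonneg
  have h1 : MI p Rj (d.L K) (fun ω => (d.th ω, d.g K ω)) ≤ 3 * e := by
    have h2 := mi_near h0 (W := fun ω => (d.th ω, d.g K ω)) (Y := d.L K) (e₂ := e) H.mj H.fj
      (fun ω ω' _ _ e => by
        obtain ⟨e1, e2⟩ := Prod.ext_iff.mp e
        exact Prod.ext e1 (Prod.ext_iff.mp e2).1)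
      (le_trans (CH_mono_left h0 fun ω ω' _ _ e => by
        obtain ⟨e1, e2⟩ := Prod.ext_iff.mp e
        obtain ⟨_, e4⟩ := Prod.ext_iff.mp e2
        obtain ⟨_, e6⟩ := Prod.ext_iff.mp e4
        obtain ⟨e7, _⟩ := Prod.ext_iff.mp e6
        exact Prod.ext e1 (Prod.ext e7 (g_of e1))) H.Lj)
    linarith
  have h2 := mi_few h0 h1 H.bbj
  have h3 : MI p d.T (d.L K) (d.g K) = MI p d.th (d.L K) (d.g K) +
      MI p d.bb (d.L K) (fun ω => (d.th ω, d.g K ω)) := mi_two h0 d.th d.bb (d.L K) (d.g K)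
  have h4 := H.ti
  rw [h3]
  linarith

/-- The upper digits of the places are few bits given the record of the small ball. -/
theorem Hyp.jw (H : d.Hyp K p Rj Rx nj nx bj bx V M F e B) :
    CH p (d.nu K) (fun ω => (Rx ω, (d.th ω, d.w K ω))) ≤ e :=
  le_trans (CH_mono_cond H.law.nonneg fun ω ω' a a' e => by
    obtain ⟨e1, e2⟩ := Prod.ext_iff.mp e
    obtain ⟨e3, e4⟩ := Prod.ext_iff.mp e2
    exact Prod.ext e1 (Prod.ext e3 (det_wv p ω ω' a a' e4))) H.jt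

/-- Time and context given the record of the small ball, with the context `w`. -/
theorem Hyp.Tg (H : d.Hyp K p Rj Rx nj nx bj bx V M F e B) :
    CH p (fun ω => (d.T ω, d.g K ω)) (fun ω => (Rx ω, (d.th ω, d.w K ω))) ≤ e + e := by
  have h0 := H.law.nonneg
  have h3 := CH_subadd h0 d.bb (d.nu K) (fun ω => (Rx ω, (d.th ω, d.w K ω)))
  refine (CH_mono_left h0 fun ω ω' a a' e => ?_).trans
    (h3.trans (add_le_add H.bbx H.jw))
  obtain ⟨e1, e2⟩ := Prod.ext_iff.mp e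
  obtain ⟨e3, e4⟩ := Prod.ext_iff.mp e1
  obtain ⟨_, e6⟩ := Prod.ext_iff.mp e2
  obtain ⟨e7, e8⟩ := Prod.ext_iff.mp e6
  exact Prod.ext (Prod.ext e7 e3) (det_g p ω ω' a a' (Prod.ext e8 e4))

/-- **Heights and numbers** are nearly independent: `N'` is a variable which is few bits given the
record of the small ball, the time and the context. -/
theorem Hyp.h2 (H : d.Hyp K p Rj Rx nj nx bj bx V M F e B) {α : Type} {N' : Ω → α} {e' : ℝ}
    (hN : CH p N' (fun ω => (Rx ω, (d.T ω, d.g K ω))) ≤ e') :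
    MI p N' (d.nv K) (fun ω => (d.T ω, d.g K ω)) ≤ 5 * e + e' := by
  have h0 := H.law.nonneg
  have h1 : MI p Rx (d.nv K) (fun ω => (d.th ω, d.w K ω)) ≤ 3 * e := by
    have h2 := mi_near h0 (W := fun ω => (d.th ω, d.w K ω)) (Y := d.nv K)
      (e₂ := e) H.mx H.fx
      (fun ω ω' _ _ e => by
        obtain ⟨e1, e2⟩ := Prod.ext_iff.mp e
        exact Prod.ext e1 (Prod.ext_iff.mp e2).1)
      (le_trans (CH_mono_left h0 fun ω ω' a a' e => by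
        obtain ⟨e1, e2⟩ := Prod.ext_iff.mp e
        obtain ⟨_, e4⟩ := Prod.ext_iff.mp e2
        obtain ⟨_, e6⟩ := Prod.ext_iff.mp e4
        obtain ⟨e7, e8⟩ := Prod.ext_iff.mp e6
        have e9 := det_l p ω ω' a a' (Prod.ext e8 e1)
        obtain ⟨e10, e11⟩ := Prod.ext_iff.mp e9
        exact Prod.ext e10 (Prod.ext e7 e11)) H.Lx)
    linarith
  rw [MI_eq' h0] at h1
  have h2 := Pool.D2P.mi_of_la h0 N' (d.nv K)
    (fun ω => (d.T ω, d.g K ω)) (fun ω => (d.th ω, d.w K ω)) Rx (ε := 3 * e) (e₁ := e')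
    (e₂ := e + e) (e₃ := 0) (by linarith) hN H.Tg ?_
  · linarith
  · refine le_of_eq (CH_eq_zero h0 fun ω ω' a a' e => ?_)
    obtain ⟨e1, e2⟩ := Prod.ext_iff.mp e
    exact Prod.ext (Prod.ext_iff.mp e1).1 (det_gw p ω ω' a a' e2)

/-- The last digits of the positions are few. -/
theorem CH_last {γ : Type} (hp : IsLaw p) (W : Ω → γ) :
    CH p (fun ω j => d.ac K ω j 0 % 2 ^ d.m) W ≤ k * d.m * Real.log 2 := by
  classical
  have h1 := CH_le_card hp.nonneg hp.sum_one (fun ω j => d.ac K ω j 0 % 2 ^ d.m) W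
    (fun _ => Fintype.piFinset fun _ : Fin k => Finset.Ico (0 : ℤ) (2 ^ d.m)) (by
      intro ω _
      rw [Fintype.mem_piFinset]
      intro j
      have p1 : (0 : ℤ) < 2 ^ d.m := by positivity
      exact Finset.mem_Ico.mpr ⟨Int.emod_nonneg _ p1.ne', Int.emod_lt_of_pos _ p1⟩)
  refine h1.trans (le_of_eq ?_)
  rw [Ex_const hp.sum_one, Fintype.card_piFinset_const, Int.card_Ico, sub_zero]
  have e1 : ((2 : ℤ) ^ d.m).toNat = 2 ^ d.m := by
    have : ((2 : ℤ) ^ d.m) = ((2 ^ d.m : ℕ) : ℤ) := by push_cast; rfl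
    rw [this, Int.toNat_natCast]
  rw [e1]
  push_cast
  rw [Real.log_pow, Real.log_pow]
  ring

/-- Time and context given the record of the small ball. -/
theorem Hyp.fg (H : d.Hyp K p Rj Rx nj nx bj bx V M F e B) :
    CH p (fun ω => (d.th ω, d.g K ω)) (fun ω => (Rx ω, (d.th ω, d.v K ω))) ≤
      k * d.m * Real.log 2 + e := by
  have h0 := H.law.nonneg
  have h3 := CH_subadd h0 (fun ω j => d.ac K ω j 0 % 2 ^ d.m)
    (d.nu K) (fun ω => (Rx ω, (d.th ω, d.v K ω)))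
  refine (CH_mono_left h0 fun ω ω' a a' e => ?_).trans
    (h3.trans (add_le_add (CH_last H.law _) H.jt))
  obtain ⟨e1, e2⟩ := Prod.ext_iff.mp e
  obtain ⟨_, e4⟩ := Prod.ext_iff.mp e2
  obtain ⟨e5, e6⟩ := Prod.ext_iff.mp e4
  exact Prod.ext e5 (det_g' p ω ω' a a' (Prod.ext e6 e1))

/-- **The positions are full given the context.** -/
theorem Hyp.h3 (H : d.Hyp K p Rj Rx nj nx bj bx V M F e B) :
    k * d.X * Real.log 2 - (3 * e + k * d.m * Real.log 2) ≤ CH p (d.Y K) (d.g K) := by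
  have h1 := Pool.D2P.full_of H.law.nonneg V (d.Y K) d.th (d.g K)
    (fun ω => (Rx ω, (d.th ω, d.v K ω))) H.vf H.fg H.vy
  linarith

/-- **Near digits and heights** are nearly independent. -/
theorem Hyp.wd (H : d.Hyp K p Rj Rx nj nx bj bx V M F e B) {α : Type} {N' : Ω → α} {e' : ℝ}
    (hN : CH p N' (fun ω => (Rx ω, (d.T ω, d.g K ω))) ≤ e') :
    CH p V (fun ω => (d.T ω, d.g K ω)) - CH p V (fun ω => (N' ω, (d.T ω, d.g K ω))) ≤
      3 * e + k * d.m * Real.log 2 + e' := by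
  have h0 := H.law.nonneg
  have h1 := CH_le_add h0 V (fun ω => (N' ω, (d.T ω, d.g K ω)))
    (fun ω => (Rx ω, (d.th ω, d.v K ω)))
  have h2 : CH p V (fun ω => ((N' ω, (d.T ω, d.g K ω)), (Rx ω, (d.th ω, d.v K ω)))) ≤
      CH p V (fun ω => (N' ω, (d.T ω, d.g K ω))) :=
    CH_mono_cond h0 fun ω ω' _ _ h => (Prod.ext_iff.mp h).1
  have h3 := CH_chain h0 N' (fun ω => (d.T ω, d.g K ω))
    (fun ω => (Rx ω, (d.th ω, d.v K ω)))
  have h4 : CH p N' (fun ω => ((d.T ω, d.g K ω), (Rx ω, (d.th ω, d.v K ω)))) ≤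
      CH p N' (fun ω => (Rx ω, (d.T ω, d.g K ω))) :=
    CH_mono_cond h0 fun ω ω' _ _ h => by
      obtain ⟨h5, h6⟩ := Prod.ext_iff.mp h
      exact Prod.ext (Prod.ext_iff.mp h6).1 h5
  have h5 : CH p (fun ω => (d.T ω, d.g K ω)) (fun ω => (Rx ω, (d.th ω, d.v K ω))) ≤
      CH p (fun ω => (d.bb ω, (d.th ω, d.g K ω))) (fun ω => (Rx ω, (d.th ω, d.v K ω))) :=
    CH_mono_left h0 fun ω ω' _ _ h => by
      obtain ⟨h5, _⟩ := Prod.ext_iff.mp h
      obtain ⟨h7, h8⟩ := Prod.ext_iff.mp h5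
      obtain ⟨h9, h10⟩ := Prod.ext_iff.mp h8
      exact Prod.ext (Prod.ext h9 h7) h10
  have h6 := CH_chain h0 d.bb (fun ω => (d.th ω, d.g K ω))
    (fun ω => (Rx ω, (d.th ω, d.v K ω)))
  have h7 : CH p d.bb (fun ω => ((d.th ω, d.g K ω), (Rx ω, (d.th ω, d.v K ω)))) ≤
      CH p d.bb (fun ω => (Rx ω, (d.th ω, d.w K ω))) :=
    CH_mono_cond h0 fun ω ω' a a' h => by
      obtain ⟨h5, h6⟩ := Prod.ext_iff.mp h
      obtain ⟨h7, h8⟩ := Prod.ext_iff.mp h5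
      exact Prod.ext (Prod.ext_iff.mp h6).1 (Prod.ext h7 (det_gw p ω ω' a a' h8))
  have e1 := H.vf
  have e2 := H.vb
  have e3 := H.bbx
  have e4 := H.fg
  linarith

end law

/-! ### The heights -/

variable (d K)

/-- The part of the height which is not the position. -/
noncomputable def gz (m : ℕ) (t : ℝ × (Fin c → Fin k → ℝ)) (v : NumV c k K) (i : Fin c) : ℤ :=
  ⌊(∑ a : Fin K, (v.2 i a : ℝ) * t.1 ^ (a.val + 1) - ∑ j, t.2 i j * (v.1 j : ℝ)) / 2 ^ m⌋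

/-- The heights, in units of `2 ^ m` last digits. -/
noncomputable def hz (ω : Ω) (i : Fin c) : ℤ :=
  d.nr K ω i 0 / 2 ^ d.m + gz K d.m (d.T ω) (d.nv K ω) i

variable {d K}

theorem ediv_near (x : ℤ) (n : ℕ) : ((x / 2 ^ n : ℤ) : ℝ) ≤ x / 2 ^ n ∧
    (x : ℝ) / 2 ^ n < ((x / 2 ^ n : ℤ) : ℝ) + 1 := by
  have hn0 : (0 : ℝ) < 2 ^ n := by positivity
  have h1 := Int.mul_ediv_add_emod x (2 ^ n)
  have p1 : (0 : ℤ) < 2 ^ n := by positivity
  have h2 := Int.emod_nonneg x p1.ne'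
  have h3 := Int.emod_lt_of_pos x p1
  have h1' : (2 : ℝ) ^ n * ((x / 2 ^ n : ℤ) : ℝ) + ((x % 2 ^ n : ℤ) : ℝ) = x := by
    exact_mod_cast h1
  have h2' : (0 : ℝ) ≤ ((x % 2 ^ n : ℤ) : ℝ) := by exact_mod_cast h2
  have h3' : ((x % 2 ^ n : ℤ) : ℝ) < 2 ^ n := by exact_mod_cast h3
  constructor
  · rw [le_div_iff₀ hn0]
    linarith
  · rw [div_lt_iff₀ hn0]
    linarith

/-- The value, split. -/
theorem val_eq (ω : Ω) (i : Fin c) : d.val K ω i = d.nr K ω i 0 +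
    (∑ a : Fin K, (d.C K ω i a : ℝ) * d.th ω ^ (a.val + 1) -
      ∑ j, d.bb ω i j * (d.Y K ω j : ℝ)) := by
  unfold val
  rw [Fin.sum_univ_succ]
  simp only [Fin.val_zero, pow_zero, mul_one, Fin.val_succ]
  unfold C
  ring

theorem hz_val (ω : Ω) (i : Fin c) : |(d.hz K ω i : ℝ) - d.val K ω i / 2 ^ d.m| ≤ 2 := by
  have h1 := ediv_near (d.nr K ω i 0) d.m
  have h2 := Int.floor_le ((∑ a : Fin K, (d.C K ω i a : ℝ) * d.th ω ^ (a.val + 1) -
    ∑ j, d.bb ω i j * (d.Y K ω j : ℝ)) / 2 ^ d.m)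
  have h3 := Int.lt_floor_add_one ((∑ a : Fin K, (d.C K ω i a : ℝ) * d.th ω ^ (a.val + 1) -
    ∑ j, d.bb ω i j * (d.Y K ω j : ℝ)) / 2 ^ d.m)
  have e1 : (d.hz K ω i : ℝ) = ((d.nr K ω i 0 / 2 ^ d.m : ℤ) : ℝ) +
      ⌊(∑ a : Fin K, (d.C K ω i a : ℝ) * d.th ω ^ (a.val + 1) -
        ∑ j, d.bb ω i j * (d.Y K ω j : ℝ)) / 2 ^ d.m⌋ := by
    unfold hz
    push_cast
    rfl
  rw [e1, val_eq, add_div, abs_le]
  constructor <;> linarith [h1.1, h1.2]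

section law

variable [Fintype Ω] {ρ₁ ρ₂ ν₁ ν₂ σ₁ σ₂ υ : Type} {p : Ω → ℝ} {Rj : Ω → ρ₁} {Rx : Ω → ρ₂}
  {nj : Ω → ν₁} {nx : Ω → ν₂} {bj : Ω → σ₁} {bx : Ω → σ₂} {V : Ω → υ} {M : Ω → Fin c → ℤ}
  {F e B : ℝ}

/-- The heights are few given the numbers `N`. -/
theorem hz_few (hp : IsLaw p) {α : Type} (W : Ω → α) :
    CH p (d.hz K) W ≤ CH p (d.N K) W + c * Real.log 11 := by
  have h0 := hp.nonneg
  have h1 := CH_le_add h0 (d.hz K) (d.N K) W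
  have h2 := Pool.OWN83.CH_vec (p := p) h0 (fun ω => (d.N K ω, W ω)) (c := Real.log (2 * 5 + 1))
    c (d.hz K) (fun i => by
      refine CH_pair_int hp _ _ (by norm_num) fun ω ν _ _ e => ?_
      have e1 : d.N K ω i = d.N K ν i := congrFun (Prod.ext_iff.mp e).1 i
      have f1 := Int.floor_le (d.val K ω i)
      have f2 := Int.lt_floor_add_one (d.val K ω i)
      have f3 := Int.floor_le (d.val K ν i)
      have f4 := Int.lt_floor_add_one (d.val K ν i)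
      have hN : (d.N K ω i : ℝ) = ⌊d.val K ω i⌋ := rfl
      have hN' : (d.N K ν i : ℝ) = ⌊d.val K ν i⌋ := rfl
      have e2 : (⌊d.val K ω i⌋ : ℝ) = ⌊d.val K ν i⌋ := by rw [← hN, ← hN', e1]
      have hm : (1 : ℝ) ≤ 2 ^ d.m := one_le_pow₀ (by norm_num)
      have hm0 : (0 : ℝ) < 2 ^ d.m := by positivity
      have g1 : |d.val K ω i / 2 ^ d.m - d.val K ν i / 2 ^ d.m| ≤ 1 := by
        rw [← sub_div, abs_div, abs_of_pos hm0, div_le_one hm0]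
        refine le_trans ?_ hm
        rw [abs_le]
        constructor <;> linarith
      have g2 := abs_le.1 (hz_val (d := d) (K := K) ω i)
      have g3 := abs_le.1 (hz_val (d := d) (K := K) ν i)
      have g4 := abs_le.1 g1
      rw [abs_le]
      constructor <;> linarith [g2.1, g2.2, g3.1, g3.2, g4.1, g4.2])
  have e : (2 : ℝ) * 5 + 1 = 11 := by norm_num
  rw [e] at h2
  linarith

/-- Differences of values and of digits. -/
theorem Hyp.dif (H : d.Hyp K p Rj Rx nj nx bj bx V M F e B) {ω ω' : Ω} (hω : 0 < p ω)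
    (hω' : 0 < p ω') (e1 : V ω = V ω') (e2 : d.T ω = d.T ω') (e3 : d.g K ω = d.g K ω')
    (i : Fin c) : |(d.val K ω i - M ω i) - (d.val K ω' i - M ω' i)| ≤
      B + 2 * ((K + 1) * (k + 1)) := by
  have q1 := abs_le.mp (H.qv ω ω' hω hω' e1 e2 e3 i)
  have q2 := abs_le.mp (Q_val (H.th ω hω) i (H.dP ω hω i) (H.dA ω hω) (H.bm ω hω i))
  have q3 := abs_le.mp (Q_val (H.th ω' hω') i (H.dP ω' hω' i) (H.dA ω' hω') (H.bm ω' hω' i))
  rw [kn_of e2 e3] at q2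
  rw [abs_le]
  constructor <;> linarith [q1.1, q1.2, q2.1, q2.2, q3.1, q3.2]

end law

end VD

end Pool.LV64
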