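import Pool.Agent.H64.LV.Law
import Pool.Agent.H64.BD.Dd

/-!
# The picture of the own paths

`VD.pic`: the picture of degree `K` of the data `d`; `VD.Hyp.ok`: its hypotheses at the samples.
-/

set_option autoImplicit false

namespace Pool.LV64

open Finset Real
open Pool.Agent.H49.Ent Pool.Agent.H32.Dense Pool.STK
open Pool.AVG71 (MI_eq MI_eq')
open Pool.KVA (MI)
open Pool.BD64 (QHd pol)

section rep

variable {Ω : Type}

open Classical in
/-- A sample of the support. -/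
noncomputable def rr (p : Ω → ℝ) (ω₀ ω : Ω) : Ω := if 0 < p ω then ω else ω₀

variable {p : Ω → ℝ} {ω₀ : Ω}

theorem rr_pos (h : 0 < p ω₀) (ω : Ω) : 0 < p (rr p ω₀ ω) := by
  unfold rr
  split_ifs with h1
  · exact h1
  · exact h

theorem rr_eq {ω : Ω} (h : 0 < p ω) : rr p ω₀ ω = ω := by
  unfold rr
  rw [if_pos h]

theorem CH_rr [Fintype Ω] (h0 : ∀ ω, 0 ≤ p ω) {S R : Type} (f : Ω → S) (h : Ω → R) :
    CH p (fun ω => f (rr p ω₀ ω)) (fun ω => h (rr p ω₀ ω)) = CH p f h := by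
  refine CH_congr h0 (fun ω ω' a b e => ?_) (fun ω ω' a b e => ?_) (fun ω ω' a b e => ?_)
    (fun ω ω' a b e => ?_)
  · have e1 := (Prod.ext_iff.mp e).1
    beta_reduce at e1
    rwa [rr_eq a, rr_eq b] at e1
  · have e1 := (Prod.ext_iff.mp e).1
    rwa [rr_eq a, rr_eq b]
  · rwa [rr_eq a, rr_eq b] at e
  · rwa [rr_eq a, rr_eq b]

end rep

namespace VD

variable {Ω β : Type} {c k : ℕ} (d : VD Ω β c k) (K : ℕ)

/-- The coefficients of the picture. -/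
noncomputable def beV (n : ℕ) (v : NumV c k K) (a : Fin (K + 1)) (i : Fin c) : ℝ :=
  Fin.cases 0 (fun a' => (v.2 i a' : ℝ) / 2 ^ n) a

/-- **The picture.** -/
noncomputable def pic [Fintype Ω] (p : Ω → ℝ) (ω₀ : Ω) : QHd c k K where
  Ω := Ω
  iΩ := inferInstance
  B := GamV β c k K
  Vt := NumV c k K
  Tt := ℝ × (Fin c → Fin k → ℝ)
  p := p
  b := fun ω => d.g K (rr p ω₀ ω)
  nu := fun ω i => d.nr K (rr p ω₀ ω) i 0 / 2 ^ d.m
  v := fun ω => d.nv K (rr p ω₀ ω)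
  th := fun ω => d.T (rr p ω₀ ω)
  tau := fun t => ⌊(2 : ℝ) ^ d.X * t.1⌋
  E := fun t u i => t.2 i u / 2 ^ d.m
  y := fun v => v.1
  be := beV K (d.X + d.m)
  g := fun t v i => gz K d.m t v i
  a0 := fun _ _ => 0
  b0 := fun _ _ => 0

variable {d K}

theorem pic_hgt [Fintype Ω] (p : Ω → ℝ) (ω₀ ω : Ω) :
    (d.pic K p ω₀).hgt ω = d.hz K (rr p ω₀ ω) := rfl

/-- Powers of near numbers. -/
theorem pow_near {x y : ℝ} (hx : 0 ≤ x) (hx1 : x ≤ 1) (hy : 0 ≤ y) (hy1 : y ≤ 1) (n : ℕ) :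
    |x ^ n - y ^ n| ≤ n * |x - y| := by
  induction n with
  | zero => simp
  | succ n ih =>
    have e : x ^ (n + 1) - y ^ (n + 1) = x * (x ^ n - y ^ n) + (x - y) * y ^ n := by ring
    rw [e]
    refine (abs_add_le _ _).trans ?_
    rw [abs_mul, abs_mul, abs_of_nonneg hx, abs_of_nonneg (pow_nonneg hy n)]
    have h1 := mul_le_mul_of_nonneg_right hx1 (abs_nonneg (x ^ n - y ^ n))
    have h2 := mul_le_mul_of_nonneg_left (pow_le_one₀ hy hy1 (n := n)) (abs_nonneg (x - y))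
    push_cast
    linarith

/-- The constant. -/
noncomputable def Cv (k K : ℕ) : ℝ := K * K + K + k + 4

/-- The error. -/
noncomputable def Dv (c k m : ℕ) (e : ℝ) : ℝ := 6 * e + k * m * Real.log 2 + c * Real.log 11

section law

variable [Fintype Ω] {ρ₁ ρ₂ ν₁ ν₂ σ₁ σ₂ υ : Type} {p : Ω → ℝ} {Rj : Ω → ρ₁} {Rx : Ω → ρ₂}
  {nj : Ω → ν₁} {nx : Ω → ν₂} {bj : Ω → σ₁} {bx : Ω → σ₂} {V : Ω → υ} {M : Ω → Fin c → ℤ}
  {F e B : ℝ}

/-- Bound of the heights. -/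
theorem Hyp.hz_b (H : d.Hyp K p Rj Rx nj nx bj bx V M F e B) {ω : Ω} (hω : 0 < p ω) (i : Fin c) :
    |(d.hz K ω i : ℝ)| ≤ Cv k K * 2 ^ d.X := by
  have hX : (1 : ℝ) ≤ 2 ^ d.X := one_le_pow₀ (by norm_num)
  have hm : (1 : ℝ) ≤ 2 ^ d.m := one_le_pow₀ (by norm_num)
  have hm0 : (0 : ℝ) < 2 ^ d.m := by positivity
  have h1 := abs_le.1 (hz_val (d := d) (K := K) ω i)
  have hth := H.th ω hω
  have hpow : ∀ a : ℕ, 0 ≤ d.th ω ^ a ∧ d.th ω ^ a ≤ 1 := fun a =>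
    ⟨pow_nonneg hth.1 _, pow_le_one₀ hth.1 hth.2.le⟩
  have h2 : |∑ a : Fin (K + 1), (d.nr K ω i a : ℝ) * d.th ω ^ (a : ℕ)| ≤ (K + 1) * 2 ^ d.X := by
    refine (Finset.abs_sum_le_sum_abs _ _).trans ?_
    have h5 : ∀ a ∈ (univ : Finset (Fin (K + 1))),
        |(d.nr K ω i a : ℝ) * d.th ω ^ (a : ℕ)| ≤ 2 ^ d.X := by
      intro a _
      obtain ⟨g1, g2⟩ := nr_mem (d := d) (K := K) ω i a
      have g1' : (0 : ℝ) ≤ d.nr K ω i a := by exact_mod_cast g1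
      have g2' : (d.nr K ω i a : ℝ) < 2 ^ d.Xp i := by exact_mod_cast g2
      have g3 : (2 : ℝ) ^ d.Xp i ≤ 2 ^ d.X := pow_le_pow_right₀ (by norm_num) (H.Xpm i)
      rw [abs_mul, abs_of_nonneg g1', abs_of_nonneg (hpow a).1]
      calc (d.nr K ω i a : ℝ) * d.th ω ^ (a : ℕ) ≤ 2 ^ d.X * 1 :=
            mul_le_mul (g2'.le.trans g3) (hpow a).2 (hpow a).1 (by positivity)
        _ = 2 ^ d.X := mul_one _
    refine (Finset.sum_le_sum h5).trans (le_of_eq ?_)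
    rw [Finset.sum_const, Finset.card_univ, Fintype.card_fin, nsmul_eq_mul]
    push_cast
    ring
  have h3 : |∑ j, d.bb ω i j * (d.Y K ω j : ℝ)| ≤ k * (2 ^ d.m * 2 ^ d.X) := by
    refine (Finset.abs_sum_le_sum_abs _ _).trans ?_
    have h5 : ∀ j ∈ (univ : Finset (Fin k)),
        |d.bb ω i j * (d.Y K ω j : ℝ)| ≤ 2 ^ d.m * 2 ^ d.X := by
      intro j _
      obtain ⟨g1, g2⟩ := Y_mem (d := d) (K := K) ω j
      have g1' : (0 : ℝ) ≤ d.Y K ω j := by exact_mod_cast g1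
      have g2' : (d.Y K ω j : ℝ) < 2 ^ d.X := by exact_mod_cast g2
      rw [abs_mul, abs_of_nonneg g1']
      exact mul_le_mul (H.bm ω hω i j) g2'.le g1' (by positivity)
    refine (Finset.sum_le_sum h5).trans (le_of_eq ?_)
    rw [Finset.sum_const, Finset.card_univ, Fintype.card_fin, nsmul_eq_mul]
  have h4 : |d.val K ω i / 2 ^ d.m| ≤ (K + 1 + k) * 2 ^ d.X := by
    rw [abs_div, abs_of_pos hm0, div_le_iff₀ hm0]
    have h5 : |d.val K ω i| ≤ (K + 1) * 2 ^ d.X + k * (2 ^ d.m * 2 ^ d.X) := by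
      unfold val
      refine (abs_sub _ _).trans (add_le_add h2 h3)
    have h6 : ((K : ℝ) + 1) * 2 ^ d.X ≤ (K + 1) * 2 ^ d.X * 2 ^ d.m :=
      le_mul_of_one_le_right (by positivity) hm
    nlinarith
  have h5 := abs_le.1 h4
  have hKK : (0 : ℝ) ≤ (K : ℝ) * K := by positivity
  have hk : (0 : ℝ) ≤ k := Nat.cast_nonneg k
  have hK : (0 : ℝ) ≤ K := Nat.cast_nonneg K
  have h6 : (K + 1 + k) * (2 : ℝ) ^ d.X + 2 ≤ Cv k K * 2 ^ d.X := by
    unfold Cv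
    nlinarith
  rw [abs_le]
  constructor <;> linarith [h1.1, h1.2, h5.1, h5.2]

/-- The heights are few bits given the record of the small ball. -/
theorem Hyp.hzx (H : d.Hyp K p Rj Rx nj nx bj bx V M F e B) :
    CH p (d.hz K) (fun ω => (Rx ω, (d.T ω, d.g K ω))) ≤ e + c * Real.log 11 :=
  (hz_few H.law _).trans (by linarith [H.Nx])

theorem Hyp.e0 (H : d.Hyp K p Rj Rx nj nx bj bx V M F e B) : 0 ≤ e :=
  (CH_nonneg H.law.nonneg _ _).trans H.bbj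

/-- **The hypotheses of the picture.** -/
theorem Hyp.ok (H : d.Hyp K p Rj Rx nj nx bj bx V M F e B) {ω₀ : Ω} (hω₀ : 0 < p ω₀)
    (ht : d.X * Real.log 2 - e ≤ CH p (fun ω => ⌊(2 : ℝ) ^ d.X * d.th ω⌋) (d.L K)) :
    (d.pic K p ω₀).OkNS d.X (Cv k K) (Dv c k d.m e) := by
  have h0 := H.law.nonneg
  have he := H.e0
  have hX : (0 : ℝ) < 2 ^ d.X := by positivity
  have hX1 : (1 : ℝ) ≤ 2 ^ d.X := one_le_pow₀ (by norm_num)
  have hm : (1 : ℝ) ≤ 2 ^ d.m := one_le_pow₀ (by norm_num)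
  have hm0 : (0 : ℝ) < 2 ^ d.m := by positivity
  have hl2 : 0 < Real.log 2 := Real.log_pos (by norm_num)
  have hl11 : 0 < Real.log 11 := Real.log_pos (by norm_num)
  have hk : (0 : ℝ) ≤ k := Nat.cast_nonneg k
  have hK : (0 : ℝ) ≤ K := Nat.cast_nonneg K
  have hKK : (0 : ℝ) ≤ (K : ℝ) * K := by positivity
  have hc : (0 : ℝ) ≤ c := Nat.cast_nonneg c
  have hC1 : 1 ≤ Cv k K := by
    unfold Cv
    linarith
  have hkm : 0 ≤ k * d.m * Real.log 2 := by positivity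
  have hcl : 0 ≤ c * Real.log 11 := by positivity
  have hpos := rr_pos hω₀
  have hgL : Det p (d.L K) (d.g K) := fun ω ω' _ _ e => g_of e
  refine ⟨H.law, ?_, fun ω j => Y_mem _ j, ?_, ?_, fun ω i => ?_, ?_, ?_, ?_, ?_, ?_⟩
  · -- the times
    intro ω
    have h1 := H.th _ (hpos ω)
    change 0 ≤ ⌊(2 : ℝ) ^ d.X * d.th (rr p ω₀ ω)⌋ ∧ ⌊(2 : ℝ) ^ d.X * d.th (rr p ω₀ ω)⌋ < 2 ^ d.X
    constructor
    · exact Int.floor_nonneg.2 (mul_nonneg hX.le h1.1)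
    · rw [Int.floor_lt]
      push_cast
      exact mul_lt_of_lt_one_right hX h1.2
  · -- the slopes
    intro ω u i
    change |d.bb (rr p ω₀ ω) i u / 2 ^ d.m| ≤ Cv k K
    rw [abs_div, abs_of_pos hm0, div_le_iff₀ hm0]
    exact (H.bm _ (hpos ω) i u).trans (le_mul_of_one_le_left hm0.le hC1)
  · -- the coefficients
    intro ω a i
    change |beV K (d.X + d.m) (d.nv K (rr p ω₀ ω)) a i| ≤ Cv k K
    unfold beV
    refine Fin.cases ?_ (fun a => ?_) a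
    · rw [Fin.cases_zero, abs_zero]
      linarith
    · rw [Fin.cases_succ]
      obtain ⟨g1, g2⟩ := nr_mem (d := d) (K := K) (rr p ω₀ ω) i a.succ
      have g1' : (0 : ℝ) ≤ (d.nv K (rr p ω₀ ω)).2 i a := by exact_mod_cast g1
      have g2' : ((d.nv K (rr p ω₀ ω)).2 i a : ℝ) < 2 ^ d.Xp i := by exact_mod_cast g2
      have g3 : (2 : ℝ) ^ d.Xp i ≤ 2 ^ (d.X + d.m) :=
        pow_le_pow_right₀ (by norm_num) ((H.Xpm i).trans (Nat.le_add_right _ _))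
      rw [abs_of_nonneg (div_nonneg g1' (by positivity)), div_le_iff₀ (by positivity)]
      have : (2 : ℝ) ^ (d.X + d.m) ≤ Cv k K * 2 ^ (d.X + d.m) :=
        le_mul_of_one_le_left (by positivity) hC1
      linarith
  · -- the heights
    rw [pic_hgt]
    exact H.hz_b (hpos ω) i
  · -- the relation
    intro ω ω' i
    obtain ⟨ν, hν⟩ : ∃ ν, ν = rr p ω₀ ω := ⟨_, rfl⟩
    obtain ⟨ν', hν'⟩ : ∃ ν', ν' = rr p ω₀ ω' := ⟨_, rfl⟩
    have pν : 0 < p ν := by rw [hν]; exact hpos ω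
    have pν' : 0 < p ν' := by rw [hν']; exact hpos ω'
    change |(gz K d.m (d.T (rr p ω₀ ω)) (d.nv K (rr p ω₀ ω')) i : ℝ) -
      (pol d.X (beV K (d.X + d.m) (d.nv K (rr p ω₀ ω')))
        ⌊(2 : ℝ) ^ d.X * d.th (rr p ω₀ ω)⌋ i -
        ∑ u, d.bb (rr p ω₀ ω) i u / 2 ^ d.m * d.Y K (rr p ω₀ ω') u + 0 + 0)| ≤ Cv k K
    rw [← hν, ← hν']
    have h1 := H.th _ pν
    obtain ⟨s, hs⟩ : ∃ s : ℝ, s = (⌊(2 : ℝ) ^ d.X * d.th ν⌋ : ℝ) / 2 ^ d.X := ⟨_, rfl⟩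
    have hs0 : 0 ≤ s := by
      rw [hs]
      exact div_nonneg (by exact_mod_cast Int.floor_nonneg.2 (mul_nonneg hX.le h1.1)) hX.le
    have hs1 : s ≤ d.th ν := by
      rw [hs, div_le_iff₀ hX, mul_comm]
      exact Int.floor_le _
    have hs2 : d.th ν - s ≤ 1 / 2 ^ d.X := by
      have g1 := Int.lt_floor_add_one ((2 : ℝ) ^ d.X * d.th ν)
      have g2 : d.th ν < s + 1 / 2 ^ d.X := by
        rw [hs, ← add_div, lt_div_iff₀ hX, mul_comm]
        exact g1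
      linarith
    have epol : pol d.X (beV K (d.X + d.m) (d.nv K ν')) ⌊(2 : ℝ) ^ d.X * d.th ν⌋ i =
        ∑ a : Fin K, (d.C K ν' i a : ℝ) / 2 ^ d.m * s ^ (a.val + 1) := by
      unfold pol
      rw [Fin.sum_univ_succ, ← hs]
      have e1 : beV K (d.X + d.m) (d.nv K ν') 0 i = 0 := rfl
      rw [e1, zero_mul, zero_mul, zero_add]
      refine Finset.sum_congr rfl fun a _ => ?_
      have e2 : beV K (d.X + d.m) (d.nv K ν') a.succ i = (d.C K ν' i a : ℝ) / 2 ^ (d.X + d.m) :=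
        rfl
      rw [e2, Fin.val_succ, pow_add]
      field_simp
    rw [epol]
    have h2 := Int.floor_le ((∑ a : Fin K, (d.C K ν' i a : ℝ) * d.th ν ^ (a.val + 1) -
      ∑ j, d.bb ν i j * (d.Y K ν' j : ℝ)) / 2 ^ d.m)
    have h3 := Int.lt_floor_add_one ((∑ a : Fin K, (d.C K ν' i a : ℝ) * d.th ν ^ (a.val + 1) -
      ∑ j, d.bb ν i j * (d.Y K ν' j : ℝ)) / 2 ^ d.m)
    have e3 : (gz K d.m (d.T ν) (d.nv K ν') i : ℝ) =
        ⌊(∑ a : Fin K, (d.C K ν' i a : ℝ) * d.th ν ^ (a.val + 1) -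
          ∑ j, d.bb ν i j * (d.Y K ν' j : ℝ)) / 2 ^ d.m⌋ := rfl
    rw [e3]
    have e4 : (∑ a : Fin K, (d.C K ν' i a : ℝ) * d.th ν ^ (a.val + 1) -
        ∑ j, d.bb ν i j * (d.Y K ν' j : ℝ)) / 2 ^ d.m =
        ∑ a : Fin K, (d.C K ν' i a : ℝ) / 2 ^ d.m * s ^ (a.val + 1) -
          ∑ u, d.bb ν i u / 2 ^ d.m * d.Y K ν' u +
        ∑ a : Fin K, (d.C K ν' i a : ℝ) / 2 ^ d.m * (d.th ν ^ (a.val + 1) - s ^ (a.val + 1)) := by
      rw [sub_div, Finset.sum_div, Finset.sum_div]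
      have f1 : ∑ a : Fin K, (d.C K ν' i a : ℝ) * d.th ν ^ (a.val + 1) / 2 ^ d.m =
          ∑ a : Fin K, (d.C K ν' i a : ℝ) / 2 ^ d.m * s ^ (a.val + 1) +
          ∑ a : Fin K, (d.C K ν' i a : ℝ) / 2 ^ d.m *
            (d.th ν ^ (a.val + 1) - s ^ (a.val + 1)) := by
        rw [← Finset.sum_add_distrib]
        exact Finset.sum_congr rfl fun a _ => by ring
      have f2 : ∑ j, d.bb ν i j * (d.Y K ν' j : ℝ) / 2 ^ d.m =
          ∑ u, d.bb ν i u / 2 ^ d.m * d.Y K ν' u :=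
        Finset.sum_congr rfl fun u _ => by ring
      rw [f1, f2]
      ring
    have h4 : |∑ a : Fin K, (d.C K ν' i a : ℝ) / 2 ^ d.m *
        (d.th ν ^ (a.val + 1) - s ^ (a.val + 1))| ≤ K * K := by
      refine (Finset.abs_sum_le_sum_abs _ _).trans ?_
      have h5 : ∀ a ∈ (univ : Finset (Fin K)), |(d.C K ν' i a : ℝ) / 2 ^ d.m *
          (d.th ν ^ (a.val + 1) - s ^ (a.val + 1))| ≤ K := by
        intro a _
        obtain ⟨g1, g2⟩ := nr_mem (d := d) (K := K) ν' i a.succ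
        have g1' : (0 : ℝ) ≤ d.C K ν' i a := by exact_mod_cast g1
        have g2' : (d.C K ν' i a : ℝ) < 2 ^ d.Xp i := by exact_mod_cast g2
        have g3 : (2 : ℝ) ^ d.Xp i ≤ 2 ^ d.X := pow_le_pow_right₀ (by norm_num) (H.Xpm i)
        have g4 : (d.C K ν' i a : ℝ) / 2 ^ d.m ≤ 2 ^ d.X := by
          rw [div_le_iff₀ hm0]
          have : (2 : ℝ) ^ d.X ≤ 2 ^ d.X * 2 ^ d.m := le_mul_of_one_le_right hX.le hm
          linarith
        have g5 := pow_near h1.1 h1.2.le hs0 (hs1.trans h1.2.le) (a.val + 1)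
        have g6 : |d.th ν - s| ≤ 1 / 2 ^ d.X := by
          rw [abs_of_nonneg (by linarith)]
          exact hs2
        have g7 : ((a.val + 1 : ℕ) : ℝ) ≤ K := by exact_mod_cast a.2
        rw [abs_mul, abs_of_nonneg (div_nonneg g1' hm0.le)]
        calc (d.C K ν' i a : ℝ) / 2 ^ d.m * |d.th ν ^ (a.val + 1) - s ^ (a.val + 1)|
            ≤ 2 ^ d.X * (K * (1 / 2 ^ d.X)) := by
              refine mul_le_mul g4 (g5.trans ?_) (abs_nonneg _) hX.le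
              exact mul_le_mul g7 g6 (abs_nonneg _) hK
          _ = K := by field_simp
      refine (Finset.sum_le_sum h5).trans (le_of_eq ?_)
      rw [Finset.sum_const, Finset.card_univ, Fintype.card_fin, nsmul_eq_mul]
    rw [e4] at h2 h3 ⊢
    have h6 := abs_le.1 h4
    have hCv : (K : ℝ) * K + 1 ≤ Cv k K := by
      unfold Cv
      linarith
    rw [abs_le]
    constructor <;> linarith [h6.1, h6.2]
  · -- time and line
    have h1 := H.h1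
    rw [MI_eq h0] at h1
    have e1 := CH_rr (ω₀ := ω₀) h0 d.T (d.g K)
    have e2 : CH p d.T (fun ω => (d.L K ω, d.g K ω)) ≤
        CH p (d.pic K p ω₀).th (d.pic K p ω₀).line := by
      have e3 : CH p (d.pic K p ω₀).th (d.pic K p ω₀).line =
          CH p d.T (fun ω => ((fun i => d.nr K ω i 0 / 2 ^ d.m : Fin c → ℤ),
            (d.nv K ω, d.g K ω))) :=
        CH_rr (ω₀ := ω₀) h0 d.T (fun ω => ((fun i => d.nr K ω i 0 / 2 ^ d.m : Fin c → ℤ),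
            (d.nv K ω, d.g K ω)))
      rw [e3]
      refine CH_mono_cond h0 fun ω ω' _ _ e => ?_
      have e4 := (Prod.ext_iff.mp e).1
      have e5 := nr_of e4
      have e6 := nv_of e4
      rw [e5, e6, g_of e4]
    change CH p (d.pic K p ω₀).th (d.pic K p ω₀).b - CH p (d.pic K p ω₀).th (d.pic K p ω₀).line ≤ _
    have e3 : CH p (d.pic K p ω₀).th (d.pic K p ω₀).b = CH p d.T (d.g K) := e1
    unfold Dv
    linarith
  · -- heights and numbers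
    have h1 := H.h2 H.hzx
    rw [MI_eq h0] at h1
    have e1 : CH p (d.pic K p ω₀).hgt (fun ω => ((d.pic K p ω₀).th ω, (d.pic K p ω₀).b ω)) =
        CH p (d.hz K) (fun ω => (d.T ω, d.g K ω)) :=
      CH_rr (ω₀ := ω₀) h0 (d.hz K) (fun ω => (d.T ω, d.g K ω))
    have e2 : CH p (d.pic K p ω₀).hgt (fun ω => ((d.pic K p ω₀).v ω, ((d.pic K p ω₀).th ω,
        (d.pic K p ω₀).b ω))) =
        CH p (d.hz K) (fun ω => (d.nv K ω, (d.T ω, d.g K ω))) :=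
      CH_rr (ω₀ := ω₀) h0 (d.hz K) (fun ω => (d.nv K ω, (d.T ω, d.g K ω)))
    refine le_trans (le_of_eq (congrArg₂ (fun x y : ℝ => x - y) e1 e2)) ?_
    unfold Dv
    linarith
  · -- the positions
    have h1 := H.h3
    have e1 : CH p (fun ω => (d.pic K p ω₀).y ((d.pic K p ω₀).v ω)) (d.pic K p ω₀).b =
        CH p (d.Y K) (d.g K) := CH_rr (ω₀ := ω₀) h0 (d.Y K) (d.g K)
    change _ ≤ CH p (fun ω => (d.pic K p ω₀).y ((d.pic K p ω₀).v ω)) (d.pic K p ω₀).b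
    rw [e1]
    unfold Dv
    linarith
  · -- the time
    have e1 : CH p (fun ω => (d.pic K p ω₀).tau ((d.pic K p ω₀).th ω)) (d.pic K p ω₀).b =
        CH p (fun ω => ⌊(2 : ℝ) ^ d.X * d.th ω⌋) (d.g K) :=
      CH_rr (ω₀ := ω₀) h0 (fun ω => ⌊(2 : ℝ) ^ d.X * d.th ω⌋) (d.g K)
    change _ ≤ CH p (fun ω => (d.pic K p ω₀).tau ((d.pic K p ω₀).th ω)) (d.pic K p ω₀).b
    rw [e1]
    have h2 : CH p (fun ω => ⌊(2 : ℝ) ^ d.X * d.th ω⌋) (d.L K) ≤
        CH p (fun ω => ⌊(2 : ℝ) ^ d.X * d.th ω⌋) (d.g K) := CH_mono_cond h0 hgL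
    unfold Dv
    linarith

end law

end VD

end Pool.LV64
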